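import Mathlib

/-! The symmetric local lemma on bit vectors, by counting. -/

set_option autoImplicit false

namespace Pool.Agent.MP_ee574f_co

namespace LLL

open Finset

variable {ι : Type} [Fintype ι] [DecidableEq ι]

open Classical in
/-- The number of bit vectors with a property. -/
noncomputable def cnt (P : (ι → Bool) → Prop) : ℕ := (univ.filter P).card

/-- The property depends only on the coordinates in `S`. -/
def Dep (S : Finset ι) (P : (ι → Bool) → Prop) : Prop :=
  ∀ ω ω', (∀ i ∈ S, ω i = ω' i) → P ω → P ω'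

theorem cnt_mono {P Q : (ι → Bool) → Prop} (h : ∀ ω, P ω → Q ω) : cnt P ≤ cnt Q := by
  classical
  unfold cnt
  refine card_le_card fun ω hω => ?_
  simp only [mem_filter, mem_univ, true_and] at hω ⊢
  exact h ω hω

theorem exists_of_cnt_pos {P : (ι → Bool) → Prop} (h : 0 < cnt P) : ∃ ω, P ω := by
  classical
  unfold cnt at h
  obtain ⟨ω, hω⟩ := card_pos.1 h
  exact ⟨ω, (mem_filter.1 hω).2⟩

theorem cnt_true : cnt (fun _ : ι → Bool => True) = Fintype.card (ι → Bool) := by
  classical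
  unfold cnt
  simp

theorem cnt_split (P Q : (ι → Bool) → Prop) :
    cnt P = cnt (fun ω => Q ω ∧ P ω) + cnt (fun ω => ¬ Q ω ∧ P ω) := by
  classical
  unfold cnt
  rw [← card_filter_add_card_filter_not (s := univ.filter P) Q]
  congr 1
  · congr 1
    ext ω
    simp [and_comm]
  · congr 1
    ext ω
    simp [and_comm]

theorem cnt_union {η : Type} (X : Finset η) (P Q : (ι → Bool) → Prop)
    (E : η → (ι → Bool) → Prop) (h : ∀ ω, P ω → Q ω ∨ ∃ g ∈ X, E g ω) :
    cnt P ≤ cnt Q + ∑ g ∈ X, cnt (E g) := by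
  classical
  unfold cnt
  calc (univ.filter P).card ≤ (univ.filter Q ∪ X.biUnion fun g => univ.filter (E g)).card := by
        refine card_le_card fun ω hω => ?_
        simp only [mem_filter, mem_univ, true_and, mem_union, mem_biUnion] at hω ⊢
        exact h ω hω
    _ ≤ _ := (card_union_le _ _).trans (Nat.add_le_add_left card_biUnion_le _)

theorem indep {S S' : Finset ι} (hS : Disjoint S S') {A B : (ι → Bool) → Prop} (hA : Dep S A)
    (hB : Dep S' B) :
    cnt (fun ω => A ω ∧ B ω) * Fintype.card (ι → Bool) = cnt A * cnt B := by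
  classical
  unfold cnt
  rw [← card_univ, ← card_product, ← card_product]
  have hno : ∀ i ∈ S', i ∉ S := fun i hi h => disjoint_left.1 hS h hi
  refine card_nbij' (fun q => (S.piecewise q.1 q.2, S.piecewise q.2 q.1))
    (fun q => (S.piecewise q.1 q.2, S.piecewise q.2 q.1)) ?_ ?_ ?_ ?_
  · rintro ⟨u, v⟩ h
    simp only [coe_product, coe_filter, mem_univ, true_and, Set.mem_prod, Set.mem_ofPred_eq,
      coe_univ, Set.mem_univ, and_true] at h ⊢
    exact ⟨hA u _ (fun i hi => (piecewise_eq_of_mem _ _ _ hi).symm) h.1,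
      hB u _ (fun i hi => (piecewise_eq_of_notMem _ _ _ (hno i hi)).symm) h.2⟩
  · rintro ⟨u, v⟩ h
    simp only [coe_product, coe_filter, mem_univ, true_and, Set.mem_prod, Set.mem_ofPred_eq,
      coe_univ, Set.mem_univ, and_true] at h ⊢
    exact ⟨hA u _ (fun i hi => (piecewise_eq_of_mem _ _ _ hi).symm) h.1,
      hB v _ (fun i hi => (piecewise_eq_of_notMem _ _ _ (hno i hi)).symm) h.2⟩
  · rintro ⟨u, v⟩ _
    ext i <;> by_cases hi : i ∈ S <;> simp [piecewise, hi]
  · rintro ⟨u, v⟩ _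
    ext i <;> by_cases hi : i ∈ S <;> simp [piecewise, hi]

theorem atom_le {S : Finset ι} (hS : S.card ≤ 4) {A : (ι → Bool) → Prop} (hA : Dep S A)
    (hne : ∃ ω, ¬ A ω) : 16 * cnt A ≤ 15 * Fintype.card (ι → Bool) := by
  classical
  obtain ⟨w, hw⟩ := hne
  have h1 : Fintype.card (ι → Bool) ≤ cnt (fun ω => ¬ A ω ∧ True) * 2 ^ S.card := by
    have e : 2 ^ S.card = (univ : Finset (S → Bool)).card := by simp
    unfold cnt
    rw [e, ← card_product, ← card_univ]
    refine card_le_card_of_injOn (fun ω => (S.piecewise w ω, fun i : S => ω i)) ?_ ?_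
    · intro ω _
      simp only [coe_product, coe_filter, mem_univ, true_and, Set.mem_prod, Set.mem_ofPred_eq,
        coe_univ, Set.mem_univ, and_true]
      exact fun h => hw (hA _ w (fun i hi => piecewise_eq_of_mem _ _ _ hi) h)
    · intro u _ v _ h
      simp only [Prod.mk.injEq] at h
      funext i
      by_cases hi : i ∈ S
      · exact congrFun h.2 ⟨i, hi⟩
      · simpa [piecewise, hi] using congrFun h.1 i
  have h2 := cnt_split (fun _ : ι → Bool => True) A
  rw [cnt_true] at h2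
  have h3 : cnt A ≤ cnt (fun ω => A ω ∧ True) := cnt_mono fun ω h => ⟨h, trivial⟩
  have h4 : 2 ^ S.card ≤ 2 ^ 4 := Nat.pow_le_pow_right (by norm_num) hS
  have h5 := h1.trans (Nat.mul_le_mul_left _ h4)
  omega

omit [Fintype ι] in
theorem dep_all {α : Type} (vars : α → Finset ι) (F : α → (ι → Bool) → Prop)
    (hdep : ∀ s, Dep (vars s) (F s)) (U : Finset α) :
    Dep (U.biUnion vars) fun ω => ∀ s ∈ U, F s ω :=
  fun ω ω' h hω s hs => hdep s ω ω' (fun i hi => h i (mem_biUnion.2 ⟨s, hs, hi⟩)) (hω s hs)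

theorem prod_le {α : Type} [DecidableEq α] (vars : α → Finset ι) (F : α → (ι → Bool) → Prop)
    (hv : ∀ s, (vars s).card ≤ 4) (hdep : ∀ s, Dep (vars s) (F s)) (U : Finset α)
    (hne : ∀ s ∈ U, ∃ ω, ¬ F s ω) (hU : ∀ s ∈ U, ∀ t ∈ U, s ≠ t → Disjoint (vars s) (vars t)) :
    (cnt (fun ω => ∀ s ∈ U, F s ω) : ℝ) ≤ (15 / 16) ^ U.card * Fintype.card (ι → Bool) := by
  induction U using Finset.induction_on with
  | empty =>
    have := cnt_mono (P := fun ω => ∀ s ∈ (∅ : Finset α), F s ω) (Q := fun _ => True)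
      fun _ _ => trivial
    rw [cnt_true] at this
    rw [card_empty, pow_zero, one_mul]
    exact_mod_cast this
  | insert s U hs ih =>
    have ih' := ih (fun t ht => hne t (mem_insert_of_mem ht))
      fun t ht u hu => hU t (mem_insert_of_mem ht) u (mem_insert_of_mem hu)
    have hd : Disjoint (vars s) (U.biUnion vars) := by
      rw [disjoint_biUnion_right]
      intro t ht
      exact hU s (mem_insert_self _ _) t (mem_insert_of_mem ht) fun h => hs (h ▸ ht)
    have h1 := indep hd (hdep s) (dep_all vars F hdep U)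
    have h2 := atom_le (hv s) (hdep s) (hne s (mem_insert_self _ _))
    have h3 : cnt (fun ω => ∀ t ∈ insert s U, F t ω) ≤ cnt fun ω => F s ω ∧ ∀ t ∈ U, F t ω :=
      cnt_mono fun ω h => ⟨h s (mem_insert_self _ _), fun t ht => h t (mem_insert_of_mem ht)⟩
    have hN : (0 : ℝ) < Fintype.card (ι → Bool) := by exact_mod_cast Fintype.card_pos
    have h1' : (cnt (fun ω => F s ω ∧ ∀ t ∈ U, F t ω) : ℝ) * Fintype.card (ι → Bool) =
        cnt (F s) * cnt (fun ω => ∀ t ∈ U, F t ω) := by exact_mod_cast h1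
    have h2' : (cnt (F s) : ℝ) ≤ 15 / 16 * Fintype.card (ι → Bool) := by
      have : (16 : ℝ) * cnt (F s) ≤ 15 * Fintype.card (ι → Bool) := by exact_mod_cast h2
      linarith
    have h3' : (cnt (fun ω => ∀ t ∈ insert s U, F t ω) : ℝ) ≤
        cnt fun ω => F s ω ∧ ∀ t ∈ U, F t ω := by exact_mod_cast h3
    refine h3'.trans (le_of_mul_le_mul_right ?_ hN)
    rw [h1', card_insert_of_notMem hs, pow_succ]
    calc _ ≤ (15 / 16 * Fintype.card (ι → Bool)) *
          ((15 / 16 : ℝ) ^ U.card * Fintype.card (ι → Bool)) :=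
          mul_le_mul h2' ih' (Nat.cast_nonneg _) (by positivity)
      _ = _ := by ring

omit [Fintype ι] in
theorem greedy {α : Type} [Fintype α] [DecidableEq α] (vars : α → Finset ι)
    (hv : ∀ s, (vars s).card ≤ 4)
    (hshare : ∀ i, (univ.filter (fun s => i ∈ vars s)).card ≤ 4) (k : ℕ) :
    ∀ T : Finset α, 13 * k ≤ T.card → ∃ U ⊆ T, U.card = k ∧
      ∀ s ∈ U, ∀ t ∈ U, s ≠ t → Disjoint (vars s) (vars t) := by
  induction k with
  | zero => exact fun T _ => ⟨∅, empty_subset _, rfl, by simp⟩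
  | succ k ih =>
    intro T hT
    obtain ⟨s, hs⟩ : T.Nonempty := card_pos.1 (by omega)
    set R := insert s ((vars s).biUnion fun i => (univ.filter fun t => i ∈ vars t).erase s) with hR
    have hRc : R.card ≤ 13 := by
      have h1 : ((vars s).biUnion fun i => (univ.filter fun t => i ∈ vars t).erase s).card ≤
          (vars s).card * 3 := by
        refine card_biUnion_le_card_mul _ _ _ fun i hi => ?_
        rw [card_erase_of_mem (by simpa using hi)]
        have := hshare i
        omega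
      have h2 := card_insert_le s
        ((vars s).biUnion fun i => (univ.filter fun t => i ∈ vars t).erase s)
      have := hv s
      rw [hR]
      omega
    have h3 := le_card_sdiff R T
    obtain ⟨U, hU, hUc, hUd⟩ := ih (T \ R) (by omega)
    have hno : ∀ t ∈ U, t ≠ s ∧ Disjoint (vars s) (vars t) := by
      intro t ht
      have h4 := (mem_sdiff.1 (hU ht)).2
      have h5 : t ≠ s := fun h => h4 (by rw [h]; exact mem_insert_self _ _)
      refine ⟨h5, disjoint_left.2 fun i hi hi' => h4 (mem_insert_of_mem ?_)⟩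
      exact mem_biUnion.2 ⟨i, hi, mem_erase.2 ⟨h5, by simpa using hi'⟩⟩
    have hsU : s ∉ U := fun h => (hno s h).1 rfl
    refine ⟨insert s U, insert_subset hs (hU.trans sdiff_subset), by
      rw [card_insert_of_notMem hsU, hUc], ?_⟩
    intro a ha b hb hab
    rcases mem_insert.1 ha with rfl | ha'
    · rcases mem_insert.1 hb with rfl | hb'
      · exact absurd rfl hab
      · exact (hno b hb').2
    · rcases mem_insert.1 hb with rfl | hb'
      · exact (hno a ha').2.symm
      · exact hUd a ha' b hb' hab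

/-- The symmetric local lemma. -/
theorem lll {η : Type} [Fintype η] [DecidableEq η] (E : η → (ι → Bool) → Prop)
    (S : η → Finset ι) (hdep : ∀ h, Dep (S h) (E h)) (p : ℝ) (d : ℕ) (hp0 : 0 ≤ p)
    (hp1 : 2 * p < 1) (hpd : 4 * p * d ≤ 1)
    (hp : ∀ h, (cnt (E h) : ℝ) ≤ p * Fintype.card (ι → Bool))
    (hd : ∀ h, (univ.filter fun g => ¬ Disjoint (S h) (S g)).card ≤ d) :
    ∃ ω, ∀ h, ¬ E h ω := by
  have hN : (0 : ℝ) < Fintype.card (ι → Bool) := by exact_mod_cast Fintype.card_pos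
  have hnd : ∀ h, Dep (S h) fun ω => ¬ E h ω := fun h ω ω' e hω h' =>
    hω (hdep h ω' ω (fun i hi => (e i hi).symm) h')
  have key : ∀ X : Finset η, ∀ h, (cnt (fun ω => E h ω ∧ ∀ g ∈ X, ¬ E g ω) : ℝ) ≤
      2 * p * cnt (fun ω => ∀ g ∈ X, ¬ E g ω) := by
    intro X
    induction X using Finset.strongInduction with
    | H X ih =>
      intro h
      set X1 := X.filter fun g => ¬ Disjoint (S h) (S g) with hX1
      set X2 := X.filter fun g => Disjoint (S h) (S g) with hX2
      have hdis : Disjoint (S h) (X2.biUnion S) := by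
        rw [disjoint_biUnion_right]
        exact fun g hg => (mem_filter.1 hg).2
      have h1 : (cnt (fun ω => E h ω ∧ ∀ g ∈ X2, ¬ E g ω) : ℝ) * Fintype.card (ι → Bool) =
          cnt (E h) * cnt (fun ω => ∀ g ∈ X2, ¬ E g ω) := by
        exact_mod_cast indep hdis (hdep h) (dep_all S (fun g ω => ¬ E g ω) hnd X2)
      have h2 : (cnt (fun ω => E h ω ∧ ∀ g ∈ X2, ¬ E g ω) : ℝ) ≤
          p * cnt (fun ω => ∀ g ∈ X2, ¬ E g ω) := by
        refine le_of_mul_le_mul_right ?_ hN
        rw [h1]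
        calc _ ≤ (p * Fintype.card (ι → Bool)) * (cnt (fun ω => ∀ g ∈ X2, ¬ E g ω) : ℝ) :=
              mul_le_mul_of_nonneg_right (hp h) (Nat.cast_nonneg _)
          _ = _ := by ring
      have h3 : (cnt (fun ω => E h ω ∧ ∀ g ∈ X, ¬ E g ω) : ℝ) ≤
          cnt (fun ω => E h ω ∧ ∀ g ∈ X2, ¬ E g ω) := by
        exact Nat.cast_le.2 (cnt_mono fun ω hω => ⟨hω.1, fun g hg => hω.2 g (mem_filter.1 hg).1⟩)
      have h4 : (cnt (fun ω => ∀ g ∈ X2, ¬ E g ω) : ℝ) ≤ cnt (fun ω => ∀ g ∈ X, ¬ E g ω) +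
          ∑ g ∈ X1, (cnt (fun ω => E g ω ∧ ∀ g' ∈ X2, ¬ E g' ω) : ℝ) := by
        have := cnt_union X1 (fun ω => ∀ g ∈ X2, ¬ E g ω) (fun ω => ∀ g ∈ X, ¬ E g ω)
          (fun g ω => E g ω ∧ ∀ g' ∈ X2, ¬ E g' ω) (by
            intro ω hω
            by_cases hall : ∀ g ∈ X, ¬ E g ω
            · exact Or.inl hall
            · push Not at hall
              obtain ⟨g, hg, hE⟩ := hall
              refine Or.inr ⟨g, mem_filter.2 ⟨hg, fun hdg => ?_⟩, hE, hω⟩
              exact hω g (mem_filter.2 ⟨hg, hdg⟩) hE)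
        exact_mod_cast this
      have h5 : ∑ g ∈ X1, (cnt (fun ω => E g ω ∧ ∀ g' ∈ X2, ¬ E g' ω) : ℝ) ≤
          X1.card • (2 * p * cnt (fun ω => ∀ g ∈ X2, ¬ E g ω)) := by
        refine sum_le_card_nsmul _ _ _ fun g hg => ih X2 ?_ g
        refine (ssubset_iff_of_subset (filter_subset _ _)).2 ⟨g, (mem_filter.1 hg).1, fun h' => ?_⟩
        exact (mem_filter.1 hg).2 (mem_filter.1 h').2
      have h6 : (X1.card : ℝ) ≤ d := by
        have : X1.card ≤ d := (card_le_card fun g hg =>
          mem_filter.2 ⟨mem_univ _, (mem_filter.1 hg).2⟩).trans (hd h)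
        exact_mod_cast this
      rw [nsmul_eq_mul] at h5
      have h7 : (0 : ℝ) ≤ cnt (fun ω => ∀ g ∈ X2, ¬ E g ω) := Nat.cast_nonneg _
      have h8 : (X1.card : ℝ) * (2 * p * cnt (fun ω => ∀ g ∈ X2, ¬ E g ω)) ≤
          1 / 2 * cnt (fun ω => ∀ g ∈ X2, ¬ E g ω) := by
        rw [← mul_assoc]
        refine mul_le_mul_of_nonneg_right ?_ h7
        nlinarith
      have h9 : (cnt (fun ω => ∀ g ∈ X2, ¬ E g ω) : ℝ) ≤ 2 * cnt (fun ω => ∀ g ∈ X, ¬ E g ω) := by
        linarith
      calc _ ≤ p * cnt (fun ω => ∀ g ∈ X2, ¬ E g ω) := h3.trans h2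
        _ ≤ p * (2 * cnt (fun ω => ∀ g ∈ X, ¬ E g ω)) := mul_le_mul_of_nonneg_left h9 hp0
        _ = _ := by ring
  have pos : ∀ X : Finset η, (0 : ℝ) < cnt (fun ω => ∀ g ∈ X, ¬ E g ω) := by
    intro X
    induction X using Finset.induction_on with
    | empty =>
      have := cnt_mono (P := fun _ => True) (Q := fun ω => ∀ g ∈ (∅ : Finset η), ¬ E g ω)
        fun _ _ => by simp
      rw [cnt_true] at this
      exact hN.trans_le (by exact_mod_cast this)
    | insert h X _ ih =>
      have h1 : (cnt (fun ω => ∀ g ∈ X, ¬ E g ω) : ℝ) =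
          cnt (fun ω => E h ω ∧ ∀ g ∈ X, ¬ E g ω) + cnt (fun ω => ¬ E h ω ∧ ∀ g ∈ X, ¬ E g ω) := by
        exact_mod_cast cnt_split (fun ω => ∀ g ∈ X, ¬ E g ω) (E h)
      have h2 : (cnt (fun ω => ¬ E h ω ∧ ∀ g ∈ X, ¬ E g ω) : ℝ) ≤
          cnt (fun ω => ∀ g ∈ insert h X, ¬ E g ω) := by
        refine Nat.cast_le.2 (cnt_mono fun ω hω g hg => ?_)
        rcases mem_insert.1 hg with rfl | hg
        · exact hω.1
        · exact hω.2 g hg
      have h3 := key X h
      nlinarith
  have h1 : 0 < cnt (fun ω => ∀ g ∈ (univ : Finset η), ¬ E g ω) := by exact_mod_cast pos univ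
  obtain ⟨ω, hω⟩ := exists_of_cnt_pos h1
  exact ⟨ω, fun h => hω h (mem_univ _)⟩

theorem num (L : ℕ) (hL : 7 ≤ L) : 2112 * L ≤ 4 ^ L := by
  induction L, hL using Nat.le_induction with
  | base => norm_num
  | succ n hn ih => rw [pow_succ]; omega

end LLL

open LLL Finset in
theorem lll_atoms {ι α η : Type} [Fintype ι] [DecidableEq ι] [Fintype α] [DecidableEq α]
    [Fintype η] [DecidableEq η]
    (vars : α → Finset ι) (F : α → (ι → Bool) → Prop) (T : η → Finset α) (Δ L : ℕ)
    (hL : 7 ≤ L) (hΔ : Δ ≤ 2 ^ L)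
    (hv : ∀ s, (vars s).card ≤ 4)
    (hdep : ∀ s ω ω', (∀ i ∈ vars s, ω i = ω' i) → F s ω → F s ω')
    (hne : ∀ h, ∀ s ∈ T h, ∃ ω, ¬ F s ω)
    (hshare : ∀ i, (Finset.univ.filter (fun s => i ∈ vars s)).card ≤ 4)
    (hdeg : ∀ s, (Finset.univ.filter (fun h => s ∈ T h)).card ≤ Δ)
    (hT : ∀ h, 429 * L ≤ (T h).card) :
    ∃ ω, ∀ h, ∃ s ∈ T h, ¬ F s ω := by
  have hU := fun h => greedy vars hv hshare (33 * L) (T h) (by have := hT h; omega)
  choose U hUT hUc hUd using hU
  have hp : ((15 / 16 : ℝ)) ^ (33 * L) ≤ (1 / 8) ^ L := by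
    rw [pow_mul]
    exact pow_le_pow_left₀ (by positivity) (by norm_num) L
  have h8 : ((1 / 8 : ℝ)) ^ L ≤ 1 / 8 := pow_le_of_le_one (by norm_num) (by norm_num) (by omega)
  obtain ⟨ω, hω⟩ := lll (fun h ω => ∀ s ∈ U h, F s ω) (fun h => (U h).biUnion vars)
    (fun h => dep_all vars F hdep (U h)) ((1 / 8) ^ L) (132 * L * (4 * Δ)) (by positivity)
    (by linarith) (by
      have h1 : (2112 : ℝ) * L ≤ 4 ^ L := by exact_mod_cast num L hL
      have h2 : (Δ : ℝ) ≤ 2 ^ L := by exact_mod_cast hΔ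
      have h3 : ((1 / 8 : ℝ)) ^ L * (4 ^ L * 2 ^ L) = 1 := by
        rw [← mul_pow, ← mul_pow]; norm_num
      have h4 : (2112 : ℝ) * L * Δ ≤ 4 ^ L * 2 ^ L :=
        mul_le_mul h1 h2 (Nat.cast_nonneg _) (by positivity)
      have h5 := mul_le_mul_of_nonneg_left h4 (show (0 : ℝ) ≤ (1 / 8) ^ L by positivity)
      push_cast
      linarith)
    (fun h => by
      have := prod_le vars F hv hdep (U h) (fun s hs => hne h s (hUT h hs)) (hUd h)
      rw [hUc h] at this
      exact this.trans (mul_le_mul_of_nonneg_right hp (Nat.cast_nonneg _)))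
    (fun h => by
      have h1 : ((U h).biUnion vars).card ≤ 132 * L := by
        have := card_biUnion_le_card_mul (U h) vars 4 fun s _ => hv s
        rw [hUc h] at this
        omega
      calc _ ≤ (((U h).biUnion vars).biUnion fun i => (univ.filter fun s => i ∈ vars s).biUnion
            fun s => univ.filter fun g => s ∈ T g).card := by
            refine card_le_card fun g hg => ?_
            obtain ⟨i, hi, hi'⟩ := not_disjoint_iff.1 (mem_filter.1 hg).2
            obtain ⟨s, hs, his⟩ := mem_biUnion.1 hi'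
            exact mem_biUnion.2 ⟨i, hi, mem_biUnion.2 ⟨s, by simpa using his,
              by simpa using hUT g hs⟩⟩
        _ ≤ ((U h).biUnion vars).card * (4 * Δ) := by
            refine card_biUnion_le_card_mul _ _ _ fun i _ => ?_
            exact (card_biUnion_le_card_mul _ _ Δ fun s _ => hdeg s).trans
              (Nat.mul_le_mul_right _ (hshare i))
        _ ≤ _ := Nat.mul_le_mul_right _ h1)
  refine ⟨ω, fun h => ?_⟩
  have := hω h
  push Not at this
  obtain ⟨s, hs, hF⟩ := this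
  exact ⟨s, hUT h hs, hF⟩

end Pool.Agent.MP_ee574f_co
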