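import Pool.Agent.MP_ee574f_co.Exch

set_option autoImplicit false

namespace Pool.Agent.MP_ee574f_co

open SimpleGraph Classical Finset

variable {V : Type} [Fintype V] {G : SimpleGraph V} {n : ℕ} [NeZero n] {f : ZMod n → V}

noncomputable def attS (K : Comp G f) : Finset (ZMod n) := univ.filter (fun x => Att x K)

noncomputable def outN (G : SimpleGraph V) (f : ZMod n → V) (x : ZMod n) : Finset V :=
  univ.filter (fun v => G.Adj (f x) v ∧ v ∉ Set.range f)

def Lv (G : SimpleGraph V) (f : ZMod n → V) (k : ℕ) (x : ZMod n) : Prop :=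
  ∃ K : Comp G f, k ≤ (attS K).card ∧ Att x K

omit [Fintype V] [NeZero n] in
theorem mem_mk {v : V} (hv : v ∉ Set.range f) :
    Mem v ((Out G f).connectedComponentMk v) := ⟨rfl, hv⟩

theorem outN_card (hL : Long G n f) (x : ZMod n) : G.degree (f x) ≤ (outN G f x).card + 2 := by
  have : G.neighborFinset (f x) ⊆ outN G f x ∪ {f (x + 1), f (x - 1)} := by
    intro v hv
    rw [mem_neighborFinset] at hv
    by_cases h : v ∈ Set.range f
    · obtain ⟨y, rfl⟩ := h
      rcases hL.chordless x y hv with rfl | rfl <;> simp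
    · exact mem_union_left _ (mem_filter.2 ⟨mem_univ _, hv, h⟩)
  have h1 := card_le_card this
  have h2 := card_union_le (outN G f x) {f (x + 1), f (x - 1)}
  have h3 : ({f (x + 1), f (x - 1)} : Finset V).card ≤ 2 := card_le_two
  rw [card_neighborFinset_eq_degree] at h1
  omega

theorem exists_psi (hL : Long G n f) (k : ℕ) (hk : 0 < k) (hδ : ∀ v, k + 2 ≤ G.degree v) :
    ∃ ψ : {x // ¬ Lv G f k x} → V, Function.Injective ψ ∧ ∀ x, ψ x ∈ outN G f x.1 := by
  refine (all_card_le_biUnion_card_iff_exists_injective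
    (fun x : {x // ¬ Lv G f k x} => outN G f x.1)).1 fun s => ?_
  have := card_mul_le_card_mul (s := s) (t := s.biUnion fun x => outN G f x.1) (m := k) (n := k)
    (fun x v => v ∈ outN G f x.1) ?_ ?_
  · exact Nat.le_of_mul_le_mul_right this hk
  · intro x hx
    have h1 := outN_card hL x.1
    have h2 := hδ (f x.1)
    refine le_trans (by omega : k ≤ (outN G f x.1).card) (card_le_card fun v hv => ?_)
    exact (mem_bipartiteAbove _).2 ⟨mem_biUnion.2 ⟨x, hx, hv⟩, hv⟩
  · intro v hv
    obtain ⟨x, -, hxv⟩ := mem_biUnion.1 hv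
    obtain ⟨-, a, b⟩ := mem_filter.1 hxv
    have hnl : ¬ k ≤ (attS ((Out G f).connectedComponentMk v)).card :=
      fun h => x.2 ⟨_, h, v, mem_mk b, a⟩
    refine le_trans ?_ (not_le.1 hnl).le
    refine card_le_card_of_injOn Subtype.val ?_ Subtype.val_injective.injOn
    intro y hy
    obtain ⟨-, hy⟩ := (mem_bipartiteBelow _).1 (mem_coe.1 hy)
    obtain ⟨-, a', b'⟩ := mem_filter.1 hy
    exact mem_coe.2 (mem_filter.2 ⟨mem_univ _, v, mem_mk b', a'⟩)

/-- `x` sees only one vertex of `K`. -/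
def Priv (K : Comp G f) (x : ZMod n) : Prop := ∃ c, ∀ v, Mem v K → G.Adj (f x) v → v = c

noncomputable def key (K : Comp G f) (x : ZMod n) : V :=
  if h : Priv K x then h.choose else f x

omit [Fintype V] [NeZero n] in
theorem key_priv {K : Comp G f} {x : ZMod n} (h : Priv K x) {v : V} (hv : Mem v K)
    (ha : G.Adj (f x) v) : key K x = v := by
  rw [key, dif_pos h]; exact (h.choose_spec v hv ha).symm

omit [Fintype V] [NeZero n] in
theorem link_of_key {K : Comp G f} {x y : ZMod n} (hx : Att x K) (hy : Att y K)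
    (h : key K x ≠ key K y) : Link2 K x y := by
  obtain ⟨v, hv, av⟩ := hx
  obtain ⟨w, hw, aw⟩ := hy
  by_cases e : v = w
  swap; · exact ⟨v, w, e, hv, hw, av, aw⟩
  subst e
  by_cases px : Priv K x
  · by_cases py : Priv K y
    · exact absurd ((key_priv px hv av).trans (key_priv py hv aw).symm) h
    · simp only [Priv, not_exists, not_forall] at py
      obtain ⟨w, hw, aw, e⟩ := py v
      exact ⟨v, w, Ne.symm e, hv, hw, av, aw⟩
  · simp only [Priv, not_exists, not_forall] at px
    obtain ⟨w, hw, aw', e⟩ := px v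
    exact ⟨w, v, e, hw, hv, aw', aw⟩

theorem keys_card (hL : Long G n f) (c k : ℕ)
    (hconn : ∀ S : Finset V, S.card < c → (G.induce ((↑S : Set V)ᶜ)).Connected)
    (hδ : ∀ v, k + c ≤ G.degree v) {K : Comp G f} (hK : (attS K).card < k) {x : ZMod n}
    (hx : Att x K) : c ≤ ((attS K).image (key K)).card := by
  by_contra hlt
  push Not at hlt
  set S := (attS K).image (key K) with hS
  have hc := hconn S hlt
  obtain ⟨v0, hv0, -⟩ := id hx
  -- a member of `K` outside `S`
  have hv : ∃ v, Mem v K ∧ v ∉ S := by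
    by_contra hno
    push Not at hno
    have : G.neighborFinset v0 ⊆ S ∪ (attS K).image f := by
      intro w hw
      rw [mem_neighborFinset] at hw
      by_cases h : w ∈ Set.range f
      · obtain ⟨y, rfl⟩ := h
        exact mem_union_right _ (mem_image_of_mem _ (mem_filter.2 ⟨mem_univ _, v0, hv0, hw.symm⟩))
      · exact mem_union_left _ (hno w (hv0.step hw h))
    have h1 := card_le_card this
    have h2 := card_union_le S ((attS K).image f)
    have h3 : ((attS K).image f).card ≤ (attS K).card := card_image_le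
    have h4 := hδ v0
    rw [card_neighborFinset_eq_degree] at h1
    omega
  obtain ⟨v, hv, hvS⟩ := hv
  have hu : f (x + 1) ∉ S := by
    intro h
    obtain ⟨y, hy, e⟩ := mem_image.1 h
    have hy' := (mem_filter.1 hy).2
    by_cases p : Priv K y
    · obtain ⟨w, hw, aw⟩ := hy'
      exact hw.2 ⟨x + 1, by rw [← e, key_priv p hw aw]⟩
    · rw [key, dif_neg p] at e
      exact hL.not_att_succ hx (hL.inj e ▸ hy')
  obtain ⟨p⟩ := hc.preconnected ⟨v, by simpa using hvS⟩ ⟨f (x + 1), by simpa using hu⟩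
  have inv : ∀ (a b : ((↑S : Set V)ᶜ : Set V)) (_ : (G.induce ((↑S : Set V)ᶜ)).Walk a b),
      Mem a.1 K → Mem b.1 K := by
    intro a b q
    induction q with
    | nil => exact id
    | @cons a' b' _ h _ ih =>
      intro ha
      have h' : G.Adj a'.1 b'.1 := h
      refine ih (ha.step h' ?_)
      rintro ⟨y, e⟩
      have hy : y ∈ attS K := mem_filter.2 ⟨mem_univ _, a'.1, ha, e ▸ h'.symm⟩
      have hk : key K y ∈ S := mem_image_of_mem _ hy
      by_cases p : Priv K y
      · rw [key_priv p ha (e ▸ h'.symm)] at hk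
        exact a'.2 (mem_coe.2 hk)
      · rw [key, dif_neg p, e] at hk
        exact b'.2 (mem_coe.2 hk)
  exact (inv _ _ p hv).2 ⟨x + 1, rfl⟩

theorem exists_adm (hL : Long G n f) (c k : ℕ)
    (hconn : ∀ S : Finset V, S.card < c → (G.induce ((↑S : Set V)ᶜ)).Connected)
    (hδ : ∀ v, k + c ≤ G.degree v) (ψ : {x // ¬ Lv G f k x} → V) (hψ : Function.Injective ψ)
    (hψ' : ∀ x, ψ x ∈ outN G f x.1) (K : Comp G f) :
    ∃ Ad : Finset (ZMod n), (∀ x ∈ Ad, Att x K) ∧
      (∀ x ∈ Ad, ∀ y ∈ Ad, x ≠ y → Link2 K x y) ∧ (∀ x, Mem (ψ x) K → x.1 ∈ Ad) ∧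
      ((attS K).card < k → Ad.Nonempty → c ≤ Ad.card) := by
  let U : Set (ZMod n) := {x | ∃ h : ¬ Lv G f k x, Mem (ψ ⟨x, h⟩) K}
  have hU : Set.InjOn (key K) U := by
    rintro x ⟨hx, mx⟩ y ⟨hy, my⟩ e
    have ax := (mem_filter.1 (hψ' ⟨x, hx⟩)).2.1
    have ay := (mem_filter.1 (hψ' ⟨y, hy⟩)).2.1
    by_cases px : Priv K x <;> by_cases py : Priv K y
    · rw [key_priv px mx ax, key_priv py my ay] at e
      exact congrArg Subtype.val (hψ e)
    · rw [key_priv px mx ax, key, dif_neg py] at e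
      exact absurd ⟨y, e.symm⟩ mx.2
    · rw [key_priv py my ay, key, dif_neg px] at e
      exact absurd ⟨x, e⟩ my.2
    · rw [key, key, dif_neg px, dif_neg py] at e
      exact hL.inj e
  have hUs : U ⊆ ↑(attS K) := by
    rintro x ⟨hx, mx⟩
    exact mem_coe.2 (mem_filter.2 ⟨mem_univ _, _, mx, (mem_filter.1 (hψ' ⟨x, hx⟩)).2.1⟩)
  obtain ⟨u, h1, h2, h3, h4⟩ := hU.exists_subset_injOn_subset_range_eq hUs
  have hatt : ∀ x ∈ u, Att x K := fun x hx => (mem_filter.1 (mem_coe.1 (h2 hx))).2
  refine ⟨u.toFinset, fun x hx => hatt x (Set.mem_toFinset.1 hx), ?_, ?_, ?_⟩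
  · intro x hx y hy hxy
    rw [Set.mem_toFinset] at hx hy
    exact link_of_key (hatt x hx) (hatt y hy) (fun e => hxy (h4 hx hy e))
  · intro x hx
    exact Set.mem_toFinset.2 (h1 ⟨x.2, hx⟩)
  · rintro hK ⟨x, hx⟩
    refine (keys_card hL c k hconn hδ hK (hatt x (Set.mem_toFinset.1 hx))).trans ?_
    have : (attS K).image (key K) = u.toFinset.image (key K) := by
      apply coe_injective
      rw [coe_image, coe_image, Set.coe_toFinset, h3]
    rw [this]; exact card_image_le

end Pool.Agent.MP_ee574f_co
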