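import Mathlib

set_option autoImplicit false

namespace Pool.Agent.MP_ee574f_co

open SimpleGraph

variable {V : Type}

/-- `f` runs through a chordless longest cycle of `G`. -/
structure Long (G : SimpleGraph V) (n : ℕ) (f : ZMod n → V) : Prop where
  hn : 3 ≤ n
  inj : Function.Injective f
  adj : ∀ i, G.Adj (f i) (f (i + 1))
  long : ∀ l : List V, l.Nodup → 3 ≤ l.length → l.IsChain G.Adj →
    (∀ a ∈ l.head?, ∀ b ∈ l.getLast?, G.Adj b a) → l.length ≤ n
  chordless : ∀ i j, G.Adj (f i) (f j) → j = i + 1 ∨ i = j + 1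

theorem cycle_of_list {G : SimpleGraph V} (l : List V) (nd : l.Nodup) (h3 : 3 ≤ l.length)
    (hc : l.IsChain G.Adj) (hl : ∀ a ∈ l.head?, ∀ b ∈ l.getLast?, G.Adj b a) :
    ∃ (v : V) (d : G.Walk v v), d.IsCycle ∧ d.length = l.length := by
  have hne : l ≠ [] := by rintro rfl; simp at h3
  have hadj : G.Adj (l.getLast hne) (l.head hne) :=
    hl _ (by simp [List.head?_eq_some_head hne]) _ (by simp [List.getLast?_eq_some_getLast hne])
  have hs := Walk.support_ofSupport hne hc
  have hp : (Walk.ofSupport l hne hc).IsPath := Walk.IsPath.mk' (by rw [hs]; exact nd)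
  have hlen : (Walk.ofSupport l hne hc).length + 1 = l.length := by
    rw [← Walk.length_support, hs]
  refine ⟨_, Walk.cons hadj (Walk.ofSupport l hne hc), ?_, by rw [Walk.length_cons, hlen]⟩
  rw [Walk.cons_isCycle_iff]
  refine ⟨hp, fun he => ?_⟩
  rw [Sym2.eq_swap] at he
  have := hp.length_eq_one_of_mem_edges he
  omega

theorem long_of_walk {G : SimpleGraph V} {u : V} (c : G.Walk u u) (hc : c.IsCycle)
    (hmax : ∀ (v : V) (d : G.Walk v v), d.IsCycle → d.length ≤ c.length)
    (hch : ¬ ∃ x y : V, x ∈ c.support ∧ y ∈ c.support ∧ G.Adj x y ∧ s(x, y) ∉ c.edges) :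
    Long G c.length (fun i => c.getVert i.val) := by
  have h3 := hc.three_le_length
  have : NeZero c.length := ⟨by omega⟩
  have hstep : ∀ i : ZMod c.length, c.getVert (i + 1).val = c.getVert (i.val + 1) := by
    intro i
    have hi := ZMod.val_lt i
    have : Fact (1 < c.length) := ⟨by omega⟩
    rw [ZMod.val_add, ZMod.val_one]
    rcases Nat.lt_or_ge (i.val + 1) c.length with h | h
    · rw [Nat.mod_eq_of_lt h]
    · have : i.val + 1 = c.length := by omega
      rw [this, Nat.mod_self, Walk.getVert_zero, Walk.getVert_length]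
  have hinj : Function.Injective (fun i : ZMod c.length => c.getVert i.val) := by
    intro i j hij
    have hi := ZMod.val_lt i
    have hj := ZMod.val_lt j
    apply ZMod.val_injective
    exact hc.getVert_injOn' (by simp only [Set.mem_ofPred_eq]; omega)
      (by simp only [Set.mem_ofPred_eq]; omega) hij
  refine ⟨h3, hinj, fun i => ?_, fun l nd hl hch' hcl => ?_, fun i j hij => ?_⟩
  · show G.Adj _ (c.getVert (i + 1).val)
    rw [hstep]; exact c.adj_getVert_succ (ZMod.val_lt i)
  · obtain ⟨v, d, hd, hdl⟩ := cycle_of_list l nd hl hch' hcl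
    exact hdl ▸ hmax v d hd
  · have hmem : s(c.getVert i.val, c.getVert j.val) ∈ c.edges := by
      by_contra hno
      exact hch ⟨_, _, c.getVert_mem_support _, c.getVert_mem_support _, hij, hno⟩
    obtain ⟨t, ht, he⟩ := (Walk.mk_mem_edges_iff_exists _).1 hmem
    have e1 : c.getVert t = c.getVert (t : ZMod c.length).val := by
      rw [ZMod.val_cast_of_lt ht]
    have e2 : c.getVert (t + 1) = c.getVert ((t : ZMod c.length) + 1).val := by
      rw [hstep, ZMod.val_cast_of_lt ht]
    rw [e1, e2, Sym2.eq_iff] at he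
    rcases he with ⟨a, b⟩ | ⟨a, b⟩
    · left; rw [← hinj a, ← hinj b]
    · right; rw [← hinj a, ← hinj b]

theorem sum_zmod (m : ℕ) [NeZero m] (F : ZMod m → ℕ) :
    ((List.range m).map (fun t : ℕ => F (t : ZMod m))).sum = ∑ i, F i := by
  have h1 : ∀ k : ℕ, ((List.range k).map (fun t : ℕ => F (t : ZMod m))).sum =
      ∑ t ∈ Finset.range k, F (t : ZMod m) := by
    intro k
    induction k with
    | zero => simp
    | succ k ih => rw [List.range_succ, List.map_append, List.sum_append, ih, Finset.sum_range_succ]; simp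
  rw [h1]
  refine Finset.sum_nbij' (fun t : ℕ => (t : ZMod m)) (fun i => i.val) ?_ ?_ ?_ ?_ ?_
  · intro t _; simp
  · intro i _; simp [ZMod.val_lt]
  · intro t ht; exact ZMod.val_cast_of_lt (Finset.mem_range.1 ht)
  · intro i _; simp
  · intro t _; rfl

/-- Substituting a path for every vertex of a cyclic sequence gives a cycle. -/
theorem Long.lift {G : SimpleGraph V} {n : ℕ} {f : ZMod n → V} (h : Long G n f)
    (m : ℕ) [NeZero m] (hm : 3 ≤ m) (W : ZMod m → List V) (hne : ∀ i, W i ≠ [])
    (hnd : ∀ i, (W i).Nodup) (hch : ∀ i, (W i).IsChain G.Adj)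
    (hdis : ∀ i j, i ≠ j → ∀ v ∈ W i, v ∉ W j)
    (hlink : ∀ i, ∀ a ∈ (W i).getLast?, ∀ b ∈ (W (i + 1)).head?, G.Adj a b) :
    ∑ i, (W i).length ≤ n := by
  obtain ⟨k, rfl⟩ : ∃ k, m = k + 1 := ⟨m - 1, by omega⟩
  set LL : List (List V) := (List.range (k + 1)).map (fun t : ℕ => W (t : ZMod (k + 1))) with hLL
  have hnil : [] ∉ LL := by
    simp only [hLL, List.mem_map, not_exists, not_and]
    intro t _ ht; exact hne _ ht
  have hlen : LL.flatten.length = ∑ i, (W i).length := by
    rw [List.length_flatten, hLL, List.map_map]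
    exact sum_zmod (k + 1) (fun i => (W i).length)
  have hge : k + 1 ≤ ∑ i, (W i).length := by
    calc k + 1 = ∑ _i : ZMod (k + 1), 1 := by simp
      _ ≤ _ := Finset.sum_le_sum fun i _ => List.length_pos_of_ne_nil (hne i)
  rw [← hlen]
  refine h.long _ ?_ (by omega) ?_ ?_
  · rw [List.nodup_flatten]
    refine ⟨?_, ?_⟩
    · intro l hl
      obtain ⟨t, _, rfl⟩ := List.mem_map.1 hl
      exact hnd _
    · rw [hLL, List.pairwise_map]
      refine List.Pairwise.imp_of_mem ?_ (List.nodup_range (n := k + 1))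
      intro s t hs ht hst v hv hv'
      refine hdis _ _ (fun e => hst ?_) v hv hv'
      have := congrArg ZMod.val e
      rwa [ZMod.val_cast_of_lt (List.mem_range.1 hs), ZMod.val_cast_of_lt (List.mem_range.1 ht)] at this
  · rw [List.isChain_flatten hnil]
    refine ⟨?_, ?_⟩
    · intro l hl
      obtain ⟨t, _, rfl⟩ := List.mem_map.1 hl
      exact hch _
    · rw [hLL, List.isChain_map, List.isChain_range_succ]
      intro t _ a ha b hb
      refine hlink t a ha b ?_
      simpa using hb
  · intro a ha b hb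
    have e1 : LL.flatten.head? = (W 0).head? := by
      rw [hLL, List.range_succ_eq_map, List.map_cons, List.flatten_cons,
        List.head?_append_of_ne_nil _ (hne _)]
      simp
    have e2 : LL.flatten.getLast? = (W (k : ZMod (k + 1))).getLast? := by
      rw [hLL, List.range_succ, List.map_append, List.flatten_append]
      simp only [List.map_cons, List.map_nil, List.flatten_cons, List.flatten_nil, List.append_nil]
      rw [List.getLast?_append_of_ne_nil _ (hne _)]
    rw [e1] at ha; rw [e2] at hb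
    refine hlink k b hb a ?_
    have : (k : ZMod (k + 1)) + 1 = 0 := by exact_mod_cast ZMod.natCast_self (k + 1)
    rwa [this]

/-- The graph left after deleting the cycle (cycle vertices become isolated). -/
def Out (G : SimpleGraph V) {n : ℕ} (f : ZMod n → V) : SimpleGraph V where
  Adj a b := G.Adj a b ∧ a ∉ Set.range f ∧ b ∉ Set.range f
  symm := ⟨fun _ _ h => ⟨h.1.symm, h.2.2, h.2.1⟩⟩
  loopless := ⟨fun a h => G.loopless.1 a h.1⟩

abbrev Comp (G : SimpleGraph V) {n : ℕ} (f : ZMod n → V) := (Out G f).ConnectedComponent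

variable {G : SimpleGraph V} {n : ℕ} {f : ZMod n → V}

def Mem (v : V) (K : Comp G f) : Prop :=
  (Out G f).connectedComponentMk v = K ∧ v ∉ Set.range f

def Att (x : ZMod n) (K : Comp G f) : Prop := ∃ v, Mem v K ∧ G.Adj (f x) v

def Link2 (K : Comp G f) (x y : ZMod n) : Prop :=
  ∃ v w, v ≠ w ∧ Mem v K ∧ Mem w K ∧ G.Adj (f x) v ∧ G.Adj (f y) w

theorem Mem.step {v w : V} {K : Comp G f} (h : Mem v K) (ha : G.Adj v w)
    (hw : w ∉ Set.range f) : Mem w K :=
  ⟨h.1 ▸ (ConnectedComponent.connectedComponentMk_eq_of_adj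
    (G := Out G f) ⟨ha.symm, hw, h.2⟩), hw⟩

theorem Mem.unique {v : V} {K K' : Comp G f} (h : Mem v K) (h' : Mem v K') : K = K' :=
  h.1.symm.trans h'.1

/-- A path inside `K` from `v` to `w`. -/
def Seg (K : Comp G f) (v w : V) (l : List V) : Prop :=
  l.Nodup ∧ l.IsChain G.Adj ∧ (∀ u ∈ l, Mem u K) ∧ l.head? = some v ∧ l.getLast? = some w

theorem seg_exists {K : Comp G f} {v w : V} (hv : Mem v K) (hw : Mem w K) :
    ∃ l, Seg K v w l := by
  classical
  have hr : (Out G f).Reachable v w := ConnectedComponent.exact (hv.1.trans hw.1.symm)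
  obtain ⟨p, hp⟩ := hr.exists_isPath
  refine ⟨p.support, hp.support_nodup, p.isChain_adj_support.imp (fun _ _ h => h.1), ?_, ?_, ?_⟩
  · clear hp hw
    induction p with
    | nil => intro u hu; simp at hu; exact hu ▸ hv
    | cons h q ih =>
      intro u hu
      rw [Walk.support_cons, List.mem_cons] at hu
      rcases hu with rfl | hu
      · exact hv
      · exact ih (hv.step h.1 h.2.2) q.reachable u hu
  · cases p <;> simp
  · rw [List.getLast?_eq_some_getLast p.support_ne_nil, Walk.getLast_support]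

theorem Seg.ne_nil {K : Comp G f} {v w : V} {l : List V} (h : Seg K v w l) : l ≠ [] := by
  rintro rfl; simpa using h.2.2.2.1

theorem Seg.two_le {K : Comp G f} {v w : V} {l : List V} (h : Seg K v w l) (hvw : v ≠ w) :
    2 ≤ l.length := by
  obtain ⟨-, -, -, h1, h2⟩ := h
  match l, h1, h2 with
  | [], h1, _ => simp at h1
  | [a], h1, h2 => simp at h1 h2; exact absurd (h1.symm.trans h2) hvw
  | _ :: _ :: _, _, _ => simp

end Pool.Agent.MP_ee574f_co
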