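import Mathlib

set_option autoImplicit false

namespace Pool.Agent.MP_ee574f_co

namespace Lolli

variable {V : Type}

/-- rotation of a path at the vertex `w` -/
def rot [DecidableEq V] (w : V) (P : List V) : List V :=
  (P.takeWhile (fun u => decide (u ≠ w))).reverse ++ P.dropWhile (fun u => decide (u ≠ w))

theorem rot_eq [DecidableEq V] (w : V) (A B : List V) (hA : w ∉ A) :
    rot w (A ++ w :: B) = A.reverse ++ w :: B := by
  have h1 : ∀ u ∈ A, (fun u => decide (u ≠ w)) u = true := by
    intro u hu
    simp only [decide_eq_true_eq]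
    rintro rfl
    exact hA hu
  unfold rot
  rw [List.takeWhile_append_of_pos h1, List.dropWhile_append_of_pos h1]
  simp

/-- the exchange involution -/
def tau [DecidableEq V] : List V × Option V → List V × Option V
  | (P, some w) => if w ∈ P then (rot w P, some w) else (w :: P, none)
  | (P, none) => (P.tail, P.head?)

/-- valid moves -/
def Mv (H : SimpleGraph V) (x : V) (rt : V → Prop) : List V → Option V → Prop
  | z :: p :: _, some w => H.Adj z w ∧ w ≠ p ∧ w ≠ x
  | z :: _ :: _, none => rt z
  | _, _ => False

/-- the head is adjacent to `x` -/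
def Cl (H : SimpleGraph V) (x : V) : List V → Prop
  | z :: _ => H.Adj z x
  | [] => False

structure Sys [Fintype V] [DecidableEq V] (H : SimpleGraph V) [DecidableRel H.Adj] (x : V)
    (rt : V → Prop) (Good : List V → Prop) : Prop where
  nodup : ∀ P, Good P → P.Nodup
  chain : ∀ P, Good P → P.IsChain H.Adj
  shape : ∀ P, Good P → ∃ z p R, P = z :: p :: R ∧ x ∈ R
  last : ∀ A w, Good (A ++ [w]) → w = x
  ext : ∀ z R w, Good (z :: R) → H.Adj z w → w ∉ z :: R → Good (w :: z :: R) ∧ rt w
  retr : ∀ z R, Good (z :: R) → rt z → Good R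
  rota : ∀ z p A w B, Good (z :: p :: A ++ w :: B) → B ≠ [] → H.Adj z w →
    Good ((z :: p :: A).reverse ++ w :: B)
  par : ∀ z R, Good (z :: R) → (Odd (H.degree z) ↔ ¬ rt z)

section
variable [Fintype V] [DecidableEq V] {H : SimpleGraph V} [DecidableRel H.Adj] {x : V}
    {rt : V → Prop} {Good : List V → Prop}

theorem tau_spec (S : Sys H x rt Good) (P : List V) (m : Option V) (hP : Good P)
    (hm : Mv H x rt P m) :
    Good (tau (P, m)).1 ∧ Mv H x rt (tau (P, m)).1 (tau (P, m)).2 ∧ tau (P, m) ≠ (P, m) ∧
      tau (tau (P, m)) = (P, m) := by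
  obtain ⟨z, p, R, rfl, hx⟩ := S.shape P hP
  have hnd := S.nodup _ hP
  have hch := S.chain _ hP
  cases m with
  | none =>
    have hrt : rt z := hm
    have hG : Good (p :: R) := S.retr z _ hP hrt
    have hz : z ∉ p :: R := (List.nodup_cons.mp hnd).1
    have hzp : H.Adj z p := by
      rw [List.isChain_cons_cons] at hch
      exact hch.1
    have e : tau (z :: p :: R, none) = (p :: R, some z) := rfl
    rw [e]
    refine ⟨hG, ?_, by simp, ?_⟩
    · obtain ⟨q, R', rfl⟩ := List.exists_cons_of_ne_nil (List.ne_nil_of_mem hx)
      refine ⟨hzp.symm, ?_, ?_⟩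
      · rintro rfl
        exact hz (by simp)
      · rintro rfl
        exact hz (List.mem_cons_of_mem _ hx)
    · show (if z ∈ p :: R then (rot z (p :: R), some z) else (z :: p :: R, none)) = _
      rw [if_neg hz]
  | some w =>
    obtain ⟨hzw, hwp, hwx⟩ : H.Adj z w ∧ w ≠ p ∧ w ≠ x := hm
    by_cases hw : w ∈ z :: p :: R
    · have hwR : w ∈ R := by
        rcases List.mem_cons.mp hw with h | h
        · exact absurd h.symm hzw.ne
        · rcases List.mem_cons.mp h with h | h
          · exact absurd h hwp
          · exact h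
      obtain ⟨A, B, rfl⟩ := List.append_of_mem hwR
      have hB : B ≠ [] := by
        rintro rfl
        exact hwx (S.last (z :: p :: A) w hP)
      have hwA : w ∉ z :: p :: A := by
        intro h
        have h2 : ((z :: p :: A) ++ w :: B).Nodup := hnd
        rw [List.nodup_append] at h2
        exact h2.2.2 w h w (by simp) rfl
      have hr : rot w (z :: p :: (A ++ w :: B)) = (z :: p :: A).reverse ++ w :: B :=
        rot_eq w (z :: p :: A) B hwA
      have e : tau (z :: p :: (A ++ w :: B), some w) =
          ((z :: p :: A).reverse ++ w :: B, some w) := by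
        show (if w ∈ z :: p :: (A ++ w :: B) then (rot w (z :: p :: (A ++ w :: B)), some w)
          else (w :: z :: p :: (A ++ w :: B), none)) = _
        rw [if_pos hw, hr]
      rw [e]
      have hG : Good ((z :: p :: A).reverse ++ w :: B) := S.rota z p A w B hP hB hzw
      -- shape of the reversed initial segment
      obtain ⟨z', p', A', hA'⟩ : ∃ z' p' A', (z :: p :: A).reverse = z' :: p' :: A' := by
        have hl : 2 ≤ (z :: p :: A).reverse.length := by simp
        generalize (z :: p :: A).reverse = L at hl
        match L, hl with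
        | a :: b :: c, _ => exact ⟨a, b, c, rfl⟩
      have hA'' : z :: p :: A = (z' :: p' :: A').reverse := by
        rw [← hA', List.reverse_reverse]
      have hz'w : H.Adj z' w := by
        have h2 : ((z :: p :: A) ++ w :: B).IsChain H.Adj := hch
        rw [hA''] at h2
        have h3 : (z' :: p' :: A').reverse ++ w :: B = (p' :: A').reverse ++ z' :: w :: B := by
          simp
        rw [h3, List.isChain_append_cons_cons] at h2
        exact h2.2.1
      have hp'w : w ≠ p' := by
        rintro rfl
        apply hwA
        rw [hA'']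
        simp
      have hzz' : z' ≠ z := by
        rintro rfl
        have h2 : ((z' :: p :: A) ++ w :: B).Nodup := hnd
        have h3 : (z' :: p :: A).Nodup := (List.nodup_append.mp h2).1
        have h4 : z' ∉ p :: A := (List.nodup_cons.mp h3).1
        have h5 : (z' :: p :: A).reverse = (p :: A).reverse ++ [z'] := by simp
        rw [h5] at hA'
        have h6 : (p :: A).reverse ≠ [] := by simp
        obtain ⟨c, C, hC⟩ := List.exists_cons_of_ne_nil h6
        rw [hC] at hA'
        have h7 : c = z' := by
          simp only [List.cons_append, List.cons.injEq] at hA'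
          exact hA'.1
        apply h4
        rw [← List.mem_reverse, hC, h7]
        simp
      refine ⟨hG, ?_, ?_, ?_⟩
      · rw [hA']
        exact ⟨hz'w, hp'w, hwx⟩
      · rw [hA']
        intro h
        simp only [List.cons_append, Prod.mk.injEq, List.cons.injEq] at h
        exact hzz' h.1.1
      · have hw2 : w ∈ (z :: p :: A).reverse ++ w :: B := by simp
        show (if w ∈ (z :: p :: A).reverse ++ w :: B then
          (rot w ((z :: p :: A).reverse ++ w :: B), some w)
          else (w :: ((z :: p :: A).reverse ++ w :: B), none)) = _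
        rw [if_pos hw2, rot_eq w _ B (by rwa [List.mem_reverse]), List.reverse_reverse]
        rfl
    · obtain ⟨hG, hrt⟩ := S.ext z (p :: R) w hP hzw hw
      have e : tau (z :: p :: R, some w) = (w :: z :: p :: R, none) := by
        show (if w ∈ z :: p :: R then (rot w (z :: p :: R), some w)
          else (w :: z :: p :: R, none)) = _
        rw [if_neg hw]
      rw [e]
      exact ⟨hG, hrt, by simp, rfl⟩

open Classical in
theorem moves_parity (S : Sys H x rt Good) (P : List V) (hP : Good P) :
    (∑ m : Option V, if Mv H x rt P m then (1 : ZMod 2) else 0) =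
      if Cl H x P then 1 else 0 := by
  obtain ⟨z, p, R, rfl, hx⟩ := S.shape P hP
  have hnd := S.nodup _ hP
  have hch := S.chain _ hP
  have hzp : H.Adj z p := by
    rw [List.isChain_cons_cons] at hch
    exact hch.1
  have hpx : p ≠ x := by
    rintro rfl
    exact (List.nodup_cons.mp (List.nodup_cons.mp hnd).2).1 hx
  rw [Fintype.sum_option]
  have h1 : ∀ w : V, (if Mv H x rt (z :: p :: R) (some w) then (1 : ZMod 2) else 0) =
      (if H.Adj z w then (1 : ZMod 2) else 0) + (if w = p then 1 else 0) +
        (if w = x then (if H.Adj z x then 1 else 0) else 0) := by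
    intro w
    have e : Mv H x rt (z :: p :: R) (some w) ↔ (H.Adj z w ∧ w ≠ p ∧ w ≠ x) := Iff.rfl
    by_cases hwp : w = p
    · subst hwp
      rw [if_neg (by rw [e]; simp), if_pos hzp, if_pos rfl, if_neg hpx]
      decide
    · by_cases hwx : w = x
      · subst hwx
        rw [if_neg (by rw [e]; simp), if_neg hwp, if_pos rfl]
        split_ifs <;> decide
      · rw [if_neg hwp, if_neg hwx]
        by_cases ha : H.Adj z w
        · rw [if_pos (e.mpr ⟨ha, hwp, hwx⟩), if_pos ha]
          simp
        · rw [if_neg (fun h => ha (e.mp h).1), if_neg ha]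
          simp
  simp only [h1, Finset.sum_add_distrib, Finset.sum_ite_eq', Finset.mem_univ, if_true]
  have h2 : (∑ w : V, if H.Adj z w then (1 : ZMod 2) else 0) = (H.degree z : ZMod 2) := by
    rw [Finset.sum_boole, ← SimpleGraph.card_neighborFinset_eq_degree,
      SimpleGraph.neighborFinset_eq_filter]
  rw [h2]
  have e1 : Mv H x rt (z :: p :: R) none ↔ rt z := Iff.rfl
  have e2 : Cl H x (z :: p :: R) ↔ H.Adj z x := Iff.rfl
  have hpar := S.par z _ hP
  have h3 : (if Cl H x (z :: p :: R) then (1 : ZMod 2) else 0) =
      if H.Adj z x then 1 else 0 := by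
    by_cases h : H.Adj z x
    · rw [if_pos (e2.mpr h), if_pos h]
    · rw [if_neg (fun h' => h (e2.mp h')), if_neg h]
  rw [h3]
  by_cases hr : rt z
  · have he : Even (H.degree z) := by
      rw [← Nat.not_odd_iff_even, hpar]
      exact not_not.mpr hr
    rw [if_pos (e1.mpr hr), (ZMod.natCast_eq_zero_iff_even).mpr he]
    split_ifs <;> decide
  · have ho : Odd (H.degree z) := hpar.mpr hr
    rw [if_neg (fun h => hr (e1.mp h)), (ZMod.natCast_eq_one_iff_odd).mpr ho]
    split_ifs <;> decide

/-- The lollipop lemma: a second good path that closes up. -/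
theorem lollipop (S : Sys H x rt Good) (P0 : List V) (h0 : Good P0) (hc : Cl H x P0) :
    ∃ P, Good P ∧ Cl H x P ∧ P ≠ P0 := by
  classical
  by_contra hcon
  push Not at hcon
  let T : Finset (List V) :=
    ((Finset.univ : Finset {l : List V // l.Nodup}).image Subtype.val).filter Good
  have hT : ∀ P, P ∈ T ↔ Good P := by
    intro P
    simp only [T, Finset.mem_filter, Finset.mem_image, Finset.mem_univ, true_and]
    constructor
    · exact fun h => h.2
    · exact fun h => ⟨⟨⟨P, S.nodup P h⟩, rfl⟩, h⟩
  let U : Finset (List V × Option V) :=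
    (T ×ˢ Finset.univ).filter (fun q => Mv H x rt q.1 q.2)
  have hU : ∀ q, q ∈ U ↔ Good q.1 ∧ Mv H x rt q.1 q.2 := by
    intro q
    simp only [U, Finset.mem_filter, Finset.mem_product, Finset.mem_univ, and_true, hT]
  have h1 : ∑ _q ∈ U, (1 : ZMod 2) = 0 := by
    apply Finset.sum_involution (fun q _ => tau q)
    · intro _ _
      decide
    · intro q hq _
      exact (tau_spec S q.1 q.2 ((hU q).mp hq).1 ((hU q).mp hq).2).2.2.1
    · intro q hq
      exact (tau_spec S q.1 q.2 ((hU q).mp hq).1 ((hU q).mp hq).2).2.2.2
    · intro q hq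
      have := tau_spec S q.1 q.2 ((hU q).mp hq).1 ((hU q).mp hq).2
      exact (hU _).mpr ⟨this.1, this.2.1⟩
  have h2 : ∑ _q ∈ U, (1 : ZMod 2) = ∑ P ∈ T, if Cl H x P then (1 : ZMod 2) else 0 := by
    simp only [U]
    rw [Finset.sum_filter, Finset.sum_product]
    apply Finset.sum_congr rfl
    intro P hP
    have := moves_parity S P ((hT P).mp hP)
    convert this
  have h3 : ∑ P ∈ T, (if Cl H x P then (1 : ZMod 2) else 0) = 1 := by
    rw [Finset.sum_eq_single P0]
    · rw [if_pos hc]
    · intro P hP hne
      rw [if_neg]
      exact fun h => hne (hcon P ((hT P).mp hP) h)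
    · intro h
      exact absurd ((hT P0).mpr h0) h
  rw [h2, h3] at h1
  exact absurd h1 (by decide)

end

end Lolli

end Pool.Agent.MP_ee574f_co
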