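import Mathlib
import Pool.Agent.MP_ee574f_co.Lolli0

set_option autoImplicit false

namespace Pool.Agent.MP_ee574f_co

namespace Lolli

variable {V : Type}

/-- the base cycle written as a list whose last entries are `f 1, f 0` -/
def base (n : ℕ) (f : ZMod n → V) : List V :=
  ((List.range n).map (fun t : ℕ => f (t : ZMod n))).reverse

theorem cast_inj {n s t : ℕ} (hs : s < n) (ht : t < n) (h : (s : ZMod n) = (t : ZMod n)) :
    s = t := by
  have := (ZMod.natCast_eq_natCast_iff' s t n).mp h
  rwa [Nat.mod_eq_of_lt hs, Nat.mod_eq_of_lt ht] at this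

theorem uniq {n : ℕ} (hn : 3 ≤ n) (f : ZMod n → V) (hf : Function.Injective f) (m : ℕ)
    (hm : 3 ≤ m) (q : ℕ → V) (hq : ∀ s t, s < m → t < m → q s = q t → s = t)
    (h0 : q 0 = f 0) (h1 : q 1 = f 1)
    (he : ∀ t, t + 1 < m → ∃ j, s(q t, q (t + 1)) = s(f j, f (j + 1)))
    (hc : ∃ j, s(q (m - 1), q 0) = s(f j, f (j + 1))) :
    m = n ∧ ∀ t, t < m → q t = f (t : ZMod n) := by
  have key : ∀ t, t + 1 < m → q t = f (t : ZMod n) ∧ q (t + 1) = f ((t + 1 : ℕ) : ZMod n) := by
    intro t
    induction t with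
    | zero => intro _; exact ⟨by simpa using h0, by simpa using h1⟩
    | succ t ih =>
      intro ht
      obtain ⟨i1, i2⟩ := ih (by omega)
      refine ⟨i2, ?_⟩
      obtain ⟨j, hj⟩ := he (t + 1) ht
      rcases Sym2.eq_iff.mp hj with ⟨a, b⟩ | ⟨a, b⟩
      · rw [i2] at a
        have := hf a
        rw [b, ← this]
        push_cast
        rfl
      · rw [i2] at a
        have h3 := hf a
        push_cast at h3
        have h4 : j = (t : ZMod n) := (add_right_cancel h3).symm
        rw [h4, ← i1] at b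
        have := hq _ _ ht (by omega) b
        omega
  have all : ∀ t, t < m → q t = f (t : ZMod n) := by
    intro t ht
    rcases t with _ | t
    · simpa using h0
    · exact (key t ht).2
  refine ⟨?_, all⟩
  have hmn : m ≤ n := by
    by_contra hlt
    have h3 := all n (by omega)
    rw [ZMod.natCast_self, ← h0] at h3
    have := hq _ _ (by omega) (by omega) h3
    omega
  obtain ⟨j, hj⟩ := hc
  rw [all (m - 1) (by omega), h0] at hj
  obtain ⟨k, rfl⟩ : ∃ k, m = k + 1 := ⟨m - 1, by omega⟩
  rw [Nat.add_sub_cancel] at hj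
  rcases Sym2.eq_iff.mp hj with ⟨a, b⟩ | ⟨a, b⟩
  · have h3 := hf a
    have h4 := hf b
    rw [← h3] at h4
    by_contra hne
    have h5 : ((k + 1 : ℕ) : ZMod n) = ((0 : ℕ) : ZMod n) := by
      push_cast
      exact h4.symm
    have := cast_inj (by omega) (by omega) h5
    omega
  · have h3 := hf a
    have h4 := hf b
    rw [← h4] at h3
    have h5 : ((k : ℕ) : ZMod n) = ((1 : ℕ) : ZMod n) := by
      push_cast
      simpa using h3
    have := cast_inj (by omega) (by omega) h5
    omega

theorem base_length (n : ℕ) (f : ZMod n → V) : (base n f).length = n := by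
  simp [base]

theorem base_nodup {n : ℕ} (f : ZMod n → V) (hf : Function.Injective f) : (base n f).Nodup := by
  unfold base
  rw [List.nodup_reverse]
  apply List.Nodup.map_on _ List.nodup_range
  intro s hs t ht h
  exact cast_inj (List.mem_range.mp hs) (List.mem_range.mp ht) (hf h)

theorem base_mem {n : ℕ} (hn : 3 ≤ n) (f : ZMod n → V) (i : ZMod n) : f i ∈ base n f := by
  have : NeZero n := ⟨by omega⟩
  unfold base
  rw [List.mem_reverse, List.mem_map]
  exact ⟨i.val, List.mem_range.mpr (ZMod.val_lt i), by simp⟩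

theorem base_split {n : ℕ} (f : ZMod n → V) (t : ℕ) (ht : t + 1 < n) :
    [f ((t : ZMod n) + 1), f (t : ZMod n)] <:+: base n f := by
  obtain ⟨k, hk⟩ : ∃ k, n = t + (2 + k) := ⟨n - t - 2, by omega⟩
  have h : List.range n = List.range t ++ [t, t + 1] ++
      (List.range k).map (fun s => t + (2 + s)) := by
    conv_lhs => rw [hk, List.range_add, List.range_add]
    simp [List.range_succ, Function.comp_def]
  unfold base
  rw [h]
  refine ⟨(((List.range k).map (fun s => t + (2 + s))).map
    (fun t : ℕ => f (t : ZMod n))).reverse,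
    ((List.range t).map (fun t : ℕ => f (t : ZMod n))).reverse, ?_⟩
  simp

theorem base_suffix {n : ℕ} (hn : 3 ≤ n) (f : ZMod n → V) : [f 1, f 0] <:+ base n f := by
  obtain ⟨k, hk⟩ : ∃ k, n = 2 + k := ⟨n - 2, by omega⟩
  have h : List.range n = [0, 1] ++ (List.range k).map (fun s => 2 + s) := by
    conv_lhs => rw [hk, List.range_add]
    simp [List.range_succ]
  unfold base
  rw [h]
  refine ⟨(((List.range k).map (fun s => 2 + s)).map
    (fun t : ℕ => f (t : ZMod n))).reverse, ?_⟩
  simp

theorem base_head {n : ℕ} (hn : 3 ≤ n) (f : ZMod n → V) :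
    ∃ R, base n f = f (-1) :: R := by
  obtain ⟨k, hk⟩ : ∃ k, n = k + 1 := ⟨n - 1, by omega⟩
  have h : List.range n = List.range k ++ [k] := by
    conv_lhs => rw [hk, List.range_succ]
  have h2 : (k : ZMod n) = -1 := by
    have h3 : ((k + 1 : ℕ) : ZMod n) = 0 := by rw [← hk]; exact ZMod.natCast_self n
    push_cast at h3
    exact eq_neg_of_add_eq_zero_left h3
  unfold base
  rw [h]
  refine ⟨((List.range k).map (fun t : ℕ => f (t : ZMod n))).reverse, ?_⟩
  simp [h2]

theorem base_chain {n : ℕ} (H : SimpleGraph V) (f : ZMod n → V)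
    (hadj : ∀ i, H.Adj (f i) (f (i + 1))) : (base n f).IsChain H.Adj := by
  unfold base
  rw [List.isChain_reverse, List.isChain_iff_getElem]
  intro i hi
  simp only [List.getElem_map, List.getElem_range]
  push_cast
  exact (hadj _).symm

/-- from a closing path to a cyclic parametrisation with a new edge -/
theorem to_cycle {n : ℕ} (hn : 3 ≤ n) (H : SimpleGraph V) (f : ZMod n → V)
    (hf : Function.Injective f) (P : List V) (hnd : P.Nodup) (hch : P.IsChain H.Adj)
    (hsuf : [f 1, f 0] <:+ P) (hcl : Cl H (f 0) P) (hne : P ≠ base n f) (m : ℕ)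
    (hm : 3 ≤ m) (hP : P.length = m) :
    ∃ g : ZMod m → V, Function.Injective g ∧ g 0 = f 0 ∧ g 1 = f 1 ∧
      (∀ i, H.Adj (g i) (g (i + 1))) ∧ (∀ v ∈ P, v ∈ Set.range g) ∧
      ∃ i, ∀ j, s(g i, g (i + 1)) ≠ s(f j, f (j + 1)) := by
  have : NeZero m := ⟨by omega⟩
  have : Fact (1 < m) := ⟨by omega⟩
  obtain ⟨Q, rfl⟩ : ∃ Q : List V, P = Q.reverse := ⟨P.reverse, by simp⟩
  rw [List.length_reverse] at hP
  rw [List.nodup_reverse] at hnd
  rw [List.isChain_reverse, List.isChain_iff_getElem] at hch
  let q : ℕ → V := fun t => Q.getD t (f 0)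
  have hqd : ∀ t (ht : t < Q.length), q t = Q[t] := fun t ht => List.getD_eq_getElem _ _ ht
  have hq : ∀ s t, s < m → t < m → q s = q t → s = t := by
    intro s t hs ht h
    rw [hqd s (by omega), hqd t (by omega)] at h
    exact (hnd.getElem_inj_iff).mp h
  have hpre : [f 0, f 1] <+: Q := by
    rw [← List.reverse_suffix]
    simpa using hsuf
  have h0 : q 0 = f 0 := by
    obtain ⟨R, rfl⟩ := hpre
    simp [q]
  have h1 : q 1 = f 1 := by
    obtain ⟨R, rfl⟩ := hpre
    simp [q]
  have hstep : ∀ t, t + 1 < m → H.Adj (q t) (q (t + 1)) := by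
    intro t ht
    rw [hqd t (by omega), hqd (t + 1) (by omega)]
    exact (hch t (by omega)).symm
  have hclose : H.Adj (q (m - 1)) (q 0) := by
    rw [h0]
    rcases List.eq_nil_or_concat Q with h | ⟨L, z, h⟩
    · rw [h] at hP
      simp at hP
      omega
    · have h2 : Q.reverse = z :: L.reverse := by rw [h]; simp
      rw [h2] at hcl
      have h3 : q (m - 1) = z := by
        have h4 : m - 1 = L.length := by
          rw [← hP, h]
          simp
        rw [h4]
        simp [q, h]
      rw [h3]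
      exact hcl
  have hval : ∀ i : ZMod m, (i.val + 1 < m ∧ (i + 1).val = i.val + 1) ∨
      (i.val = m - 1 ∧ (i + 1).val = 0) := by
    intro i
    have hi := ZMod.val_lt i
    rw [ZMod.val_add, ZMod.val_one]
    by_cases h : i.val + 1 < m
    · exact Or.inl ⟨h, Nat.mod_eq_of_lt h⟩
    · have h2 : i.val + 1 = m := by omega
      exact Or.inr ⟨by omega, by rw [h2, Nat.mod_self]⟩
  refine ⟨fun i => q i.val, ?_, ?_, ?_, ?_, ?_, ?_⟩
  · intro i j h
    exact ZMod.val_injective m (hq _ _ (ZMod.val_lt i) (ZMod.val_lt j) h)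
  · show q (0 : ZMod m).val = _
    rw [ZMod.val_zero, h0]
  · show q (1 : ZMod m).val = _
    rw [ZMod.val_one, h1]
  · intro i
    show H.Adj (q i.val) (q (i + 1).val)
    rcases hval i with ⟨a, b⟩ | ⟨a, b⟩
    · rw [b]
      exact hstep _ a
    · rw [a, b]
      exact hclose
  · intro v hv
    rw [List.mem_reverse] at hv
    obtain ⟨t, ht, rfl⟩ := List.getElem_of_mem hv
    refine ⟨(t : ZMod m), ?_⟩
    show q (t : ZMod m).val = _
    rw [ZMod.val_cast_of_lt (by omega), hqd t ht]
  · by_contra hcon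
    push Not at hcon
    have he : ∀ t, t + 1 < m → ∃ j, s(q t, q (t + 1)) = s(f j, f (j + 1)) := by
      intro t ht
      obtain ⟨j, hj⟩ := hcon (t : ZMod m)
      refine ⟨j, ?_⟩
      have e1 : (t : ZMod m).val = t := ZMod.val_cast_of_lt (by omega)
      have e2 : ((t : ZMod m) + 1).val = t + 1 := by
        rcases hval (t : ZMod m) with ⟨_, b⟩ | ⟨a, _⟩
        · rw [b, e1]
        · omega
      rw [e1, e2] at hj
      exact hj
    have hc : ∃ j, s(q (m - 1), q 0) = s(f j, f (j + 1)) := by
      obtain ⟨j, hj⟩ := hcon ((m - 1 : ℕ) : ZMod m)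
      refine ⟨j, ?_⟩
      have e1 : ((m - 1 : ℕ) : ZMod m).val = m - 1 := ZMod.val_cast_of_lt (by omega)
      have e2 : (((m - 1 : ℕ) : ZMod m) + 1).val = 0 := by
        rcases hval ((m - 1 : ℕ) : ZMod m) with ⟨a, _⟩ | ⟨_, b⟩
        · omega
        · exact b
      rw [e1, e2] at hj
      exact hj
    obtain ⟨hmn, hall⟩ := uniq hn f hf m hm q hq h0 h1 he hc
    apply hne
    unfold base
    congr 1
    apply List.ext_getElem
    · simp [hP, hmn]
    · intro t h1 h2
      rw [← hqd t h1, hall t (by omega)]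
      simp

theorem suffix_of_rot {x y : V} (A B C : List V) (w : V) (hB : B ≠ [])
    (h : [y, x] <:+ A ++ w :: B) : [y, x] <:+ C ++ w :: B := by
  have h1 : [y, x] <:+ w :: B := by
    apply List.suffix_of_suffix_length_le h (List.suffix_append A (w :: B))
    have := List.length_pos_of_ne_nil hB
    simp only [List.length_cons, List.length_nil]
    omega
  exact h1.trans (List.suffix_append C (w :: B))

theorem chain_rot (H : SimpleGraph V) (z : V) (A : List V) (w : V) (B : List V)
    (h : (z :: A ++ w :: B).IsChain H.Adj) (hzw : H.Adj z w) :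
    ((z :: A).reverse ++ w :: B).IsChain H.Adj := by
  have e : (z :: A).reverse ++ w :: B = A.reverse ++ z :: w :: B := by simp
  rw [e, List.isChain_append_cons_cons]
  have h1 : (z :: A).IsChain H.Adj := (List.isChain_append.mp h).1
  have h2 : (w :: B).IsChain H.Adj := (List.isChain_append.mp h).2.1
  refine ⟨?_, hzw, h2⟩
  have e2 : A.reverse ++ [z] = (z :: A).reverse := by simp
  rw [e2, List.isChain_reverse]
  exact h1.imp (fun _ _ h => h.symm)

theorem nodup_rot (A C : List V) (h : (A ++ C).Nodup) : (A.reverse ++ C).Nodup :=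
  ((List.reverse_perm A).append_right C).nodup_iff.mpr h

theorem last_eq {x y : V} (A : List V) (w : V) (h : [y, x] <:+ A ++ [w]) : w = x := by
  obtain ⟨C, hC⟩ := h
  have := congrArg List.getLast? hC
  simpa [List.getLast?_append] using this.symm

end Lolli

open Lolli in
theorem parity_cycle {α : Type} [Fintype α] [DecidableEq α] (H : SimpleGraph α)
    [DecidableRel H.Adj] (n : ℕ) (hn : 3 ≤ n) (f : ZMod n → α) (hf : Function.Injective f)
    (hadj : ∀ i, H.Adj (f i) (f (i + 1)))
    (hcov : ∀ v, Odd (H.degree v) → v ∈ Set.range f)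
    (hodd : ∃ v, Odd (H.degree v) ∧ v ≠ f 0 ∧ v ≠ f 1) :
    ∃ m : ℕ, 3 ≤ m ∧ ∃ g : ZMod m → α, Function.Injective g ∧
      (∀ i, H.Adj (g i) (g (i + 1))) ∧ (∀ v, Odd (H.degree v) → v ∈ Set.range g) ∧
      ∃ i, ∀ j, s(g i, g (i + 1)) ≠ s(f j, f (j + 1)) := by
  let Good : List α → Prop := fun P => P.Nodup ∧ P.IsChain H.Adj ∧ [f 1, f 0] <:+ P ∧
    ∀ v, Odd (H.degree v) → v ∈ P
  have hshape : ∀ P, Good P → ∃ z C, P = z :: (C ++ [f 1, f 0]) := by
    rintro P ⟨_, _, ⟨C, rfl⟩, h4⟩
    obtain ⟨v, hv, hv0, hv1⟩ := hodd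
    have := h4 v hv
    rcases C with _ | ⟨z, C⟩
    · simp [hv0, hv1] at this
    · exact ⟨z, C, rfl⟩
  have S : Sys H (f 0) (fun z => Even (H.degree z)) Good :=
    { nodup := fun P h => h.1
      chain := fun P h => h.2.1
      shape := by
        intro P h
        obtain ⟨z, C, rfl⟩ := hshape P h
        rcases C with _ | ⟨p, C⟩
        · exact ⟨z, f 1, [f 0], rfl, by simp⟩
        · exact ⟨z, p, C ++ [f 1, f 0], rfl, by simp⟩
      last := fun A w h => last_eq A w h.2.2.1
      ext := by
        intro z R w h hzw hw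
        refine ⟨⟨List.nodup_cons.mpr ⟨hw, h.1⟩, ?_, ?_, ?_⟩, ?_⟩
        · exact List.isChain_cons_cons.mpr ⟨hzw.symm, h.2.1⟩
        · exact h.2.2.1.trans (List.suffix_cons _ _)
        · exact fun v hv => List.mem_cons_of_mem _ (h.2.2.2 v hv)
        · rw [← Nat.not_odd_iff_even]
          exact fun ho => hw (h.2.2.2 w ho)
      retr := by
        intro z R h hz
        obtain ⟨z', C, hC⟩ := hshape _ h
        have hR : R = C ++ [f 1, f 0] := (List.cons.inj hC).2
        refine ⟨(List.nodup_cons.mp h.1).2, h.2.1.tail, ?_, ?_⟩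
        · rw [hR]
          exact List.suffix_append _ _
        · intro v hv
          rcases List.mem_cons.mp (h.2.2.2 v hv) with rfl | h'
          · exact absurd hz (Nat.not_even_iff_odd.mpr hv)
          · exact h'
      rota := by
        intro z p A w B h hB hzw
        refine ⟨nodup_rot _ _ h.1, chain_rot H z (p :: A) w B h.2.1 hzw,
          suffix_of_rot (z :: p :: A) B _ w hB h.2.2.1, ?_⟩
        intro v hv
        have := h.2.2.2 v hv
        rw [List.mem_append] at this ⊢
        rwa [List.mem_reverse]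
      par := fun z R _ => Nat.not_even_iff_odd.symm }
  have h0 : Good (base n f) := by
    refine ⟨base_nodup f hf, base_chain H f hadj, base_suffix hn f, ?_⟩
    intro v hv
    obtain ⟨i, rfl⟩ := hcov v hv
    exact base_mem hn f i
  have hc : Cl H (f 0) (base n f) := by
    obtain ⟨R, hR⟩ := base_head hn f
    rw [hR]
    have := hadj (-1)
    rw [neg_add_cancel] at this
    exact this
  obtain ⟨P, hP, hcl, hne⟩ := lollipop S _ h0 hc
  have hlen : 3 ≤ P.length := by
    obtain ⟨z, C, rfl⟩ := hshape P hP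
    simp
  obtain ⟨g, g1, _, _, g4, g5, g6⟩ :=
    to_cycle hn H f hf P hP.1 hP.2.1 hP.2.2.1 hcl hne P.length hlen rfl
  exact ⟨P.length, hlen, g, g1, g4, fun v hv => g5 v (hP.2.2.2 v hv), g6⟩

namespace Lolli

variable {V : Type}

/-- the graph of the Thomassen lemma -/
def TG (n : ℕ) (M : Finset (ZMod n)) (φ : ZMod n → ZMod n) : SimpleGraph (ZMod n) where
  Adj u v := u ≠ v ∧ (v = u + 1 ∨ v = u - 1 ∨ ((u + 1 ∈ M ∨ u - 1 ∈ M) ∧ v = φ u) ∨
    ((v + 1 ∈ M ∨ v - 1 ∈ M) ∧ u = φ v))
  symm := ⟨by
    rintro u v ⟨h, h1 | h1 | h1 | h1⟩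
    · exact ⟨h.symm, Or.inr (Or.inl (by rw [h1]; ring))⟩
    · exact ⟨h.symm, Or.inl (by rw [h1]; ring)⟩
    · exact ⟨h.symm, Or.inr (Or.inr (Or.inr h1))⟩
    · exact ⟨h.symm, Or.inr (Or.inr (Or.inl h1))⟩⟩
  loopless := ⟨fun u h => h.1 rfl⟩

theorem head_nb (z p : V) (R : List V) (u : V) (hnd : (z :: p :: R).Nodup)
    (h : [z, u] <:+: z :: p :: R ∨ [u, z] <:+: z :: p :: R) : u = p := by
  have hz : z ∉ p :: R := (List.nodup_cons.mp hnd).1
  rcases h with ⟨s, t, h⟩ | ⟨s, t, h⟩
  · rcases s with _ | ⟨c, s⟩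
    · simp only [List.nil_append, List.cons_append, List.cons.injEq] at h
      exact h.2.1
    · exfalso
      apply hz
      have h2 : s ++ [z, u] ++ t = p :: R := by
        simp only [List.cons_append, List.cons.injEq] at h
        exact h.2
      rw [← h2]
      simp
  · exfalso
    apply hz
    rcases s with _ | ⟨c, s⟩
    · simp only [List.nil_append, List.cons_append, List.cons.injEq] at h
      rw [h.2.1]
      simp
    · have h2 : s ++ [u, z] ++ t = p :: R := by
        simp only [List.cons_append, List.cons.injEq] at h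
        exact h.2
      rw [← h2]
      simp

theorem seg_rot (A B : List V) (w u v : V) (hv : v ≠ w) (h : [u, v] <:+: A ++ w :: B) :
    [u, v] <:+: A.reverse ++ w :: B ∨ [v, u] <:+: A.reverse ++ w :: B := by
  obtain ⟨s, t, h⟩ := h
  rw [List.append_assoc] at h
  rcases List.append_eq_append_iff.mp h with ⟨c, h1, h2⟩ | ⟨c, h1, h2⟩
  · rcases c with _ | ⟨c1, c⟩
    · left
      refine ⟨A.reverse, t, ?_⟩
      rw [List.append_assoc, h2]
      simp
    · rcases c with _ | ⟨c2, c⟩
      · exfalso
        simp only [List.cons_append, List.nil_append, List.cons.injEq] at h2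
        exact hv h2.2.1
      · right
        simp only [List.cons_append, List.nil_append, List.cons.injEq] at h2
        obtain ⟨rfl, rfl, _⟩ := h2
        refine ⟨c.reverse, s.reverse ++ w :: B, ?_⟩
        rw [h1]
        simp
  · left
    refine ⟨A.reverse ++ c, t, ?_⟩
    rw [h2]
    simp

end Lolli

open Lolli in
theorem thomassen (n : ℕ) (hn : 3 ≤ n) (M : Finset (ZMod n)) (φ : ZMod n → ZMod n)
    (a : ZMod n) (ha : a ∈ M) (hind : ∀ i ∈ M, i + 1 ∉ M)
    (hφ : ∀ i, (i + 1 ∈ M ∨ i - 1 ∈ M) → φ i ∈ M ∧ φ i ≠ i + 1 ∧ φ i ≠ i - 1) :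
    ∃ g : ZMod n → ZMod n, Function.Injective g ∧ g 0 = a ∧ g 1 = a + 1 ∧
      (∀ t, g (t + 1) = g t + 1 ∨ g (t + 1) = g t - 1 ∨
        ((g t + 1 ∈ M ∨ g t - 1 ∈ M) ∧ g (t + 1) = φ (g t)) ∨
        ((g (t + 1) + 1 ∈ M ∨ g (t + 1) - 1 ∈ M) ∧ g t = φ (g (t + 1)))) ∧
      ∃ t, g (t + 1) ≠ g t + 1 ∧ g (t + 1) ≠ g t - 1 := by
  classical
  have : NeZero n := ⟨by omega⟩
  let H := TG n M φ
  let f : ZMod n → ZMod n := fun t => a + t
  have hf : Function.Injective f := fun s t h => add_left_cancel h
  have h10 : (1 : ZMod n) ≠ 0 := by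
    intro h
    have := cast_inj (n := n) (s := 1) (t := 0) (by omega) (by omega) (by simpa using h)
    omega
  have h20 : (2 : ZMod n) ≠ 0 := by
    intro h
    have := cast_inj (n := n) (s := 2) (t := 0) (by omega) (by omega) (by simpa using h)
    omega
  have hs1 : ∀ u : ZMod n, u ≠ u + 1 := fun u h => h10 (by linear_combination -h)
  have hs2 : ∀ u : ZMod n, u ≠ u - 1 := fun u h => h10 (by linear_combination h)
  have hs3 : ∀ u : ZMod n, u + 1 ≠ u - 1 := fun u h => h20 (by linear_combination h)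
  have hN : ∀ i, (i + 1 ∈ M ∨ i - 1 ∈ M) → i ∉ M := by
    rintro i (h | h) hi
    · exact hind i hi h
    · exact hind _ h (by rwa [sub_add_cancel])
  have hMM : ∀ u v, H.Adj u v → v ∈ M → u ∉ M := by
    rintro u v ⟨_, h | h | h | h⟩ hv
    · exact hN u (Or.inl (h ▸ hv))
    · exact hN u (Or.inr (h ▸ hv))
    · exact hN u h.1
    · exact absurd hv (hN v h.1)
  have hadj : ∀ i, H.Adj (f i) (f (i + 1)) := by
    intro i
    have e : f (i + 1) = f i + 1 := (add_assoc a i 1).symm
    rw [e]
    exact ⟨hs1 _, Or.inl rfl⟩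
  let Good : List (ZMod n) → Prop := fun P => P.Nodup ∧ P.IsChain H.Adj ∧ [f 1, f 0] <:+ P ∧
    (∀ v, v ∈ P) ∧ (∀ z R, P = z :: R → z ∉ M) ∧
    ∀ i, i ∉ M → i + 1 ∉ M → ([i, i + 1] <:+: P ∨ [i + 1, i] <:+: P)
  have hlen : ∀ P, Good P → P.length = n := by
    intro P h
    rw [← List.toFinset_card_of_nodup h.1]
    have : P.toFinset = Finset.univ := by
      ext v
      simp [h.2.2.2.1 v]
    rw [this, Finset.card_univ, ZMod.card]
  have hshape : ∀ P, Good P → ∃ z p R, P = z :: p :: R ∧ f 0 ∈ R := by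
    intro P h
    have hl := hlen P h
    obtain ⟨C, rfl⟩ := h.2.2.1
    rcases C with _ | ⟨z, C⟩
    · simp at hl
      omega
    · rcases C with _ | ⟨p, C⟩
      · exact ⟨z, f 1, [f 0], rfl, by simp⟩
      · exact ⟨z, p, C ++ [f 1, f 0], rfl, by simp⟩
  have hup : ∀ z p R, Good (z :: p :: R) → z + 1 ∉ M → z + 1 = p := by
    intro z p R h hz
    exact head_nb z p R _ h.1 (h.2.2.2.2.2 z (h.2.2.2.2.1 z _ rfl) hz)
  have hdown : ∀ z p R, Good (z :: p :: R) → z - 1 ∉ M → z - 1 = p := by
    intro z p R h hz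
    have h2 := h.2.2.2.2.2 (z - 1) hz (by rw [sub_add_cancel]; exact h.2.2.2.2.1 z _ rfl)
    rw [sub_add_cancel] at h2
    exact head_nb z p R _ h.1 h2.symm
  have hNz : ∀ z p R, Good (z :: p :: R) → (z + 1 ∈ M ∨ z - 1 ∈ M) := by
    intro z p R h
    by_contra hc
    push Not at hc
    exact hs3 z ((hup z p R h hc.1).trans (hdown z p R h hc.2).symm)
  have hnb : ∀ z p R, Good (z :: p :: R) → ∀ w, H.Adj z w ↔ (w = z + 1 ∨ w = z - 1 ∨ w = φ z) := by
    intro z p R h w
    have hz : z ∉ M := h.2.2.2.2.1 z _ rfl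
    have hNz' := hNz z p R h
    constructor
    · rintro ⟨_, h1 | h1 | h1 | h1⟩
      · exact Or.inl h1
      · exact Or.inr (Or.inl h1)
      · exact Or.inr (Or.inr h1.2)
      · exact absurd (h1.2 ▸ (hφ w h1.1).1) hz
    · rintro (h1 | h1 | h1)
      · exact ⟨h1 ▸ hs1 z, Or.inl h1⟩
      · exact ⟨h1 ▸ hs2 z, Or.inr (Or.inl h1)⟩
      · refine ⟨?_, Or.inr (Or.inr (Or.inl ⟨hNz', h1⟩))⟩
        intro h2
        apply hz
        rw [h2, h1]
        exact (hφ z hNz').1
  have S : Sys H (f 0) (fun _ => False) Good :=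
    { nodup := fun P h => h.1
      chain := fun P h => h.2.1
      shape := hshape
      last := fun A w h => last_eq A w h.2.2.1
      ext := fun z R w h _ hw => absurd (h.2.2.2.1 w) hw
      retr := fun z R _ hz => hz.elim
      rota := by
        intro z p A w B h hB hzw
        have hwp : w ≠ p := by
          rintro rfl
          have h2 : (z :: w :: (A ++ w :: B)).Nodup := h.1
          exact (List.nodup_cons.mp (List.nodup_cons.mp h2).2).1 (by simp)
        have hwM : w ∈ M := by
          by_contra hw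
          rcases (hnb z p (A ++ w :: B) h w).mp hzw with h1 | h1 | h1
          · exact hwp (h1.trans (hup z p _ h (h1 ▸ hw)))
          · exact hwp (h1.trans (hdown z p _ h (h1 ▸ hw)))
          · exact hw (h1 ▸ (hφ z (hNz z p _ h)).1)
        refine ⟨nodup_rot _ _ h.1, chain_rot H z (p :: A) w B h.2.1 hzw,
          suffix_of_rot (z :: p :: A) B _ w hB h.2.2.1, ?_, ?_, ?_⟩
        · intro v
          have := h.2.2.2.1 v
          rw [List.mem_append] at this ⊢
          rwa [List.mem_reverse]
        · intro z' R hR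
          have hne : (z :: p :: A).reverse ≠ [] := by simp
          obtain ⟨c, C, hC⟩ := List.exists_cons_of_ne_nil hne
          rw [hC] at hR
          have hc : c = z' := (List.cons.inj hR).1
          have h3 : z :: p :: A = C.reverse ++ [c] := by
            rw [← List.reverse_reverse (z :: p :: A), hC]
            simp
          have h4 : (z :: p :: A ++ w :: B).IsChain H.Adj := h.2.1
          rw [h3, List.append_assoc, List.singleton_append,
            List.isChain_append_cons_cons] at h4
          rw [← hc]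
          exact hMM _ _ h4.2.1 hwM
        · intro i hi hi1
          rcases h.2.2.2.2.2 i hi hi1 with h1 | h1
          · exact seg_rot _ B w _ _ (fun e => hi1 (e ▸ hwM)) h1
          · exact (seg_rot _ B w (i + 1) i (fun e => hi (e ▸ hwM)) h1).symm
      par := by
        intro z R h
        obtain ⟨z', p, R', hR, _⟩ := hshape _ h
        obtain ⟨rfl, rfl⟩ := List.cons.inj hR
        have hφz := hφ z (hNz z p R' h)
        have e : H.neighborFinset z = {z + 1, z - 1, φ z} := by
          ext w
          rw [SimpleGraph.mem_neighborFinset, hnb z p R' h w]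
          simp
        have e2 : H.degree z = 3 := by
          rw [← SimpleGraph.card_neighborFinset_eq_degree, e, Finset.card_eq_three]
          exact ⟨_, _, _, hs3 z, hφz.2.1.symm, hφz.2.2.symm, rfl⟩
        rw [e2]
        simp only [not_false_eq_true, iff_true]
        decide }
  have h0 : Good (base n f) := by
    refine ⟨base_nodup f hf, base_chain H f hadj, base_suffix hn f, ?_, ?_, ?_⟩
    · intro v
      have := base_mem hn f (v - a)
      have e : f (v - a) = v := by simp [f]
      rwa [e] at this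
    · intro z R hR
      obtain ⟨R', hR'⟩ := base_head hn f
      rw [hR'] at hR
      rw [← (List.cons.inj hR).1]
      apply hN
      left
      have e : f (-1) + 1 = a := by simp [f]
      rwa [e]
    · intro i _ hi1
      right
      have hv := ZMod.val_lt (i - a)
      have hlt : (i - a).val + 1 < n := by
        by_contra hc
        have h2 : (i - a).val + 1 = n := by omega
        have h3 : (((i - a).val + 1 : ℕ) : ZMod n) = 0 := by
          rw [h2]
          exact ZMod.natCast_self n
        push_cast at h3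
        rw [ZMod.natCast_zmod_val] at h3
        apply hi1
        have : i + 1 = a := by linear_combination h3
        rwa [this]
      have := base_split f _ hlt
      rw [ZMod.natCast_zmod_val] at this
      have e1 : f (i - a + 1) = i + 1 := by simp only [f]; ring
      have e2 : f (i - a) = i := by simp [f]
      rwa [e1, e2] at this
  have hc : Cl H (f 0) (base n f) := by
    obtain ⟨R, hR⟩ := base_head hn f
    rw [hR]
    have := hadj (-1)
    rw [neg_add_cancel] at this
    exact this
  obtain ⟨P, hP, hcl, hne⟩ := lollipop S _ h0 hc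
  obtain ⟨g, g1, g2, g3, g4, _, i, g6⟩ :=
    to_cycle hn H f hf P hP.1 hP.2.1 hP.2.2.1 hcl hne n hn (hlen P hP)
  refine ⟨g, g1, by rw [g2]; simp [f], g3, fun t => (g4 t).2, i, ?_, ?_⟩
  · intro h
    apply g6 (g i - a)
    have e1 : f (g i - a + 1) = g i + 1 := by simp only [f]; ring
    have e2 : f (g i - a) = g i := by simp [f]
    rw [e1, e2, h]
  · intro h
    apply g6 (g i - 1 - a)
    have e1 : f (g i - 1 - a + 1) = g i := by simp only [f]; ring
    have e2 : f (g i - 1 - a) = g i - 1 := by simp [f]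
    rw [e1, e2, h, Sym2.eq_swap]

end Pool.Agent.MP_ee574f_co
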