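import Pool.Agent.MP_ee574f_co.Count2
import Pool.Agent.MP_ee574f_co.Lolli

set_option autoImplicit false

namespace Pool.Agent.MP_ee574f_co

open SimpleGraph Classical Finset

variable {V : Type} {G : SimpleGraph V} {n : ℕ} {f : ZMod n → V}

namespace Dat2

variable {P : Type} (D : Dat2 G f P)

theorem φ_ne (hL : Long G n f) {x : ZMod n} (h : D.gr x) : D.φ x ≠ x + 1 ∧ D.φ x ≠ x - 1 := by
  have h1 := D.grAtt x h
  have h2 : Att (D.φ x) (D.hs x) := D.rootAtt x h
  refine ⟨fun e => hL.not_att_succ h1 (e ▸ h2), fun e => ?_⟩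
  rw [e] at h2
  exact hL.not_att_succ h2 (by rwa [sub_add_cancel])

theorem no_closed (hL : Long G n f) (k : ℕ) :
    ∀ M : Finset (ZMod n), M.card = k → D.Closed (· ∈ M) → M = ∅ := by
  have := hL.neZero
  induction k using Nat.strong_induction_on with
  | _ k ih =>
  intro M hk hM
  by_contra hne
  obtain ⟨a, ha⟩ := nonempty_iff_ne_empty.2 hne
  have hgr : ∀ i, (i + 1 ∈ M ∨ i - 1 ∈ M) → D.gr i ∧ D.φ i ∈ M := by
    rintro i (h | h)
    · exact (hM _ h).2 i (Or.inr (by ring))
    · exact (hM _ h).2 i (Or.inl (by ring))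
  obtain ⟨g0, ginj, g00, g01, gstep, t, ht⟩ := thomassen n hL.hn M D.φ a ha
    (fun i hi h => D.grA _ ((hM i hi).2 _ (Or.inl rfl)).1 (hM _ h).1)
    (fun i hi => ⟨(hgr i hi).2, D.φ_ne hL (hgr i hi).1⟩)
  let g : ZMod n → ZMod n ⊕ P := fun i => .inl (g0 i)
  have ginj' : Function.Injective g := fun i j e => ginj (Sum.inl.inj e)
  have gadj : ∀ i, D.SAdj (g i) (g (i + 1)) := by
    intro i
    rcases gstep i with h | h | h | h
    · exact Or.inl h
    · exact Or.inr (Or.inl (by rw [h]; ring))
    · exact Or.inr (Or.inr (Or.inl ⟨(hgr _ h.1).1, h.2⟩))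
    · exact Or.inr (Or.inr (Or.inr ⟨(hgr _ h.1).1, h.2⟩))
  have gcov : ∀ x, ¬ D.A x → ∃ i, g i = .inl x := fun x _ => by
    obtain ⟨i, hi⟩ := Finite.injective_iff_surjective.1 ginj x
    exact ⟨i, by simp [g, hi]⟩
  have hcl := D.closed_DD hL hL.hn ginj' gadj gcov
  obtain ⟨b0, hb0⟩ := D.exists_DD hL hL.hn ginj' gadj gcov t (by
    rintro ⟨u, v, e1, e2, h⟩
    cases e1; cases e2
    rcases h with h | h
    · exact ht.1 h
    · exact ht.2 (by rw [h]; ring))
  have hsub : ∀ b, D.DD g b → b ∈ M.erase a := by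
    intro b hb
    have hA := D.DD_A g hb
    obtain ⟨i, hi, hd⟩ := hb
    have o := hd.own.2
    rw [hi, own_inl] at o
    obtain ⟨y, e, gy, ey⟩ := o
    have e1 : g0 i = b := Sum.inl.inj hi
    have e2 : g0 (i + 1) = y := Sum.inl.inj e
    have hn := D.φ_ne hL gy
    rw [ey] at hn
    have hs := gstep i
    rw [e1, e2] at hs
    rw [mem_erase]
    refine ⟨fun hba => ?_, ?_⟩
    · have : i = 0 := ginj (by rw [e1, g00, hba])
      subst this
      rw [zero_add, g01, ← hba] at e2
      exact hn.2 (by rw [← e2]; ring)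
    · rcases hs with h | h | h | h
      · exact absurd (by rw [h]; ring) hn.2
      · exact absurd (by rw [h]; ring) hn.1
      · exact absurd hA (D.grA _ (hgr _ h.1).1)
      · rw [h.2]; exact (hgr _ h.1).2
  have hlt : (univ.filter (D.DD g)).card < k := by
    calc _ ≤ (M.erase a).card := card_le_card fun b hb => hsub b (mem_filter.1 hb).2
      _ < k := hk ▸ card_erase_lt_of_mem ha
  have := ih _ hlt _ rfl (by simpa using hcl)
  have h0 : b0 ∈ univ.filter (D.DD g) := mem_filter.2 ⟨mem_univ _, hb0⟩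
  rw [this] at h0
  simp at h0

theorem core [Fintype P] [NeZero n] (hL : Long G n f) (hn : ∃ x, ¬ D.A x ∧ x ≠ 0 ∧ x ≠ 1)
    (hJ1 : ∀ K, Even (univ.filter (fun x => D.J x K)).card)
    (hJ2 : ∀ x, ¬ D.A x →
      Odd ((univ.filter (fun K => D.J x K)).card + if D.gr x then 1 else 0)) : False := by
  let H : SimpleGraph (ZMod n ⊕ P) :=
    { Adj := D.SAdj
      symm := ⟨fun _ _ h => D.SAdj_symm h⟩
      loopless := ⟨by
        rintro (x | K) h
        · rcases h with h | h | h | h
          · exact hL.one_ne (by linear_combination -h)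
          · exact hL.one_ne (by linear_combination -h)
          · exact D.grA x h.1 (h.2 ▸ D.rootA x h.1)
          · exact D.grA x h.1 (h.2 ▸ D.rootA x h.1)
        · exact h⟩ }
  have hdeg : ∀ z, H.degree z = ∑ p, if D.SAdj z p then 1 else 0 := by
    intro z
    rw [← card_filter, ← card_neighborFinset_eq_degree, neighborFinset_eq_filter]
  have hev : ∀ K, ¬ Odd (H.degree (.inr K)) := by
    intro K
    rw [Nat.not_odd_iff_even, hdeg, Fintype.sum_sum_type]
    have := hJ1 K
    rw [card_filter] at this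
    have e1 : ∑ x, (if D.SAdj (.inr K) (.inl x) then 1 else 0) =
        ∑ x, (if D.J x K then 1 else 0) := sum_congr rfl fun _ _ => by congr
    have e2 : ∑ K', (if D.SAdj (.inr K) (.inr K') then 1 else 0) = 0 :=
      sum_eq_zero fun _ _ => if_neg id
    rw [e1, e2]; exact this
  have hodd : ∀ x, ¬ D.A x → Odd (H.degree (.inl x)) := by
    intro x hx
    rw [hdeg, Fintype.sum_sum_type]
    have e : ∀ y, (if D.SAdj (.inl x) (.inl y) then 1 else 0) =
        (if y = x + 1 then 1 else 0) + (if y = x - 1 then 1 else 0) +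
          (if D.gr x then (if y = D.φ x then 1 else 0) else 0) := by
      intro y
      have h4 : ¬ (D.gr y ∧ x = D.φ y) := fun h => hx (h.2 ▸ D.rootA y h.1)
      have h5 : x = y + 1 ↔ y = x - 1 := ⟨fun h => by rw [h]; ring, fun h => by rw [h]; ring⟩
      have h6 : x + 1 ≠ x - 1 := fun h => hL.two_ne (by linear_combination h)
      simp only [SAdj, h4, or_false, h5]
      by_cases g : D.gr x
      · obtain ⟨p, q⟩ := D.φ_ne hL g
        by_cases a : y = x + 1
        · subst a; simp [h6, p.symm]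
        · by_cases b : y = x - 1
          · subst b; simp [a, q.symm]
          · simp [a, b, g]
      · by_cases a : y = x + 1
        · subst a; simp [h6, g]
        · simp [a, g]
    have e2 : ∑ y, (if D.SAdj (.inl x) (.inl y) then 1 else 0) =
        2 + if D.gr x then 1 else 0 := by
      simp only [e, sum_add_distrib]
      by_cases g : D.gr x <;> simp [g]
    have := hJ2 x hx
    rw [card_filter] at this
    rw [e2]
    have e3 : ∑ K, (if D.SAdj (.inl x) (.inr K) then 1 else 0) =
        ∑ K, (if D.J x K then 1 else 0) := sum_congr rfl fun _ _ => by congr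
    rw [e3]
    obtain ⟨c, hc⟩ := this
    exact ⟨c + 1, by omega⟩
  obtain ⟨m, hm, g, ginj, gadj, gcov, t, ht⟩ := parity_cycle H n hL.hn (fun i => .inl i)
    Sum.inl_injective (fun i => Or.inl rfl)
    (by
      rintro (x | K) h
      · exact ⟨x, rfl⟩
      · exact absurd h (hev K))
    (by
      obtain ⟨x, a, b, c⟩ := hn
      exact ⟨.inl x, hodd _ a, fun e => b (Sum.inl.inj e), fun e => c (Sum.inl.inj e)⟩)
  have : NeZero m := ⟨by omega⟩
  have gcov' : ∀ x, ¬ D.A x → ∃ i, g i = .inl x := fun x hx => gcov _ (hodd x hx)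
  have hcl := D.closed_DD hL hm ginj gadj gcov'
  obtain ⟨b0, hb0⟩ := D.exists_DD hL hm ginj gadj gcov' t (by
    rintro ⟨u, v, e1, e2, h⟩
    rcases h with h | h
    · exact ht u (by rw [e1, e2, h])
    · exact ht v (by rw [e1, e2, h, Sym2.eq_swap]))
  have := D.no_closed hL _ (univ.filter (D.DD g)) rfl (by simpa using hcl)
  have h0 : b0 ∈ univ.filter (D.DD g) := mem_filter.2 ⟨mem_univ _, hb0⟩
  rw [this] at h0
  simp at h0

end Dat2

end Pool.Agent.MP_ee574f_co
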