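import Pool.Agent.MP_ee574f_co.Piece

set_option autoImplicit false

namespace Pool.Agent.MP_ee574f_co

open SimpleGraph Classical Finset

variable {V : Type} {G : SimpleGraph V} {n : ℕ} {f : ZMod n → V}

namespace Dat

variable (D : Dat G f) {m : ℕ} (g : ZMod m → ZMod n ⊕ Comp G f)

theorem Dbl.own {D : Dat G f} {z p q : ZMod n ⊕ Comp G f} (h : D.Dbl z p q) :
    D.Own z p ∧ D.Own z q := by
  obtain ⟨x, y, rfl, rfl, gx, gy, rfl, e⟩ := h
  exact ⟨D.own_inl.2 ⟨x, rfl, gx, rfl⟩, D.own_inl.2 ⟨y, rfl, gy, by rw [φ, φ, e]⟩⟩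

def DblAt (i : ZMod m) : Prop := D.Dbl (g i) (g (i - 1)) (g (i + 1))

def DD (a : ZMod n) : Prop := ∃ i, g i = .inl a ∧ D.DblAt g i

def Miss (a : ZMod n) : Prop := (¬ ∃ i, g i = .inl a) ∨ D.DD g a

theorem DD_A {a : ZMod n} (h : D.DD g a) : D.A a := by
  obtain ⟨i, hi, x, y, -, -, gx, -, e, -⟩ := h
  rw [hi] at e; cases e; exact D.rootA x gx

variable {g}

theorem nb (ginj : Function.Injective g) (gadj : ∀ i, D.SAdj (g i) (g (i + 1)))
    {i j : ZMod m} {x : ZMod n} (hi : g i = .inl x) (hx : ¬ D.A x) (hj : j = i + 1 ∨ j = i - 1) :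
    D.Own (g j) (g i) ∨ ∃ b, g j = .inl b ∧ (b = x + 1 ∨ b = x - 1) ∧ ¬ D.Miss g b := by
  by_cases o : D.Own (g j) (g i)
  · exact Or.inl o
  right
  have hadj : D.SAdj (g i) (g j) := by
    rcases hj with rfl | rfl
    · exact gadj i
    · have := gadj (i - 1); rw [sub_add_cancel] at this; exact D.SAdj_symm this
  have o' : ¬ D.Own (g i) (g j) := by
    rw [hi, own_inl]
    rintro ⟨y, -, gy, e⟩
    exact hx (e ▸ D.rootA y gy)
  obtain ⟨a, b, e1, e2, hr⟩ := D.red_of_not_own hadj o' o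
  rw [hi] at e1; cases e1
  refine ⟨b, e2, hr.imp id (fun h => by rw [h]; ring), ?_⟩
  rintro (h | ⟨k, hk, hd⟩)
  · exact h ⟨j, e2⟩
  · have : k = j := ginj (hk.trans e2.symm)
    subst this
    rcases hj with rfl | rfl
    · have := hd.own.1; rw [add_sub_cancel_right] at this; exact o this
    · have := hd.own.2; rw [sub_add_cancel] at this; exact o this

theorem nb2 (hm : 3 ≤ m) (ginj : Function.Injective g)
    (gadj : ∀ i, D.SAdj (g i) (g (i + 1))) (i : ZMod m) :
    (if ∃ x, g i = .inl x ∧ ¬ D.A x ∧ D.Miss g (x + 1) then 1 else 0) +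
      (if ∃ x, g i = .inl x ∧ ¬ D.A x ∧ D.Miss g (x - 1) then 1 else 0) ≤
      (if D.Own (g (i - 1)) (g i) then 1 else 0) + (if D.Own (g (i + 1)) (g i) then 1 else 0) := by
  have h2 : (2 : ZMod m) ≠ 0 := by
    intro e
    have : ((2 : ℕ) : ZMod m) = 0 := by exact_mod_cast e
    have := Nat.le_of_dvd (by norm_num) ((ZMod.natCast_eq_zero_iff _ _).1 this)
    omega
  have hne : g (i - 1) ≠ g (i + 1) := fun e => h2 (by linear_combination -(ginj e))
  by_cases h0 : ∃ x, g i = .inl x ∧ ¬ D.A x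
  swap
  · rw [if_neg (fun ⟨x, a, b, _⟩ => h0 ⟨x, a, b⟩), if_neg (fun ⟨x, a, b, _⟩ => h0 ⟨x, a, b⟩)]
    omega
  obtain ⟨x, hi, hx⟩ := h0
  have e1 : (∃ y, g i = .inl y ∧ ¬ D.A y ∧ D.Miss g (y + 1)) ↔ D.Miss g (x + 1) :=
    ⟨fun ⟨y, a, _, c⟩ => by rw [hi] at a; cases a; exact c, fun h => ⟨x, hi, hx, h⟩⟩
  have e2 : (∃ y, g i = .inl y ∧ ¬ D.A y ∧ D.Miss g (y - 1)) ↔ D.Miss g (x - 1) :=
    ⟨fun ⟨y, a, _, c⟩ => by rw [hi] at a; cases a; exact c, fun h => ⟨x, hi, hx, h⟩⟩
  simp only [e1, e2]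
  rcases D.nb ginj gadj hi hx (Or.inr rfl) with p | ⟨b, hb, rb, mb⟩ <;>
    rcases D.nb ginj gadj hi hx (Or.inl rfl) with q | ⟨c, hc, rc, mc⟩
  · rw [if_pos p, if_pos q]; split_ifs <;> omega
  · rw [if_pos p]
    rcases rc with rfl | rfl <;> rw [if_neg mc] <;> split_ifs <;> omega
  · rw [if_pos q]
    rcases rb with rfl | rfl <;> rw [if_neg mb] <;> split_ifs <;> omega
  · have hbc : b ≠ c := fun e => hne (by rw [hb, hc, e])
    rcases rb with rfl | rfl <;> rcases rc with rfl | rc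
    · exact absurd rfl hbc
    · subst rc; rw [if_neg mb, if_neg mc]; omega
    · rw [if_neg mb, if_neg mc]; omega
    · exact absurd rc.symm hbc

theorem miss_le [NeZero m] [NeZero n] (gcov : ∀ x, ¬ D.A x → ∃ i, g i = .inl x) (c : ZMod n)
    (hc : ∀ a, D.A a → ¬ D.A (a - c)) :
    (univ.filter (D.Miss g)).card ≤
      ∑ i, (if ∃ x, g i = .inl x ∧ ¬ D.A x ∧ D.Miss g (x + c) then 1 else 0) := by
  have hA : ∀ a, D.Miss g a → D.A a := by
    rintro a (h | h)
    · by_contra hh; exact h (gcov a hh)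
    · exact D.DD_A g h
  rw [← card_filter]
  have : ∀ a, ∃ i, D.Miss g a → g i = .inl (a - c) := by
    intro a
    by_cases h : D.Miss g a
    · obtain ⟨i, hi⟩ := gcov _ (hc a (hA a h)); exact ⟨i, fun _ => hi⟩
    · exact ⟨0, fun h' => absurd h' h⟩
  choose ι hι using this
  refine card_le_card_of_injOn ι ?_ ?_
  · intro a ha
    have ha' := (mem_filter.1 (mem_coe.1 ha)).2
    exact mem_coe.2 (mem_filter.2 ⟨mem_univ _, a - c, hι a ha', hc a (hA a ha'),
      by rwa [sub_add_cancel]⟩)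
  · intro a ha b hb e
    have h1 := hι a (mem_filter.1 (mem_coe.1 ha)).2
    have h2 := hι b (mem_filter.1 (mem_coe.1 hb)).2
    rw [e, h2] at h1
    have := Sum.inl.inj h1
    linear_combination -this

theorem count (hL : Long G n f) [NeZero m] (hm : 3 ≤ m) (ginj : Function.Injective g)
    (gadj : ∀ i, D.SAdj (g i) (g (i + 1))) (gcov : ∀ x, ¬ D.A x → ∃ i, g i = .inl x) (i : ZMod m)
    (hi : ¬ D.DblAt g i) : D.own2 (g i) (g (i - 1)) (g (i + 1)) = 0 := by
  have := hL.neZero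
  have h2 : (2 : ZMod m) ≠ 0 := by
    intro e
    have : ((2 : ℕ) : ZMod m) = 0 := by exact_mod_cast e
    have := Nat.le_of_dvd (by norm_num) ((ZMod.natCast_eq_zero_iff _ _).1 this)
    omega
  have hp : ∀ i, D.SAdj (g i) (g (i - 1)) := fun i => by
    have := gadj (i - 1); rw [sub_add_cancel] at this; exact D.SAdj_symm this
  choose W w1 w2 w3 w4 w5 w6 w7 using fun i => D.piece (hp i) (gadj i)
    (fun e => h2 (by linear_combination -(ginj e)))
  have hsum := hL.lift m hm W w1 w2 w3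
    (fun i j hij v a b => hij (ginj (D.terr_disj hL (w4 i v a) (w4 j v b))))
    (fun i a ha b hb => D.end_link hL (gadj i) (w6 i a ha)
      (by have := w5 (i + 1) b hb; rwa [add_sub_cancel_right] at this))
  set r : ZMod m → ℕ := fun i => if D.DblAt g i then 0 else D.own2 (g i) (g (i - 1)) (g (i + 1))
    with hr
  have s1 : ∑ i, (if (g i).isLeft then 1 else 0) + ∑ i, r i ≤ n := by
    rw [← sum_add_distrib]
    exact (sum_le_sum fun i _ => w7 i).trans hsum
  -- on-cycle vertices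
  have s2 : (univ.filter (fun a : ZMod n => ∃ i, g i = .inl a)).card ≤
      ∑ i, (if (g i).isLeft then 1 else 0) := by
    rw [← card_filter]
    have : ∀ a : ZMod n, ∃ i, (∃ i, g i = .inl a) → g i = .inl a := by
      intro a
      by_cases h : ∃ i, g i = .inl a
      · obtain ⟨i, hi⟩ := h; exact ⟨i, fun _ => hi⟩
      · exact ⟨0, fun h' => absurd h' h⟩
    choose ι hι using this
    refine card_le_card_of_injOn ι ?_ ?_
    · intro a ha
      have := hι a (mem_filter.1 (mem_coe.1 ha)).2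
      exact mem_coe.2 (mem_filter.2 ⟨mem_univ _, by rw [this]; rfl⟩)
    · intro a ha b hb e
      have h1 := hι a (mem_filter.1 (mem_coe.1 ha)).2
      have h2 := hι b (mem_filter.1 (mem_coe.1 hb)).2
      rw [e, h2] at h1
      exact (Sum.inl.inj h1).symm
  have s3 : (univ.filter (fun a : ZMod n => ∃ i, g i = .inl a)).card +
      (univ.filter (fun a : ZMod n => ¬ ∃ i, g i = .inl a)).card = n := by
    rw [card_filter_add_card_filter_not, card_univ, ZMod.card]
  have s4 : (univ.filter (D.Miss g)).card =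
      (univ.filter (fun a : ZMod n => ¬ ∃ i, g i = .inl a)).card + (univ.filter (D.DD g)).card := by
    rw [← card_union_of_disjoint]
    · congr 1; ext a; simp [Miss]
    · rw [disjoint_filter]
      rintro a - h ⟨i, hi, -⟩; exact h ⟨i, hi⟩
  have s5 := D.miss_le gcov 1 (fun a ha h => D.ind _ h (by rwa [sub_add_cancel]))
  have s6 := D.miss_le gcov (-1) (fun a ha h => D.ind _ ha (by rwa [sub_neg_eq_add] at h))
  simp only [← sub_eq_add_neg] at s6
  have s7 := sum_le_sum (s := univ) fun i _ => D.nb2 hm ginj gadj i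
  rw [sum_add_distrib, sum_add_distrib] at s7
  have s7' := (add_le_add s5 s6).trans (by convert s7)
  have s8 : ∑ i, (if D.Own (g (i - 1)) (g i) then 1 else 0) =
      ∑ i, (if D.Own (g i) (g (i + 1)) then 1 else 0) := by
    rw [← Equiv.sum_comp (Equiv.addRight (1 : ZMod m))]; simp
  have s9 : ∑ i, (if D.Own (g (i + 1)) (g i) then 1 else 0) =
      ∑ i, (if D.Own (g i) (g (i - 1)) then 1 else 0) := by
    rw [← Equiv.sum_comp (Equiv.subRight (1 : ZMod m))]; simp
  have s10 : ∑ i, (if D.Own (g i) (g (i - 1)) then 1 else 0) +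
      ∑ i, (if D.Own (g i) (g (i + 1)) then 1 else 0) ≤
      ∑ i, r i + 2 * ∑ i, (if D.DblAt g i then 1 else 0) := by
    rw [mul_sum, ← sum_add_distrib, ← sum_add_distrib]
    refine sum_le_sum fun i _ => ?_
    simp only [hr, own2]
    split_ifs <;> omega
  have s11 : ∑ i, (if D.DblAt g i then 1 else 0) ≤ (univ.filter (D.DD g)).card := by
    rw [← card_filter]
    refine card_le_card_of_injOn (fun i => (g i).elim id (fun _ => 0)) ?_ ?_
    · intro i hi
      have hd := (mem_filter.1 (mem_coe.1 hi)).2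
      obtain ⟨x, y, -, -, -, -, e, -⟩ := id hd
      exact mem_coe.2 (mem_filter.2 ⟨mem_univ _, i, by simp [e], hd⟩)
    · intro i hi j hj e
      obtain ⟨x, -, -, -, -, -, e1, -⟩ := (mem_filter.1 (mem_coe.1 hi)).2
      obtain ⟨y, -, -, -, -, -, e2, -⟩ := (mem_filter.1 (mem_coe.1 hj)).2
      apply ginj
      simp only [e1, e2, Sum.elim_inl, id] at e
      rw [e1, e2, e]
  have s12 : ∑ i, r i = 0 := by omega
  have := (sum_eq_zero_iff.1 s12) i (mem_univ _)
  simpa [hr, hi] using this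

theorem own_dbl (hL : Long G n f) [NeZero m] (hm : 3 ≤ m) (ginj : Function.Injective g)
    (gadj : ∀ i, D.SAdj (g i) (g (i + 1))) (gcov : ∀ x, ¬ D.A x → ∃ i, g i = .inl x)
    {i j : ZMod m} (hj : j = i + 1 ∨ j = i - 1) (o : D.Own (g j) (g i)) : D.DblAt g j := by
  by_contra hd
  have := D.count hL hm ginj gadj gcov j hd
  rcases hj with rfl | rfl
  · simp [own2, o] at this
  · simp [own2, o] at this

/-- closed sets of sinks -/
def Closed (S : ZMod n → Prop) : Prop :=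
  ∀ a, S a → D.A a ∧ ∀ x, (x = a + 1 ∨ x = a - 1) → D.gr x ∧ S (D.φ x)

theorem closed_DD (hL : Long G n f) [NeZero m] (hm : 3 ≤ m) (ginj : Function.Injective g)
    (gadj : ∀ i, D.SAdj (g i) (g (i + 1))) (gcov : ∀ x, ¬ D.A x → ∃ i, g i = .inl x) :
    D.Closed (D.DD g) := by
  intro a ha
  have hA := D.DD_A g ha
  refine ⟨hA, fun x hx => ?_⟩
  have hxA : ¬ D.A x := by
    rcases hx with rfl | rfl
    · exact D.ind a hA
    · exact fun h => D.ind _ h (by rwa [sub_add_cancel])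
  obtain ⟨i, hi⟩ := gcov x hxA
  have h2 := D.nb2 hm ginj gadj i
  have key : ∃ j, (j = i + 1 ∨ j = i - 1) ∧ D.Own (g j) (g i) := by
    by_contra hno
    push Not at hno
    rw [if_neg (hno _ (Or.inr rfl)), if_neg (hno _ (Or.inl rfl))] at h2
    rcases hx with rfl | rfl
    · rw [if_pos (c := ∃ x, g i = .inl x ∧ ¬ D.A x ∧ D.Miss g (x - 1))
        ⟨_, hi, hxA, Or.inr (by rwa [add_sub_cancel_right])⟩] at h2
      omega
    · rw [if_pos (c := ∃ x, g i = .inl x ∧ ¬ D.A x ∧ D.Miss g (x + 1))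
        ⟨_, hi, hxA, Or.inr (by rwa [sub_add_cancel])⟩] at h2
      omega
  obtain ⟨j, hj, o⟩ := key
  have hd := D.own_dbl hL hm ginj gadj gcov hj o
  obtain ⟨y, -, -, -, -, -, e, -⟩ := id hd
  rw [e, own_inl] at o
  obtain ⟨x', e', gx, ex⟩ := o
  rw [hi] at e'; cases e'
  exact ⟨gx, j, by rw [e, ex], hd⟩

theorem exists_DD (hL : Long G n f) [NeZero m] (hm : 3 ≤ m) (ginj : Function.Injective g)
    (gadj : ∀ i, D.SAdj (g i) (g (i + 1))) (gcov : ∀ x, ¬ D.A x → ∃ i, g i = .inl x)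
    (i : ZMod m) (hi : ¬ ∃ a b, g i = .inl a ∧ g (i + 1) = .inl b ∧ (b = a + 1 ∨ a = b + 1)) :
    ∃ a, D.DD g a := by
  have : ∃ j, D.DblAt g j := by
    by_contra hno
    push Not at hno
    refine hi (D.red_of_not_own (gadj i) (fun o => hno i ?_) (fun o => hno (i + 1) ?_))
    · exact D.own_dbl hL hm ginj gadj gcov (i := i + 1) (Or.inr (by ring)) o
    · exact D.own_dbl hL hm ginj gadj gcov (Or.inl rfl) o
  obtain ⟨j, hd⟩ := this
  obtain ⟨y, -, -, -, -, -, e, -⟩ := id hd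
  exact ⟨_, j, e, hd⟩

end Dat

end Pool.Agent.MP_ee574f_co
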