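import Pool.Agent.MP_ee574f_co.Piece2

set_option autoImplicit false

namespace Pool.Agent.MP_ee574f_co

open SimpleGraph Classical Finset

variable {V : Type} {G : SimpleGraph V} {n : ℕ} {f : ZMod n → V}

namespace Dat2

variable {P : Type} (D : Dat2 G f P) {m : ℕ} (g : ZMod m → ZMod n ⊕ P)

theorem Dbl.own {D : Dat2 G f P} {z p q : ZMod n ⊕ P} (h : D.Dbl z p q) :
    D.Own z p ∧ D.Own z q := by
  obtain ⟨x, y, rfl, rfl, gx, gy, rfl, e⟩ := h
  exact ⟨D.own_inl.2 ⟨x, rfl, gx, rfl⟩, D.own_inl.2 ⟨y, rfl, gy, by rw [φ, φ, e]⟩⟩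

def DblAt (i : ZMod m) : Prop := D.Dbl (g i) (g (i - 1)) (g (i + 1))

def DD (a : ZMod n) : Prop := ∃ i, g i = .inl a ∧ D.DblAt g i

def Miss (a : ZMod n) : Prop := (¬ ∃ i, g i = .inl a) ∨ D.DD g a

theorem DD_A {a : ZMod n} (h : D.DD g a) : D.A a := by
  obtain ⟨i, hi, x, y, -, -, gx, -, e, -⟩ := h
  rw [hi] at e; cases e; exact D.rootA x gx

variable {g}

theorem nb (ginj : Function.Injective g) (gadj : ∀ i, D.SAdj (g i) (g (i + 1)))
    {i j : ZMod m} {x : ZMod n} (hi : g i = .inl x) (hx : ∀ y, D.gr y → D.φ y ≠ x)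
    (hj : j = i + 1 ∨ j = i - 1) :
    D.Own (g j) (g i) ∨ ∃ b, g j = .inl b ∧ (b = x + 1 ∨ b = x - 1) ∧ ¬ D.Miss g b := by
  by_cases o : D.Own (g j) (g i)
  · exact Or.inl o
  right
  have hadj : D.SAdj (g i) (g j) := by
    rcases hj with rfl | rfl
    · exact gadj i
    · have := gadj (i - 1); rw [sub_add_cancel] at this; exact D.SAdj_symm this
  have o' : ¬ D.Own (g i) (g j) := by
    rw [hi, own_inl]
    rintro ⟨y, -, gy, e⟩
    exact hx y gy e
  obtain ⟨a, b, e1, e2, hr⟩ := D.red_of_not_own hadj o' o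
  rw [hi] at e1; cases e1
  refine ⟨b, e2, hr.imp id (fun h => by rw [h]; ring), ?_⟩
  rintro (h | ⟨k, hk, hd⟩)
  · exact h ⟨j, e2⟩
  · have : k = j := ginj (hk.trans e2.symm)
    subst this
    rcases hj with rfl | rfl
    · have := hd.own.1; rw [add_sub_cancel_right] at this; exact o this
    · have := hd.own.2; rw [sub_add_cancel] at this; exact o this

theorem nb2 (hm : 3 ≤ m) (ginj : Function.Injective g)
    (gadj : ∀ i, D.SAdj (g i) (g (i + 1))) (i : ZMod m) :
    (if ∃ x, g i = .inl x ∧ ¬ D.A x ∧ D.Miss g (x + 1) then 1 else 0) +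
      (if ∃ x, g i = .inl x ∧ ¬ D.A x ∧ D.Miss g (x - 1) then 1 else 0) ≤
      (if D.Own (g (i - 1)) (g i) then 1 else 0) + (if D.Own (g (i + 1)) (g i) then 1 else 0) := by
  have h2 : (2 : ZMod m) ≠ 0 := by
    intro e
    have : ((2 : ℕ) : ZMod m) = 0 := by exact_mod_cast e
    have := Nat.le_of_dvd (by norm_num) ((ZMod.natCast_eq_zero_iff _ _).1 this)
    omega
  have hne : g (i - 1) ≠ g (i + 1) := fun e => h2 (by linear_combination -(ginj e))
  by_cases h0 : ∃ x, g i = .inl x ∧ ¬ D.A x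
  swap
  · rw [if_neg (fun ⟨x, a, b, _⟩ => h0 ⟨x, a, b⟩), if_neg (fun ⟨x, a, b, _⟩ => h0 ⟨x, a, b⟩)]
    omega
  obtain ⟨x, hi, hx⟩ := h0
  have e1 : (∃ y, g i = .inl y ∧ ¬ D.A y ∧ D.Miss g (y + 1)) ↔ D.Miss g (x + 1) :=
    ⟨fun ⟨y, a, _, c⟩ => by rw [hi] at a; cases a; exact c, fun h => ⟨x, hi, hx, h⟩⟩
  have e2 : (∃ y, g i = .inl y ∧ ¬ D.A y ∧ D.Miss g (y - 1)) ↔ D.Miss g (x - 1) :=
    ⟨fun ⟨y, a, _, c⟩ => by rw [hi] at a; cases a; exact c, fun h => ⟨x, hi, hx, h⟩⟩
  simp only [e1, e2]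
  have hx' : ∀ y, D.gr y → D.φ y ≠ x := fun y gy e => hx (e ▸ D.rootA y gy)
  rcases D.nb ginj gadj hi hx' (Or.inr rfl) with p | ⟨b, hb, rb, mb⟩ <;>
    rcases D.nb ginj gadj hi hx' (Or.inl rfl) with q | ⟨c, hc, rc, mc⟩
  · rw [if_pos p, if_pos q]; split_ifs <;> omega
  · rw [if_pos p]
    rcases rc with rfl | rfl <;> rw [if_neg mc] <;> split_ifs <;> omega
  · rw [if_pos q]
    rcases rb with rfl | rfl <;> rw [if_neg mb] <;> split_ifs <;> omega
  · have hbc : b ≠ c := fun e => hne (by rw [hb, hc, e])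
    rcases rb with rfl | rfl <;> rcases rc with rfl | rc
    · exact absurd rfl hbc
    · subst rc; rw [if_neg mb, if_neg mc]; omega
    · rw [if_neg mb, if_neg mc]; omega
    · exact absurd rc.symm hbc

theorem jend (hm : 3 ≤ m) (ginj : Function.Injective g)
    (gadj : ∀ i, D.SAdj (g i) (g (i + 1))) {i : ZMod m} {x : ZMod n} (hi : g i = .inl x)
    (hx : D.W x) (hM : D.Miss g (x + 1) ∨ D.Miss g (x - 1)) :
    ¬ (g (i - 1)).isLeft ∨ ¬ (g (i + 1)).isLeft := by
  have h2 : (2 : ZMod m) ≠ 0 := by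
    intro e
    have : ((2 : ℕ) : ZMod m) = 0 := by exact_mod_cast e
    have := Nat.le_of_dvd (by norm_num) ((ZMod.natCast_eq_zero_iff _ _).1 this)
    omega
  have hne : g (i - 1) ≠ g (i + 1) := fun e => h2 (by linear_combination -(ginj e))
  have hx' : ∀ y, D.gr y → D.φ y ≠ x := fun y gy => D.Wroot x y hx gy
  have ho : ∀ z, D.Own z (g i) → ¬ z.isLeft := by
    rintro z ⟨y, e, ⟨K, rfl⟩ | ⟨h, -⟩⟩
    · simp
    · rw [hi] at e; cases e; exact absurd h (D.Wgr _ hx)
  rcases D.nb ginj gadj hi hx' (Or.inr rfl) with p | ⟨b, hb, rb, mb⟩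
  · exact Or.inl (ho _ p)
  rcases D.nb ginj gadj hi hx' (Or.inl rfl) with q | ⟨c, hc, rc, mc⟩
  · exact Or.inr (ho _ q)
  have hbc : b ≠ c := fun e => hne (by rw [hb, hc, e])
  exfalso
  rcases rb with rfl | rfl <;> rcases rc with rfl | rc
  · exact hbc rfl
  · subst rc; exact hM.elim mb mc
  · exact hM.elim mc mb
  · exact hbc rc.symm

theorem miss_A (gcov : ∀ x, ¬ D.A x → ∃ i, g i = .inl x) (a : ZMod n) (h : D.Miss g a) :
    D.A a := by
  rcases h with h | h
  · by_contra hh; exact h (gcov a hh)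
  · exact D.DD_A g h

def Iso (a : ZMod n) : Prop := ¬ D.A (a + 1) ∧ ¬ D.A (a - 1)

theorem miss_le [NeZero m] [NeZero n] (gcov : ∀ x, ¬ D.A x → ∃ i, g i = .inl x) (c : ZMod n)
    (hc : ∀ a, D.Iso a → ¬ D.A (a - c)) :
    (univ.filter (fun a => D.Miss g a ∧ D.Iso a)).card ≤
      ∑ i, (if ∃ x, g i = .inl x ∧ ¬ D.A x ∧ D.Miss g (x + c) then 1 else 0) := by
  rw [← card_filter]
  have : ∀ a, ∃ i, D.Iso a → g i = .inl (a - c) := by
    intro a
    by_cases h : D.Iso a
    · obtain ⟨i, hi⟩ := gcov _ (hc a h); exact ⟨i, fun _ => hi⟩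
    · exact ⟨0, fun h' => absurd h' h⟩
  choose ι hι using this
  refine card_le_card_of_injOn ι ?_ ?_
  · intro a ha
    have ha' := (mem_filter.1 (mem_coe.1 ha)).2
    exact mem_coe.2 (mem_filter.2 ⟨mem_univ _, a - c, hι a ha'.2, hc a ha'.2,
      by rw [sub_add_cancel]; exact ha'.1⟩)
  · intro a ha b hb e
    have h1 := hι a (mem_filter.1 (mem_coe.1 ha)).2.2
    have h2 := hι b (mem_filter.1 (mem_coe.1 hb)).2.2
    rw [e, h2] at h1
    have := Sum.inl.inj h1
    linear_combination -this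

theorem miss_two [NeZero m] [NeZero n] (hm : 3 ≤ m) (ginj : Function.Injective g)
    (gadj : ∀ i, D.SAdj (g i) (g (i + 1))) (gcov : ∀ x, ¬ D.A x → ∃ i, g i = .inl x) :
    (univ.filter (fun a => D.Miss g a ∧ ¬ D.Iso a)).card ≤
      12 * ∑ i, (if (g i).isLeft then 0 else 1) := by
  let w : ZMod n ⊕ P → Finset (ZMod n) := fun z =>
    z.elim (fun x => {x + 1, x + 2, x + 3, x - 1, x - 2, x - 3}) (fun _ => ∅)
  have hw : ∀ z, (w z).card ≤ 6 := by
    rintro (x | p)
    · exact card_le_six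
    · simp [w]
  have hsub : univ.filter (fun a => D.Miss g a ∧ ¬ D.Iso a) ⊆
      (univ.filter (fun i => ¬ (g i).isLeft)).biUnion (fun i => w (g (i + 1)) ∪ w (g (i - 1))) := by
    intro a ha
    obtain ⟨h1, h2⟩ := (mem_filter.1 ha).2
    obtain ⟨x, hx, hm', hM, hax⟩ := D.run (D.Miss g) (D.miss_A gcov) a h1
      (by by_contra h; exact h2 (not_or.1 h))
    obtain ⟨i, hi⟩ : ∃ i, g i = .inl x := by by_contra h; exact hm' (Or.inl h)
    rcases D.jend hm ginj gadj hi hx hM with h | h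
    · refine mem_biUnion.2 ⟨i - 1, mem_filter.2 ⟨mem_univ _, h⟩, mem_union_left _ ?_⟩
      rw [sub_add_cancel, hi]; exact hax
    · refine mem_biUnion.2 ⟨i + 1, mem_filter.2 ⟨mem_univ _, h⟩, mem_union_right _ ?_⟩
      rw [add_sub_cancel_right, hi]; exact hax
  refine (card_le_card hsub).trans ((card_biUnion_le_card_mul _ _ 12 fun i _ => ?_).trans ?_)
  · exact (card_union_le _ _).trans (by have := hw (g (i + 1)); have := hw (g (i - 1)); omega)
  · rw [mul_comm, card_filter]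
    refine Nat.mul_le_mul_left _ (sum_le_sum fun i _ => ?_)
    split_ifs <;> omega

theorem count (hL : Long G n f) [NeZero m] (hm : 3 ≤ m) (ginj : Function.Injective g)
    (gadj : ∀ i, D.SAdj (g i) (g (i + 1))) (gcov : ∀ x, ¬ D.A x → ∃ i, g i = .inl x) :
    (∀ i, ¬ D.DblAt g i → D.own2 (g i) (g (i - 1)) (g (i + 1)) = 0) ∧
      ∀ a, D.Miss g a → D.Iso a := by
  have := hL.neZero
  have h2 : (2 : ZMod m) ≠ 0 := by
    intro e
    have : ((2 : ℕ) : ZMod m) = 0 := by exact_mod_cast e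
    have := Nat.le_of_dvd (by norm_num) ((ZMod.natCast_eq_zero_iff _ _).1 this)
    omega
  have hp : ∀ i, D.SAdj (g i) (g (i - 1)) := fun i => by
    have := gadj (i - 1); rw [sub_add_cancel] at this; exact D.SAdj_symm this
  choose W w1 w2 w3 w4 w5 w6 w7 using fun i => D.piece (hp i) (gadj i)
    (fun e => h2 (by linear_combination -(ginj e)))
  have hsum := hL.lift m hm W w1 w2 w3
    (fun i j hij v a b => hij (ginj (D.terr_disj hL (w4 i v a) (w4 j v b))))
    (fun i a ha b hb => D.end_link hL (gadj i) (w6 i a ha)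
      (by have := w5 (i + 1) b hb; rwa [add_sub_cancel_right] at this))
  set r : ZMod m → ℕ := fun i => if (g i).isLeft then
    (if D.DblAt g i then 0 else D.own2 (g i) (g (i - 1)) (g (i + 1))) else 0 with hr
  have s1 : ∑ i, (if (g i).isLeft then 1 else 0) + ∑ i, r i +
      14 * ∑ i, (if (g i).isLeft then 0 else 1) ≤ n := by
    rw [mul_sum, ← sum_add_distrib, ← sum_add_distrib]
    refine (sum_le_sum fun i _ => le_trans ?_ (w7 i)).trans hsum
    by_cases hd : D.DblAt g i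
    · have hd' : D.Dbl (g i) (g (i - 1)) (g (i + 1)) := hd
      simp only [hr, if_pos hd, if_pos hd']
      split_ifs <;> omega
    · have hd' : ¬ D.Dbl (g i) (g (i - 1)) (g (i + 1)) := hd
      simp only [hr, if_neg hd, if_neg hd']
      split_ifs <;> omega
  have s0 := D.miss_two hm ginj gadj gcov
  have s00 : (univ.filter (fun a => D.Miss g a ∧ D.Iso a)).card +
      (univ.filter (fun a => D.Miss g a ∧ ¬ D.Iso a)).card = (univ.filter (D.Miss g)).card := by
    rw [← filter_filter, ← filter_filter, card_filter_add_card_filter_not]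
  -- on-cycle vertices
  have s2 : (univ.filter (fun a : ZMod n => ∃ i, g i = .inl a)).card ≤
      ∑ i, (if (g i).isLeft then 1 else 0) := by
    rw [← card_filter]
    have : ∀ a : ZMod n, ∃ i, (∃ i, g i = .inl a) → g i = .inl a := by
      intro a
      by_cases h : ∃ i, g i = .inl a
      · obtain ⟨i, hi⟩ := h; exact ⟨i, fun _ => hi⟩
      · exact ⟨0, fun h' => absurd h' h⟩
    choose ι hι using this
    refine card_le_card_of_injOn ι ?_ ?_
    · intro a ha
      have := hι a (mem_filter.1 (mem_coe.1 ha)).2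
      exact mem_coe.2 (mem_filter.2 ⟨mem_univ _, by rw [this]; rfl⟩)
    · intro a ha b hb e
      have h1 := hι a (mem_filter.1 (mem_coe.1 ha)).2
      have h2 := hι b (mem_filter.1 (mem_coe.1 hb)).2
      rw [e, h2] at h1
      exact (Sum.inl.inj h1).symm
  have s3 : (univ.filter (fun a : ZMod n => ∃ i, g i = .inl a)).card +
      (univ.filter (fun a : ZMod n => ¬ ∃ i, g i = .inl a)).card = n := by
    rw [card_filter_add_card_filter_not, card_univ, ZMod.card]
  have s4 : (univ.filter (D.Miss g)).card =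
      (univ.filter (fun a : ZMod n => ¬ ∃ i, g i = .inl a)).card + (univ.filter (D.DD g)).card := by
    rw [← card_union_of_disjoint]
    · congr 1; ext a; simp [Miss]
    · rw [disjoint_filter]
      rintro a - h ⟨i, hi, -⟩; exact h ⟨i, hi⟩
  have s5 := D.miss_le gcov 1 (fun a ha => ha.2)
  have s6 := D.miss_le gcov (-1) (fun a ha => by rw [sub_neg_eq_add]; exact ha.1)
  simp only [← sub_eq_add_neg] at s6
  have s7 := sum_le_sum (s := univ) fun i _ => D.nb2 hm ginj gadj i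
  rw [sum_add_distrib, sum_add_distrib] at s7
  have s7' := (add_le_add s5 s6).trans (by convert s7)
  have s8 : ∑ i, (if D.Own (g (i - 1)) (g i) then 1 else 0) =
      ∑ i, (if D.Own (g i) (g (i + 1)) then 1 else 0) := by
    rw [← Equiv.sum_comp (Equiv.addRight (1 : ZMod m))]; simp
  have s9 : ∑ i, (if D.Own (g (i + 1)) (g i) then 1 else 0) =
      ∑ i, (if D.Own (g i) (g (i - 1)) then 1 else 0) := by
    rw [← Equiv.sum_comp (Equiv.subRight (1 : ZMod m))]; simp
  have s10 : ∑ i, (if D.Own (g i) (g (i - 1)) then 1 else 0) +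
      ∑ i, (if D.Own (g i) (g (i + 1)) then 1 else 0) ≤
      ∑ i, r i + 2 * ∑ i, (if D.DblAt g i then 1 else 0) +
        2 * ∑ i, (if (g i).isLeft then 0 else 1) := by
    rw [mul_sum, mul_sum, ← sum_add_distrib, ← sum_add_distrib, ← sum_add_distrib]
    refine sum_le_sum fun i _ => ?_
    simp only [hr, own2]
    split_ifs <;> omega
  have s11 : ∑ i, (if D.DblAt g i then 1 else 0) ≤ (univ.filter (D.DD g)).card := by
    rw [← card_filter]
    refine card_le_card_of_injOn (fun i => (g i).elim id (fun _ => 0)) ?_ ?_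
    · intro i hi
      have hd := (mem_filter.1 (mem_coe.1 hi)).2
      obtain ⟨x, y, -, -, -, -, e, -⟩ := id hd
      exact mem_coe.2 (mem_filter.2 ⟨mem_univ _, i, by simp [e], hd⟩)
    · intro i hi j hj e
      obtain ⟨x, -, -, -, -, -, e1, -⟩ := (mem_filter.1 (mem_coe.1 hi)).2
      obtain ⟨y, -, -, -, -, -, e2, -⟩ := (mem_filter.1 (mem_coe.1 hj)).2
      apply ginj
      simp only [e1, e2, Sum.elim_inl, id] at e
      rw [e1, e2, e]
  have s12 : ∑ i, r i = 0 := by omega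
  have s13 : ∑ i, (if (g i).isLeft then 0 else 1) = 0 := by omega
  have s14 : (univ.filter (fun a => D.Miss g a ∧ ¬ D.Iso a)).card = 0 := by omega
  refine ⟨fun i hi => ?_, fun a ha => ?_⟩
  · have h1 := (sum_eq_zero_iff.1 s12) i (mem_univ _)
    have h2 := (sum_eq_zero_iff.1 s13) i (mem_univ _)
    have h3 : (g i).isLeft := by by_contra h; simp [h] at h2
    simpa [hr, hi, h3] using h1
  · by_contra h
    have : a ∈ univ.filter (fun a => D.Miss g a ∧ ¬ D.Iso a) := mem_filter.2 ⟨mem_univ _, ha, h⟩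
    rw [card_eq_zero.1 s14] at this
    simp at this

theorem own_dbl (hL : Long G n f) [NeZero m] (hm : 3 ≤ m) (ginj : Function.Injective g)
    (gadj : ∀ i, D.SAdj (g i) (g (i + 1))) (gcov : ∀ x, ¬ D.A x → ∃ i, g i = .inl x)
    {i j : ZMod m} (hj : j = i + 1 ∨ j = i - 1) (o : D.Own (g j) (g i)) : D.DblAt g j := by
  by_contra hd
  have := (D.count hL hm ginj gadj gcov).1 j hd
  rcases hj with rfl | rfl
  · simp [own2, o] at this
  · simp [own2, o] at this

/-- closed sets of sinks -/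
def Closed (S : ZMod n → Prop) : Prop :=
  ∀ a, S a → D.A a ∧ ∀ x, (x = a + 1 ∨ x = a - 1) → D.gr x ∧ S (D.φ x)

theorem closed_DD (hL : Long G n f) [NeZero m] (hm : 3 ≤ m) (ginj : Function.Injective g)
    (gadj : ∀ i, D.SAdj (g i) (g (i + 1))) (gcov : ∀ x, ¬ D.A x → ∃ i, g i = .inl x) :
    D.Closed (D.DD g) := by
  intro a ha
  have hA := D.DD_A g ha
  refine ⟨hA, fun x hx => ?_⟩
  have hxA : ¬ D.A x := by
    have hI := (D.count hL hm ginj gadj gcov).2 a (Or.inr ha)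
    rcases hx with rfl | rfl
    · exact hI.1
    · exact hI.2
  obtain ⟨i, hi⟩ := gcov x hxA
  have h2 := D.nb2 hm ginj gadj i
  have key : ∃ j, (j = i + 1 ∨ j = i - 1) ∧ D.Own (g j) (g i) := by
    by_contra hno
    push Not at hno
    rw [if_neg (hno _ (Or.inr rfl)), if_neg (hno _ (Or.inl rfl))] at h2
    rcases hx with rfl | rfl
    · rw [if_pos (c := ∃ x, g i = .inl x ∧ ¬ D.A x ∧ D.Miss g (x - 1))
        ⟨_, hi, hxA, Or.inr (by rwa [add_sub_cancel_right])⟩] at h2
      omega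
    · rw [if_pos (c := ∃ x, g i = .inl x ∧ ¬ D.A x ∧ D.Miss g (x + 1))
        ⟨_, hi, hxA, Or.inr (by rwa [sub_add_cancel])⟩] at h2
      omega
  obtain ⟨j, hj, o⟩ := key
  have hd := D.own_dbl hL hm ginj gadj gcov hj o
  obtain ⟨y, -, -, -, -, -, e, -⟩ := id hd
  rw [e, own_inl] at o
  obtain ⟨x', e', gx, ex⟩ := o
  rw [hi] at e'; cases e'
  exact ⟨gx, j, by rw [e, ex], hd⟩

theorem exists_DD (hL : Long G n f) [NeZero m] (hm : 3 ≤ m) (ginj : Function.Injective g)
    (gadj : ∀ i, D.SAdj (g i) (g (i + 1))) (gcov : ∀ x, ¬ D.A x → ∃ i, g i = .inl x)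
    (i : ZMod m) (hi : ¬ ∃ a b, g i = .inl a ∧ g (i + 1) = .inl b ∧ (b = a + 1 ∨ a = b + 1)) :
    ∃ a, D.DD g a := by
  have : ∃ j, D.DblAt g j := by
    by_contra hno
    push Not at hno
    refine hi (D.red_of_not_own (gadj i) (fun o => hno i ?_) (fun o => hno (i + 1) ?_))
    · exact D.own_dbl hL hm ginj gadj gcov (i := i + 1) (Or.inr (by ring)) o
    · exact D.own_dbl hL hm ginj gadj gcov (Or.inl rfl) o
  obtain ⟨j, hd⟩ := this
  obtain ⟨y, -, -, -, -, -, e, -⟩ := id hd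
  exact ⟨_, j, e, hd⟩

end Dat2

end Pool.Agent.MP_ee574f_co
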