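import Pool.Agent.MP_ee574f_co.Base

set_option autoImplicit false

namespace Pool.Agent.MP_ee574f_co

open SimpleGraph

variable {V : Type} {G : SimpleGraph V} {n : ℕ} {f : ZMod n → V}

theorem Long.neZero (h : Long G n f) : NeZero n := ⟨by have := h.hn; omega⟩

theorem Long.one_ne (h : Long G n f) : (1 : ZMod n) ≠ 0 := by
  have : Fact (1 < n) := ⟨by have := h.hn; omega⟩
  exact one_ne_zero

theorem Long.two_ne (h : Long G n f) : (2 : ZMod n) ≠ 0 := by
  intro e
  have : ((2 : ℕ) : ZMod n) = 0 := by exact_mod_cast e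
  have := Nat.le_of_dvd (by norm_num) ((ZMod.natCast_eq_zero_iff _ _).1 this)
  have := h.hn; omega

theorem Long.replace (h : Long G n f) (x : ZMod n) (l : List V) (hne : l ≠ []) (nd : l.Nodup)
    (hc : l.IsChain G.Adj) (hm : ∀ v ∈ l, v = f x ∨ v ∉ Set.range f)
    (h1 : ∀ a ∈ l.head?, G.Adj (f (x - 1)) a) (h2 : ∀ b ∈ l.getLast?, G.Adj b (f (x + 1))) :
    l.length ≤ 1 := by
  classical
  have := h.neZero
  have h1ne := h.one_ne
  have key := h.lift n h.hn (fun i => if i = x then l else [f i]) ?_ ?_ ?_ ?_ ?_
  · have e : ∑ i : ZMod n, (if i = x then l else [f i]).length =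
        ∑ i : ZMod n, (1 + if i = x then l.length - 1 else 0) := by
      refine Finset.sum_congr rfl fun i _ => ?_
      have := List.length_pos_of_ne_nil hne
      split_ifs
      · omega
      · simp
    rw [e, Finset.sum_add_distrib, Finset.sum_ite_eq'] at key
    simp at key; omega
  · intro i; split_ifs <;> simp [hne]
  · intro i; split_ifs <;> simp [nd]
  · intro i; split_ifs <;> simp [hc]
  · intro i j hij v hv hv'
    split_ifs at hv hv' with a b b
    · exact hij (a.trans b.symm)
    · rw [List.mem_singleton] at hv'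
      rcases hm v hv with e | e
      · exact b (h.inj (hv'.symm.trans e))
      · exact e ⟨j, hv'.symm⟩
    · rw [List.mem_singleton] at hv
      rcases hm v hv' with e | e
      · exact a (h.inj (hv.symm.trans e))
      · exact e ⟨i, hv.symm⟩
    · rw [List.mem_singleton] at hv hv'
      exact hij (h.inj (hv.symm.trans hv'))
  · intro i a ha b hb
    split_ifs at ha hb with p q q
    · exact absurd (by rw [p] at q; simpa using q) h1ne
    · simp at hb; subst hb; subst p; exact h2 a ha
    · simp at ha; subst ha; have := h1 b hb; rwa [← q, add_sub_cancel_right] at this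
    · simp at ha hb; subst ha; subst hb; exact h.adj i

/-- Consecutive cycle vertices do not attach to the same component. -/
theorem Long.not_att_succ (h : Long G n f) {x : ZMod n} {K : Comp G f} (h1 : Att x K)
    (h2 : Att (x + 1) K) : False := by
  obtain ⟨v, hv, hxv⟩ := h1
  obtain ⟨w, hw, hxw⟩ := h2
  obtain ⟨l, hl⟩ := seg_exists hv hw
  have hne := hl.ne_nil
  obtain ⟨nd, hc, hm, hh, ht⟩ := hl
  have := h.replace x (f x :: l) (by simp) ?_ ?_ ?_ ?_ ?_
  · have := List.length_pos_of_ne_nil hne
    rw [List.length_cons] at *; omega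
  · exact List.nodup_cons.2 ⟨fun e => (hm _ e).2 ⟨x, rfl⟩, nd⟩
  · rw [List.isChain_cons]
    exact ⟨fun y hy => by rw [hh] at hy; cases hy; exact hxv, hc⟩
  · intro u hu
    rcases List.mem_cons.1 hu with e | e
    · exact Or.inl e
    · exact Or.inr (hm _ e).2
  · intro a ha; simp at ha; subst ha
    simpa using h.adj (x - 1)
  · intro b hb
    rw [List.getLast?_cons_of_ne_nil hne, ht] at hb
    cases hb; exact hxw.symm

theorem Long.not_link_two (h : Long G n f) {x : ZMod n} {K : Comp G f}
    (h1 : Link2 K (x - 1) (x + 1)) : False := by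
  obtain ⟨v, w, hvw, hv, hw, hxv, hxw⟩ := h1
  obtain ⟨l, hl⟩ := seg_exists hv hw
  have h2 := hl.two_le hvw
  have hne := hl.ne_nil
  obtain ⟨nd, hc, hm, hh, ht⟩ := hl
  have := h.replace x l hne nd hc (fun u hu => Or.inr (hm _ hu).2)
    (fun a ha => by rw [hh] at ha; cases ha; exact hxv)
    (fun b hb => by rw [ht] at hb; cases hb; exact hxw.symm)
  omega

/-- Parity-join lemma. -/
theorem tjoin {X Y : Type} [Fintype X] [Fintype Y] (E : X → Y → Prop) (free : X → Prop)
    (hfree : ∀ x, ∃ x', free x' ∧ Relation.EqvGen (fun a b => ∃ y, E a y ∧ E b y) x x') :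
    ∃ J : X → Y → ZMod 2, (∀ x y, J x y ≠ 0 → E x y) ∧ (∀ y, ∑ x, J x y = 0) ∧
      ∀ x, ¬ free x → ∑ y, J x y = 1 := by
  classical
  have h2 : ∀ a : ZMod 2, a + a = 0 := by decide
  let P : X → X → Prop := fun x x' => ∃ j : X → Y → ZMod 2, (∀ u y, j u y ≠ 0 → E u y) ∧
    (∀ y, ∑ u, j u y = 0) ∧ ∀ u, ∑ y, j u y = (if u = x then 1 else 0) + (if u = x' then 1 else 0)
  have hP : ∀ x x', Relation.EqvGen (fun a b => ∃ y, E a y ∧ E b y) x x' → P x x' := by
    intro x x' hr
    induction hr with
    | rel a b hab =>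
      obtain ⟨y, ha, hb⟩ := hab
      refine ⟨fun u z => if z = y then (if u = a then 1 else 0) + (if u = b then 1 else 0) else 0,
        ?_, ?_, ?_⟩
      · intro u z hz
        by_cases e : z = y
        · subst e
          by_cases e1 : u = a
          · exact e1 ▸ ha
          · by_cases e2 : u = b
            · exact e2 ▸ hb
            · simp [e1, e2] at hz
        · simp [e] at hz
      · intro z
        by_cases e : z = y
        · simp only [e, if_true, Finset.sum_add_distrib, Finset.sum_ite_eq', Finset.mem_univ]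
          exact h2 1
        · simp [e]
      · intro u; simp
    | refl a => exact ⟨fun _ _ => 0, by simp, by simp, fun u => by simp [h2]⟩
    | symm a b _ ih =>
      obtain ⟨j, a1, a2, a3⟩ := ih
      exact ⟨j, a1, a2, fun u => by rw [a3, add_comm]⟩
    | trans a b c _ _ ih1 ih2 =>
      obtain ⟨j, a1, a2, a3⟩ := ih1
      obtain ⟨j', b1, b2, b3⟩ := ih2
      refine ⟨fun u y => j u y + j' u y, ?_, ?_, ?_⟩
      · intro u y hy
        by_cases e : j u y = 0
        · exact b1 u y (by simpa [e] using hy)
        · exact a1 u y e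
      · intro y; rw [Finset.sum_add_distrib, a2, b2, add_zero]
      · intro u
        rw [Finset.sum_add_distrib, a3, b3]
        have := h2 (if u = b then 1 else 0)
        linear_combination this
  choose fr hfr hrel using hfree
  choose j j1 j2 j3 using fun x => hP x (fr x) (hrel x)
  refine ⟨fun u y => ∑ x, j x u y, ?_, ?_, ?_⟩
  · intro u y hy
    obtain ⟨x, -, hx⟩ := Finset.exists_ne_zero_of_sum_ne_zero hy
    exact j1 x u y hx
  · intro y
    rw [Finset.sum_comm]; simp [j2]
  · intro u hu
    rw [Finset.sum_comm]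
    simp only [j3, Finset.sum_add_distrib, Finset.sum_ite_eq, Finset.mem_univ, if_true]
    rw [Finset.sum_eq_zero, add_zero]
    intro x _
    rw [if_neg]
    rintro rfl
    exact hu (hfr x)

end Pool.Agent.MP_ee574f_co
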