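import Pool.Agent.MP_ee574f_co.Core2
import Pool.Agent.MP_ee574f_co.Adm

set_option autoImplicit false

namespace Pool.Agent.MP_ee574f_co

open SimpleGraph Classical Finset

/-- Parity-join lemma, even classes need no free vertex. -/
theorem tjoin2 {X Y : Type} [Fintype X] [Fintype Y] (E : X → Y → Prop) (free : X → Prop)
    (hfree : ∀ x, (∃ x', free x' ∧ Relation.EqvGen (fun a b => ∃ y, E a y ∧ E b y) x x') ∨
      Even (univ.filter (fun z => Relation.EqvGen (fun a b => ∃ y, E a y ∧ E b y) x z)).card) :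
    ∃ J : X → Y → ZMod 2, (∀ x y, J x y ≠ 0 → E x y) ∧ (∀ y, ∑ x, J x y = 0) ∧
      ∀ x, ¬ free x → ∑ y, J x y = 1 := by
  set R : X → X → Prop := fun a b => ∃ y, E a y ∧ E b y with hR
  let st : Setoid X := Relation.EqvGen.setoid R
  let rep : X → Prop := fun x => x = (Quotient.mk st x).out ∧
    ¬ ∃ x', free x' ∧ Relation.EqvGen R x x'
  obtain ⟨J, j1, j2, j3⟩ := tjoin E (fun x => free x ∨ rep x) (by
    intro x
    by_cases h : ∃ x', free x' ∧ Relation.EqvGen R x x'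
    · obtain ⟨x', h1, h2⟩ := h; exact ⟨x', Or.inl h1, h2⟩
    · have e : Relation.EqvGen R x (Quotient.mk st x).out :=
        Quotient.exact (s := st) (Quotient.out_eq _).symm
      refine ⟨_, Or.inr ⟨by rw [Quotient.out_eq], ?_⟩, e⟩
      rintro ⟨x', h1, h2⟩
      exact h ⟨x', h1, .trans _ _ _ e h2⟩)
  refine ⟨J, j1, j2, fun x hx => ?_⟩
  by_cases hr : rep x
  swap; · exact j3 x (not_or.2 ⟨hx, hr⟩)
  have hev := (hfree x).resolve_left hr.2
  set S := univ.filter (fun z => Relation.EqvGen R x z) with hS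
  have hxS : x ∈ S := mem_filter.2 ⟨mem_univ _, .refl _⟩
  have h0 : ∑ z ∈ S, ∑ y, J z y = 0 := by
    rw [sum_comm]
    refine sum_eq_zero fun y _ => ?_
    by_cases h : ∃ z ∈ S, J z y ≠ 0
    · obtain ⟨z, hz, hzy⟩ := h
      rw [← j2 y]
      refine sum_subset (subset_univ _) fun w _ hw => ?_
      by_contra hwy
      exact hw (mem_filter.2 ⟨mem_univ _, .trans _ _ _ (mem_filter.1 hz).2
        (.rel _ _ ⟨y, j1 z y hzy, j1 w y hwy⟩)⟩)
    · exact sum_eq_zero fun z hz => by by_contra h'; exact h ⟨z, hz, h'⟩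
  have h1 : ∑ z ∈ S.erase x, ∑ y, J z y = ((S.erase x).card : ZMod 2) := by
    rw [card_eq_sum_ones]; push_cast
    refine sum_congr rfl fun z hz => j3 z ?_
    obtain ⟨hzx, hz⟩ := mem_erase.1 hz
    have hz' := (mem_filter.1 hz).2
    rintro (h | h)
    · exact hr.2 ⟨z, h, hz'⟩
    · exact hzx (h.1.trans ((congrArg Quotient.out (Quotient.sound (s := st) hz')).symm.trans
        hr.1.symm))
  rw [← add_sum_erase _ _ hxS, h1] at h0
  have h2 : ((S.erase x).card : ZMod 2) + 1 = 0 := by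
    have := ZMod.natCast_eq_zero_iff_even.2 hev
    rw [← card_erase_add_one hxS] at this
    exact_mod_cast this
  have h3 : ∀ a b : ZMod 2, a + b = 0 → b + 1 = 0 → a = 1 := by decide
  exact h3 _ _ h0 h2

theorem card_ne_zero_cast2 {X : Type} [Fintype X] (u : X → ZMod 2) :
    (((univ.filter (fun x => u x ≠ 0)).card : ℕ) : ZMod 2) = ∑ x, u x := by
  rw [card_filter]; push_cast
  refine sum_congr rfl fun x _ => ?_
  have : ∀ a : ZMod 2, (if a ≠ 0 then (1 : ZMod 2) else 0) = a := by decide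
  convert this (u x)

theorem run_of_local {n : ℕ} (W A : ZMod n → Prop)
    (s1 : ∀ i, A i → A (i + 1) → W i ∨ W (i + 1))
    (s2 : ∀ i, A i → A (i + 1) → W i → W (i + 1) ∨ W (i - 1))
    (s2' : ∀ i, A i → A (i + 1) → W (i + 1) → W i ∨ W (i + 2))
    (s3 : ∀ i, A i → A (i + 1) → W i → W (i + 1) →
      (W (i + 2) ∧ ¬ A (i + 2)) ∨ (W (i - 1) ∧ ¬ A (i - 1)))
    (M : ZMod n → Prop) (hM : ∀ a, M a → A a) (a : ZMod n) (ha : M a)
    (h : A (a + 1) ∨ A (a - 1)) : ∃ x, W x ∧ ¬ M x ∧ (M (x + 1) ∨ M (x - 1)) ∧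
      a ∈ ({x + 1, x + 2, x + 3, x - 1, x - 2, x - 3} : Finset (ZMod n)) := by
  have hA := hM a ha
  have e1 : a + 1 + 1 = a + 2 := by ring
  have e2 : a + 1 + 2 = a + 3 := by ring
  have e3 : a - 1 + 1 = a := by ring
  have e4 : a - 1 + 2 = a + 1 := by ring
  have e5 : a - 1 - 1 = a - 2 := by ring
  have e6 : a - 2 + 1 = a - 1 := by ring
  have e7 : a - 2 + 2 = a := by ring
  have e8 : a - 2 - 1 = a - 3 := by ring
  have e9 : a + 1 - 1 = a := by ring
  have b1 : W (a + 1) → ¬ M (a + 1) → ∃ x, W x ∧ ¬ M x ∧ (M (x + 1) ∨ M (x - 1)) ∧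
      a ∈ ({x + 1, x + 2, x + 3, x - 1, x - 2, x - 3} : Finset (ZMod n)) :=
    fun u v => ⟨_, u, v, Or.inr (by rwa [e9]), by simp⟩
  have b2 : M (a + 1) → W (a + 2) → ¬ M (a + 2) → ∃ x, W x ∧ ¬ M x ∧ (M (x + 1) ∨ M (x - 1)) ∧
      a ∈ ({x + 1, x + 2, x + 3, x - 1, x - 2, x - 3} : Finset (ZMod n)) :=
    fun t u v => ⟨_, u, v, Or.inr (by convert t using 1; ring), by simp⟩
  have b3 : M (a + 2) → W (a + 3) → ¬ M (a + 3) → ∃ x, W x ∧ ¬ M x ∧ (M (x + 1) ∨ M (x - 1)) ∧
      a ∈ ({x + 1, x + 2, x + 3, x - 1, x - 2, x - 3} : Finset (ZMod n)) :=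
    fun t u v => ⟨_, u, v, Or.inr (by convert t using 1; ring), by simp⟩
  have c1 : W (a - 1) → ¬ M (a - 1) → ∃ x, W x ∧ ¬ M x ∧ (M (x + 1) ∨ M (x - 1)) ∧
      a ∈ ({x + 1, x + 2, x + 3, x - 1, x - 2, x - 3} : Finset (ZMod n)) :=
    fun u v => ⟨_, u, v, Or.inl (by rwa [e3]), by simp⟩
  have c2 : M (a - 1) → W (a - 2) → ¬ M (a - 2) → ∃ x, W x ∧ ¬ M x ∧ (M (x + 1) ∨ M (x - 1)) ∧
      a ∈ ({x + 1, x + 2, x + 3, x - 1, x - 2, x - 3} : Finset (ZMod n)) :=
    fun t u v => ⟨_, u, v, Or.inl (by rwa [e6]), by simp⟩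
  have c3 : M (a - 2) → W (a - 3) → ¬ M (a - 3) → ∃ x, W x ∧ ¬ M x ∧ (M (x + 1) ∨ M (x - 1)) ∧
      a ∈ ({x + 1, x + 2, x + 3, x - 1, x - 2, x - 3} : Finset (ZMod n)) :=
    fun t u v => ⟨_, u, v, Or.inl (by convert t using 1; ring), by simp⟩
  have p0 := s1 a; have p1 := s1 (a - 1)
  have q0 := s2 a; have q1 := s2 (a - 1)
  have r0 := s2' a; have r1 := s2' (a - 1)
  have t0 := s3 a; have t1 := s3 (a - 1); have t2 := s3 (a + 1); have t3 := s3 (a - 2)
  simp only [e1, e2, e3, e4, e5, e6, e7, e8, e9] at p1 q1 r1 t1 t2 t3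
  have m1 := hM (a + 1); have m2 := hM (a + 2); have m3 := hM (a + 3)
  have n1 := hM (a - 1); have n2 := hM (a - 2); have n3 := hM (a - 3)
  rcases h with h | h
  · by_cases w0 : W a <;> by_cases w1 : W (a + 1)
    · rcases t0 hA h w0 w1 with ⟨u, v⟩ | ⟨u, v⟩
      · by_cases m : M (a + 1)
        · exact b2 m u fun z => v (m2 z)
        · exact b1 w1 m
      · exact c1 u fun z => v (n1 z)
    · have u := (q0 hA h w0).resolve_left w1
      by_cases m : M (a - 1)
      · rcases t1 (n1 m) hA u w0 with ⟨u', -⟩ | ⟨u', v⟩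
        · exact absurd u' w1
        · exact c2 m u' fun z => v (n2 z)
      · exact c1 u m
    · by_cases m : M (a + 1)
      swap; · exact b1 w1 m
      have u := (r0 hA h w1).resolve_left w0
      by_cases m' : M (a + 2)
      swap; · exact b2 m u m'
      rcases t2 h (m2 m') w1 u with ⟨u', v⟩ | ⟨u', -⟩
      · exact b3 m' u' fun z => v (m3 z)
      · exact absurd u' w0
    · exact absurd (p0 hA h) (not_or.2 ⟨w0, w1⟩)
  · by_cases w0 : W a <;> by_cases w1 : W (a - 1)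
    · rcases t1 h hA w1 w0 with ⟨u, v⟩ | ⟨u, v⟩
      · exact b1 u fun z => v (m1 z)
      · by_cases m : M (a - 1)
        · exact c2 m u fun z => v (n2 z)
        · exact c1 w1 m
    · have u := (r1 h hA w0).resolve_left w1
      by_cases m : M (a + 1)
      · rcases t0 hA (m1 m) w0 u with ⟨u', v⟩ | ⟨u', -⟩
        · exact b2 m u' fun z => v (m2 z)
        · exact absurd u' w1
      · exact b1 u m
    · by_cases m : M (a - 1)
      swap; · exact c1 w1 m
      have u := (q1 h hA w1).resolve_left w0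
      by_cases m' : M (a - 2)
      swap; · exact c2 m u m'
      rcases t3 (n2 m') h u w1 with ⟨u', -⟩ | ⟨u', v⟩
      · exact absurd u' w0
      · exact c3 m' u' fun z => v (n3 z)
    · exact absurd (p1 h hA) (not_or.2 ⟨w1, w0⟩)

variable {V : Type} [Fintype V] {G : SimpleGraph V} {n : ℕ} [NeZero n] {f : ZMod n → V}

omit [Fintype V] in
/-- Final assembly from a good set of sinks. -/
theorem finish2 (hL : Long G n f) (k : ℕ) {P : Type} [Fintype P] (T : P → V → Prop)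
    (Ad : P → ZMod n → Prop)
    (t1 : ∀ p v, T p v → v ∉ Set.range f ∧ (attS ((Out G f).connectedComponentMk v)).card < k)
    (t2 : ∀ p p' v, T p v → T p' v → p = p')
    (a2 : ∀ p x y, Ad p x → Ad p y → x ≠ y → Link G f (T p) x y)
    (A : ZMod n → Prop) (hn : ∃ x, ¬ A x ∧ x ≠ 0 ∧ x ≠ 1)
    (hrun : ∀ M : ZMod n → Prop, (∀ a, M a → A a) → ∀ a, M a → (A (a + 1) ∨ A (a - 1)) →
      ∃ x, ¬ Lv G f k x ∧ ¬ M x ∧ (M (x + 1) ∨ M (x - 1)) ∧
        a ∈ ({x + 1, x + 2, x + 3, x - 1, x - 2, x - 3} : Finset (ZMod n)))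
    (hroot : ∀ K : Comp G f, k ≤ (attS K).card → ∃ s, Att s K ∧ A s)
    (hfree : ∀ x, (∃ x', (Lv G f k x' ∨ A x') ∧
      Relation.EqvGen (fun a b => ∃ p, Ad p a ∧ Ad p b) x x') ∨
      Even (univ.filter (fun z => Relation.EqvGen (fun a b => ∃ p, Ad p a ∧ Ad p b) x z)).card) :
    False := by
  obtain ⟨J, j1, j2, j3⟩ := tjoin2 (fun x p => Ad p x) (fun x => Lv G f k x ∨ A x)
    (by convert hfree)
  have h1 : ∀ x, ∃ K : Comp G f, Lv G f k x → k ≤ (attS K).card ∧ Att x K := by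
    intro x
    by_cases h : Lv G f k x
    · obtain ⟨K, hK⟩ := h; exact ⟨K, fun _ => hK⟩
    · exact ⟨(Out G f).connectedComponentMk (f 0), fun h' => absurd h' h⟩
  choose hs hhs using h1
  have h2 : ∀ K : Comp G f, ∃ s, k ≤ (attS K).card → Att s K ∧ A s := by
    intro K
    by_cases h : k ≤ (attS K).card
    · obtain ⟨s, hs⟩ := hroot K h; exact ⟨s, fun _ => hs⟩
    · exact ⟨0, fun h' => absurd h' h⟩
  choose ρ hρ using h2
  let D : Dat2 G f P :=
    { A := A
      W := fun x => ¬ Lv G f k x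
      gr := fun x => Lv G f k x ∧ ¬ A x ∧ Even (univ.filter (fun K => J x K ≠ 0)).card
      hs := hs
      ρ := ρ
      T := T
      J := fun x K => J x K ≠ 0
      grA := fun x h => h.2.1
      grAtt := fun x h => (hhs x h.1).2
      rootA := fun x h => (hρ _ (hhs x h.1).1).2
      rootAtt := fun x h => (hρ _ (hhs x h.1).1).1
      Tout := fun p v h => (t1 p v h).1
      Tdis := t2
      JLink := fun x y K h h' => a2 K x y (j1 x K h) (j1 y K h')
      Tsep := fun p v y h h' e => by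
        have := (t1 p v h).2
        have h3 := (hhs y h'.1).1
        rw [e.1] at this; omega
      Wgr := fun x h h' => h h'.1
      Wroot := fun x y h h' e => h ⟨_, (hhs y h'.1).1, e ▸ (hρ _ (hhs y h'.1).1).1⟩
      run := hrun }
  refine D.core hL hn (fun K => ?_) (fun x hx => ?_)
  · rw [← ZMod.natCast_eq_zero_iff_even]
    convert (card_ne_zero_cast2 (fun x => J x K)).trans (j2 K)
  · suffices h : Odd ((univ.filter (fun K => J x K ≠ 0)).card + if D.gr x then 1 else 0) by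
      convert h
    by_cases hl : Lv G f k x
    · by_cases he : Even (univ.filter (fun K => J x K ≠ 0)).card
      · rw [if_pos (show D.gr x from ⟨hl, hx, he⟩)]; exact he.add_one
      · rw [if_neg (fun h : D.gr x => he h.2.2), add_zero]; exact Nat.not_even_iff_odd.1 he
    · rw [if_neg (fun h : D.gr x => hl h.1), add_zero, ← ZMod.natCast_eq_one_iff_odd]
      exact (card_ne_zero_cast2 (fun K => J x K)).trans (j3 x (not_or.2 ⟨hl, hx⟩))

end Pool.Agent.MP_ee574f_co
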