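import Mathlib

/-! Independent options on a cycle by two rounds of Hall's theorem. -/

set_option autoImplicit false

namespace Pool.Agent.MP_ee574f_co

namespace Opt

open Finset

variable {α : Type} [DecidableEq α]

/-- `x` is the only element of `U` in its slot. -/
def Alone (U : Finset α) (blk : α → ℕ) (x : α) : Prop := ∀ y ∈ U, blk y = blk x → y = x

theorem round {γ : Type} [Fintype γ] (U : Finset α) (blk : α → ℕ)
    (hU : ∀ b, (U.filter fun x => blk x = b).card ≤ 2) (S : γ → Finset α)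
    (hS : ∀ g, S g ⊆ U) (hd : ∀ g g', g ≠ g' → Disjoint (S g) (S g'))
    (hg : ∀ g, 2 ≤ (S g).card ∨ ∃ x ∈ S g, Alone U blk x) :
    ∃ s : γ → α, (∀ g, s g ∈ S g) ∧ Function.Injective fun g => blk (s g) := by
  classical
  let w : α → ℕ := fun x => if Alone U blk x then 2 else 1
  have w1 : ∀ x, 1 ≤ w x := fun x => by
    simp only [w]
    split_ifs <;> omega
  have h1 : ∀ g, 2 ≤ ∑ x ∈ S g, w x := fun g => by
    rcases hg g with h | ⟨x, hx, h⟩
    · exact h.trans (by simpa using card_nsmul_le_sum (S g) w 1 fun x _ => w1 x)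
    · exact le_trans (by simp [w, h]) (single_le_sum (f := w) (fun _ _ => Nat.zero_le _) hx)
  have h2 : ∀ b, ∑ x ∈ U.filter (fun x => blk x = b), w x ≤ 2 := fun b => by
    by_cases h : ∃ x ∈ U.filter (fun x => blk x = b), Alone U blk x
    · obtain ⟨x, hx, h⟩ := h
      have e : U.filter (fun x => blk x = b) = {x} :=
        eq_singleton_iff_unique_mem.2 ⟨hx, fun y hy => h y (mem_filter.1 hy).1
          ((mem_filter.1 hy).2.trans (mem_filter.1 hx).2.symm)⟩
      rw [e, sum_singleton]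
      simp [w, h]
    · rw [sum_congr rfl (g := fun _ => 1) fun x hx => if_neg fun a => h ⟨x, hx, a⟩]
      simpa using hU b
  obtain ⟨f, hf, hf'⟩ := (all_card_le_biUnion_card_iff_exists_injective
    (fun g => (S g).image blk)).1 fun X => by
      have a : X.card * 2 ≤ ∑ g ∈ X, ∑ x ∈ S g, w x := by
        simpa using card_nsmul_le_sum X _ 2 fun g _ => h1 g
      rw [← sum_biUnion fun g _ g' _ h => hd g g' h] at a
      have m : ∀ x ∈ X.biUnion S, blk x ∈ X.biUnion fun g => (S g).image blk := fun x hx => by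
        obtain ⟨g, hg, hx⟩ := mem_biUnion.1 hx
        exact mem_biUnion.2 ⟨g, hg, mem_image_of_mem _ hx⟩
      rw [← sum_fiberwise_of_maps_to m] at a
      have b := sum_le_card_nsmul (X.biUnion fun g => (S g).image blk)
        (fun b => ∑ x ∈ (X.biUnion S).filter (fun x => blk x = b), w x) 2 fun b _ =>
          le_trans (sum_le_sum_of_subset (filter_subset_filter _
            (biUnion_subset.2 fun g _ => hS g))) (h2 b)
      simp only [smul_eq_mul] at b
      omega
  choose s hs hs' using fun g => mem_image.1 (hf' g)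
  exact ⟨s, hs, by simpa only [hs'] using hf⟩

omit [DecidableEq α] in
theorem disj_sum {γ : Type} {G A B : γ → Finset α} (p : γ → Prop)
    (hd : ∀ g g', g ≠ g' → Disjoint (G g) (G g')) (hA : ∀ g, A g ⊆ G g) (hB : ∀ g, B g ⊆ G g)
    (hAB : ∀ g, Disjoint (A g) (B g)) (i j : γ ⊕ {g // p g}) (h : i ≠ j) :
    Disjoint (Sum.elim A (fun g => B g.1) i) (Sum.elim A (fun g => B g.1) j) := by
  rcases i with i | i <;> rcases j with j | j
  · exact (hd i j fun e => h (by rw [e])).mono (hA i) (hA j)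
  · by_cases e : i = j.1
    · subst e
      exact hAB _
    · exact (hd i j e).mono (hA i) (hB j)
  · by_cases e : j = i.1
    · subst e
      exact (hAB _).symm
    · exact (hd i j (Ne.symm e)).mono (hB i) (hA j)
  · exact (hd i j fun e => h (by rw [Subtype.ext e])).mono (hB i) (hB j)

/-- Groups that survive two rounds. -/
def Good (U : Finset α) (b₁ b₂ : α → ℕ) (G : Finset α) : Prop :=
  4 ≤ G.card ∨ (2 ≤ G.card ∧ ∀ x ∈ G, Alone U b₁ x) ∨ (2 ≤ G.card ∧ ∀ x ∈ G, Alone U b₂ x)

theorem two {γ : Type} [Fintype γ] (U : Finset α) (b₁ b₂ : α → ℕ)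
    (h₁ : ∀ b, (U.filter fun x => b₁ x = b).card ≤ 2)
    (h₂ : ∀ b, (U.filter fun x => b₂ x = b).card ≤ 2) (G : γ → Finset α)
    (hG : ∀ g, G g ⊆ U) (hd : ∀ g g', g ≠ g' → Disjoint (G g) (G g'))
    (hg : ∀ g, Good U b₁ b₂ (G g)) :
    ∃ s : γ → α, (∀ g, s g ∈ G g) ∧ (Function.Injective fun g => b₁ (s g)) ∧
      Function.Injective fun g => b₂ (s g) := by
  classical
  let q : Finset α → Prop := fun S => 2 ≤ S.card ∨ ∃ x ∈ S, Alone U b₁ x
  have ex : ∀ g, ∃ A B : Finset α, A ⊆ G g ∧ B ⊆ G g ∧ Disjoint A B ∧ q A ∧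
      (q B ∨ ∀ x ∈ A, Alone U b₂ x) := fun g => by
    rcases hg g with h | ⟨h, h'⟩ | ⟨h, h'⟩
    · obtain ⟨A, hA, hc⟩ := exists_subset_card_eq (show 2 ≤ (G g).card by omega)
      refine ⟨A, G g \ A, hA, sdiff_subset, disjoint_sdiff, Or.inl hc.ge, Or.inl (Or.inl ?_)⟩
      rw [card_sdiff_of_subset hA]
      omega
    · obtain ⟨x, hx, y, hy, hxy⟩ := one_lt_card.1 h
      exact ⟨{x}, {y}, by simpa, by simpa, by simpa, Or.inr ⟨x, by simp, h' x hx⟩,
        Or.inl (Or.inr ⟨y, by simp, h' y hy⟩)⟩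
    · exact ⟨G g, ∅, le_rfl, by simp, by simp, Or.inl h, Or.inr h'⟩
  choose A B hA hB hAB qA qB using ex
  obtain ⟨s, hs, hi⟩ := round (γ := γ ⊕ {g // q (B g)}) U b₁ h₁ (Sum.elim A fun g => B g.1)
    (by rintro (g | g); exacts [(hA g).trans (hG g), (hB g).trans (hG g)])
    (disj_sum _ hd hA hB hAB) (by rintro (g | g); exacts [qA g, g.2])
  let π : γ ⊕ {g // q (B g)} → γ := Sum.elim id Subtype.val
  have hπ : ∀ i, s i ∈ G (π i) := by
    rintro (g | g)
    exacts [hA g (hs (.inl g)), hB g (hs (.inr g))]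
  have sub : ∀ g, (univ.filter fun i => π i = g).image s ⊆ G g := fun g x hx => by
    obtain ⟨i, hi, rfl⟩ := mem_image.1 hx
    exact (mem_filter.1 hi).2 ▸ hπ i
  obtain ⟨t, ht, hj⟩ := round U b₂ h₂ (fun g => (univ.filter fun i => π i = g).image s)
    (fun g => (sub g).trans (hG g)) (fun g g' h => (hd g g' h).mono (sub g) (sub g')) fun g => by
      have m : s (.inl g) ∈ (univ.filter fun i => π i = g).image s :=
        mem_image_of_mem _ (mem_filter.2 ⟨mem_univ _, rfl⟩)
      rcases qB g with h | h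
      · refine Or.inl (one_lt_card.2 ⟨_, m, s (.inr ⟨g, h⟩),
          mem_image_of_mem _ (mem_filter.2 ⟨mem_univ _, rfl⟩), fun e => ?_⟩)
        exact Sum.inl_ne_inr (hi (congrArg b₁ e))
      · exact Or.inr ⟨_, m, h _ (hs (.inl g))⟩
  refine ⟨t, fun g => sub g (ht g), fun g g' e => ?_, hj⟩
  obtain ⟨i, hi₁, hi₂⟩ := mem_image.1 (ht g)
  obtain ⟨j, hj₁, hj₂⟩ := mem_image.1 (ht g')
  have : i = j := hi (by simpa only [hi₂, hj₂] using e)
  rw [← (mem_filter.1 hi₁).2, ← (mem_filter.1 hj₁).2, this]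

end Opt

open Finset Opt in
theorem options (n : ℕ) [NeZero n] {κ : Type} [Fintype κ] (cand : κ → Finset (ZMod n))
    (L : ZMod n → Prop) (hc : ∀ k, 6 ≤ (cand k).card)
    (hd : ∀ k k', k ≠ k' → Disjoint (cand k) (cand k'))
    (hL : ∀ k, ∀ v ∈ cand k, ¬ L v) :
    ∃ o : κ → Bool → ZMod n, (∀ k b, o k b ∈ cand k) ∧
      (∀ k b k' b', o k' b' ≠ o k b + 1) ∧
      (∀ k, o k false = o k true → ¬ L (o k false + 1) ∧ ¬ L (o k false - 1)) := by
  classical
  obtain ⟨l, hl⟩ : ∃ l, L l ∨ ∀ v, ¬ L v := by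
    by_cases h : ∃ l, L l
    · exact h.imp fun l h => Or.inl h
    · exact ⟨0, Or.inr fun v hv => h ⟨v, hv⟩⟩
  let t : ZMod n → ℕ := fun v => (v - l).val
  have tinj : ∀ x y, t x = t y → x = y := fun x y h => sub_left_injective (ZMod.val_injective n h)
  have tsucc : ∀ x y, t y = t x + 1 → y = x + 1 := fun x y h => by
    have e := congrArg (Nat.cast : ℕ → ZMod n) h
    simp only [t, Nat.cast_add, ZMod.natCast_val, ZMod.cast_id', id, Nat.cast_one] at e
    linear_combination e
  have tsucc' : ∀ x, x + 1 ≠ l → t (x + 1) = t x + 1 := fun x h => by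
    have e : x + 1 - l = ((t x + 1 : ℕ) : ZMod n) := by
      simp only [t, Nat.cast_add, ZMod.natCast_val, ZMod.cast_id', id, Nat.cast_one]
      ring
    have lt : t x < n := ZMod.val_lt _
    have ne : t x + 1 ≠ n := fun e' => h (by
      rw [e', ZMod.natCast_self] at e
      exact sub_eq_zero.1 e)
    show (x + 1 - l).val = _
    rw [e, ZMod.val_cast_of_lt (by omega)]
  let U : Finset (ZMod n) := univ.filter fun v => ¬ L v ∧ v ≠ l
  let b₁ : ZMod n → ℕ := fun v => t v / 2
  let b₂ : ZMod n → ℕ := fun v => (t v + 1) / 2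
  have h₁ : ∀ b, (U.filter fun x => b₁ x = b).card ≤ 2 := fun b =>
    (card_le_card_of_injOn (t := {2 * b, 2 * b + 1}) t (fun x hx => by
      have : t x / 2 = b := (mem_filter.1 (mem_coe.1 hx)).2
      simp only [coe_insert, coe_singleton, Set.mem_insert_iff, Set.mem_singleton_iff]
      omega) fun x _ y _ => tinj x y).trans card_le_two
  have h₂ : ∀ b, (U.filter fun x => b₂ x = b).card ≤ 2 := fun b =>
    (card_le_card_of_injOn (t := {2 * b - 1, 2 * b}) t (fun x hx => by
      have : (t x + 1) / 2 = b := (mem_filter.1 (mem_coe.1 hx)).2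
      simp only [coe_insert, coe_singleton, Set.mem_insert_iff, Set.mem_singleton_iff]
      omega) fun x _ y _ => tinj x y).trans card_le_two
  let calm : ZMod n → Prop := fun v => ¬ L (v + 1) ∧ ¬ L (v - 1)
  have nc : ∀ v, ¬ calm v → Alone U b₁ v ∨ Alone U b₂ v := fun v hv => by
    by_contra h
    simp only [Alone, not_or, not_forall] at h
    obtain ⟨⟨x, hx, ex, nx⟩, ⟨y, hy, ey, ny⟩⟩ := h
    have ex' : t x / 2 = t v / 2 := ex
    have ey' : (t y + 1) / 2 = (t v + 1) / 2 := ey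
    have nx' : t x ≠ t v := fun e => nx (tinj _ _ e)
    have ny' : t y ≠ t v := fun e => ny (tinj _ _ e)
    have Lx := (mem_filter.1 hx).2.1
    have Ly := (mem_filter.1 hy).2.1
    apply hv
    rcases (by omega : (t x = t v + 1 ∧ t v = t y + 1) ∨ (t y = t v + 1 ∧ t v = t x + 1)) with
      ⟨a, b⟩ | ⟨a, b⟩
    · exact ⟨tsucc _ _ a ▸ Lx, by rwa [tsucc _ _ b, add_sub_cancel_right]⟩
    · exact ⟨tsucc _ _ a ▸ Ly, by rwa [tsucc _ _ b, add_sub_cancel_right]⟩
  have ex : ∀ k, ∃ A B : Finset (ZMod n), A ⊆ (cand k).erase l ∧ B ⊆ (cand k).erase l ∧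
      Disjoint A B ∧ Good U b₁ b₂ A ∧ (Good U b₁ b₂ B ∨ ∀ x ∈ A, calm x) := fun k => by
    by_cases h : 4 ≤ (((cand k).erase l).filter calm).card
    · exact ⟨_, ∅, filter_subset _ _, by simp, by simp, Or.inl h,
        Or.inr fun x hx => (mem_filter.1 hx).2⟩
    have c5 := pred_card_le_card_erase (s := cand k) (a := l)
    have c6 := hc k
    have hl' : L l := hl.resolve_right fun hn => h (by
      rw [filter_true_of_mem fun x _ => ⟨hn _, hn _⟩]
      omega)
    rw [erase_eq_of_notMem fun hm => hL k l hm hl'] at h ⊢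
    have c := card_filter_add_card_filter_not (s := cand k) calm
    have c' : ((cand k).filter fun x => ¬ calm x).card ≤
        ((cand k).filter (Alone U b₁)).card + ((cand k).filter (Alone U b₂)).card :=
      (card_le_card fun x hx => by
        rw [mem_filter] at hx
        simp only [mem_union, mem_filter, hx.1, true_and]
        exact nc x hx.2).trans (card_union_le _ _)
    obtain ⟨B, hB, hc, hg⟩ : ∃ B ⊆ cand k, B.card = 2 ∧ Good U b₁ b₂ B := by
      rcases (by omega : 2 ≤ ((cand k).filter (Alone U b₁)).card ∨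
        2 ≤ ((cand k).filter (Alone U b₂)).card) with a | a
      · obtain ⟨B, hB, hc⟩ := exists_subset_card_eq a
        exact ⟨B, hB.trans (filter_subset _ _), hc,
          Or.inr (Or.inl ⟨hc.ge, fun x hx => (mem_filter.1 (hB hx)).2⟩)⟩
      · obtain ⟨B, hB, hc⟩ := exists_subset_card_eq a
        exact ⟨B, hB.trans (filter_subset _ _), hc,
          Or.inr (Or.inr ⟨hc.ge, fun x hx => (mem_filter.1 (hB hx)).2⟩)⟩
    refine ⟨cand k \ B, B, sdiff_subset, hB, sdiff_disjoint, Or.inl ?_, Or.inl hg⟩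
    rw [card_sdiff_of_subset hB]
    omega
  choose A B hA hB hAB gA gB using ex
  have hU : ∀ k, (cand k).erase l ⊆ U := fun k x hx =>
    mem_filter.2 ⟨mem_univ _, hL k x (mem_of_mem_erase hx), ne_of_mem_erase hx⟩
  obtain ⟨s, hs, i₁, i₂⟩ := two (γ := κ ⊕ {k // Good U b₁ b₂ (B k)}) U b₁ b₂ h₁ h₂
    (Sum.elim A fun g => B g.1)
    (by rintro (g | g); exacts [(hA g).trans (hU g), (hB g).trans (hU g)])
    (disj_sum _ (fun k k' h => (hd k k' h).mono (erase_subset _ _) (erase_subset _ _)) hA hB hAB)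
    (by rintro (g | g); exacts [gA g, g.2])
  let ι : κ → Bool → κ ⊕ {k // Good U b₁ b₂ (B k)} := fun k b =>
    if h : b = true ∧ Good U b₁ b₂ (B k) then .inr ⟨k, h.2⟩ else .inl k
  have mem : ∀ k b, s (ι k b) ∈ (cand k).erase l := fun k b => by
    simp only [ι]
    split_ifs with h
    exacts [hB k (hs (.inr ⟨k, h.2⟩)), hA k (hs (.inl k))]
  refine ⟨fun k b => s (ι k b), fun k b => mem_of_mem_erase (mem k b), fun k b k' b' e => ?_,
    fun k e => ?_⟩
  · have e' : s (ι k' b') = s (ι k b) + 1 := e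
    have a : t (s (ι k' b')) = t (s (ι k b)) + 1 := by
      rw [e']
      exact tsucc' _ (e' ▸ ne_of_mem_erase (mem k' b'))
    have : ι k' b' = ι k b := by
      rcases (by omega : t (s (ι k' b')) / 2 = t (s (ι k b)) / 2 ∨
        (t (s (ι k' b')) + 1) / 2 = (t (s (ι k b)) + 1) / 2) with c | c
      exacts [i₁ c, i₂ c]
    rw [this] at a
    omega
  · have f : ι k false = .inl k := dif_neg (by simp)
    have e' : s (ι k false) = s (ι k true) := e
    rcases gB k with h | h
    · have f' : ι k true = .inr ⟨k, h⟩ := dif_pos ⟨rfl, h⟩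
      rw [f, f'] at e'
      exact absurd (i₁ (congrArg b₁ e')) Sum.inl_ne_inr
    · show calm (s (ι k false))
      rw [f]
      exact h _ (hs (.inl k))

end Pool.Agent.MP_ee574f_co
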