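import Pool.Agent.MP_ee574f_co.Core
import Pool.Agent.MP_ee574f_co.Adm
import Pool.Agent.MP_ee574f_co.LLL
import Pool.Agent.MP_ee574f_co.Options

set_option autoImplicit false

namespace Pool.Agent.MP_ee574f_co

open SimpleGraph Classical Finset

variable {V : Type} [Fintype V] {G : SimpleGraph V} {n : ℕ} [NeZero n] {f : ZMod n → V}

theorem card_ne_zero_cast {X : Type} [Fintype X] (u : X → ZMod 2) :
    (((univ.filter (fun x => u x ≠ 0)).card : ℕ) : ZMod 2) = ∑ x, u x := by
  rw [card_filter]; push_cast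
  refine sum_congr rfl fun x _ => ?_
  have : ∀ a : ZMod 2, (if a ≠ 0 then (1 : ZMod 2) else 0) = a := by decide
  convert this (u x)

/-- Final assembly from a good set of sinks. -/
theorem finish (hL : Long G n f) (hn : 4 ≤ n) (k : ℕ) (Ad : Comp G f → Finset (ZMod n))
    (a1 : ∀ K, ∀ x ∈ Ad K, Att x K) (a2 : ∀ K, ∀ x ∈ Ad K, ∀ y ∈ Ad K, x ≠ y → Link2 K x y)
    (A : ZMod n → Prop) (hind : ∀ i, A i → ¬ A (i + 1))
    (hroot : ∀ K : Comp G f, k ≤ (attS K).card → ∃ s, Att s K ∧ A s)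
    (hfree : ∀ x, ∃ x', (Lv G f k x' ∨ A x') ∧ Relation.EqvGen
      (fun a b => ∃ K, ((attS K).card < k ∧ a ∈ Ad K) ∧ ((attS K).card < k ∧ b ∈ Ad K)) x x') :
    False := by
  obtain ⟨J, j1, j2, j3⟩ := tjoin (fun x K => (attS K).card < k ∧ x ∈ Ad K)
    (fun x => Lv G f k x ∨ A x) hfree
  have h1 : ∀ x, ∃ K : Comp G f, Lv G f k x → k ≤ (attS K).card ∧ Att x K := by
    intro x
    by_cases h : Lv G f k x
    · obtain ⟨K, hK⟩ := h; exact ⟨K, fun _ => hK⟩
    · exact ⟨(Out G f).connectedComponentMk (f 0), fun h' => absurd h' h⟩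
  choose hs hhs using h1
  have h2 : ∀ K : Comp G f, ∃ s, k ≤ (attS K).card → Att s K ∧ A s := by
    intro K
    by_cases h : k ≤ (attS K).card
    · obtain ⟨s, hs⟩ := hroot K h; exact ⟨s, fun _ => hs⟩
    · exact ⟨0, fun h' => absurd h' h⟩
  choose ρ hρ using h2
  let D : Dat G f :=
    { A := A
      gr := fun x => Lv G f k x ∧ ¬ A x ∧ Even (univ.filter (fun K => J x K ≠ 0)).card
      hs := hs
      ρ := ρ
      J := fun x K => J x K ≠ 0
      ind := hind
      grA := fun x h => h.2.1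
      grAtt := fun x h => (hhs x h.1).2
      rootA := fun x h => (hρ _ (hhs x h.1).1).2
      rootAtt := fun x h => (hρ _ (hhs x h.1).1).1
      JAtt := fun x K h => a1 K x (j1 x K h).2
      JLink := fun x y K h h' => a2 K x (j1 x K h).2 y (j1 y K h').2
      Jsep := fun x y K h h' e => by
        have := (j1 x K h).1
        have h3 := (hhs y h'.1).1
        rw [e] at h3; omega }
  refine D.core hL hn (fun K => ?_) (fun x hx => ?_)
  · rw [← ZMod.natCast_eq_zero_iff_even]
    convert (card_ne_zero_cast (fun x => J x K)).trans (j2 K)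
  · suffices h : Odd ((univ.filter (fun K => J x K ≠ 0)).card + if D.gr x then 1 else 0) by
      convert h
    by_cases hl : Lv G f k x
    · by_cases he : Even (univ.filter (fun K => J x K ≠ 0)).card
      · rw [if_pos (show D.gr x from ⟨hl, hx, he⟩)]; exact he.add_one
      · rw [if_neg (fun h : D.gr x => he h.2.2), add_zero]; exact Nat.not_even_iff_odd.1 he
    · rw [if_neg (fun h : D.gr x => hl h.1), add_zero, ← ZMod.natCast_eq_one_iff_odd]
      exact (card_ne_zero_cast (fun K => J x K)).trans (j3 x (not_or.2 ⟨hl, hx⟩))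

/-- Random choice of the sinks. -/
theorem sinks (hL : Long G n f) (Δ L : ℕ) (hL7 : 7 ≤ L) (hΔ : Δ ≤ 2 ^ L)
    (hdeg : ∀ v, G.degree v ≤ Δ) {κ : Type} [Fintype κ] (o : κ → Bool → ZMod n)
    (o1 : ∀ q b q' b', o q b = o q' b' → q = q')
    (o2 : ∀ q b q' b', o q' b' ≠ o q b + 1)
    (o3 : ∀ q s, Lv G f (429 * L) s → ∃ b, o q b ≠ s - 1 ∧ o q b ≠ s + 1) :
    ∃ A : ZMod n → Prop, (∀ i, A i → ¬ A (i + 1)) ∧
      (∀ K : Comp G f, 429 * L ≤ (attS K).card → ∃ s, Att s K ∧ A s) ∧ ∀ q, ∃ b, A (o q b) := by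
  let good : ZMod n → (ZMod n ⊕ κ → Bool) → Prop := fun s ω =>
    ω (.inl s) = true ∧ ω (.inl (s - 1)) = false ∧
      ∀ q, o q (ω (.inr q)) ≠ s - 1 ∧ o q (ω (.inr q)) ≠ s + 1
  let vars : ZMod n → Finset (ZMod n ⊕ κ) := fun s =>
    {.inl s, .inl (s - 1)} ∪ ((univ.filter (fun q => ∃ b, o q b = s - 1)).image .inr ∪
      (univ.filter (fun q => ∃ b, o q b = s + 1)).image .inr)
  have hone : ∀ v, ((univ.filter (fun q => ∃ b, o q b = v)).image
      (Sum.inr : κ → ZMod n ⊕ κ)).card ≤ 1 := by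
    intro v
    refine card_image_le.trans (card_le_one.2 ?_)
    intro q hq q' hq'
    obtain ⟨b, e⟩ := (mem_filter.1 hq).2
    obtain ⟨b', e'⟩ := (mem_filter.1 hq').2
    exact o1 q b q' b' (e.trans e'.symm)
  have key := lll_atoms (η := {K : Comp G f // 429 * L ≤ (attS K).card}) vars
    (fun s ω => ¬ good s ω) (fun K => attS K.1) Δ L hL7 hΔ ?_ ?_ ?_ ?_ ?_ (fun K => K.2)
  · obtain ⟨ω, hω⟩ := key
    refine ⟨fun s => good s ω ∨ ∃ q, s = o q (ω (.inr q)), ?_, ?_, fun q => ⟨_, Or.inr ⟨q, rfl⟩⟩⟩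
    · rintro i (h | ⟨q, h⟩) (h' | ⟨q', h'⟩)
      · have := h'.2.1; rw [add_sub_cancel_right, h.1] at this; cases this
      · exact (h.2.2 q').2 h'.symm
      · exact (h'.2.2 q).1 (by rw [← h]; ring)
      · exact o2 q _ q' _ (by rw [← h', ← h])
    · intro K hK
      obtain ⟨s, hs, hg⟩ := hω ⟨K, hK⟩
      exact ⟨s, (mem_filter.1 hs).2, Or.inl (not_not.1 hg)⟩
  · intro s
    have h1 := hone (s - 1)
    have h2 := hone (s + 1)
    have h3 : ({.inl s, .inl (s - 1)} : Finset (ZMod n ⊕ κ)).card ≤ 2 := card_le_two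
    refine (card_union_le _ _).trans ?_
    have h4 := card_union_le ((univ.filter (fun q => ∃ b, o q b = s - 1)).image
      (Sum.inr : κ → ZMod n ⊕ κ)) ((univ.filter (fun q => ∃ b, o q b = s + 1)).image .inr)
    omega
  · intro s ω ω' h hg hg'
    refine hg ⟨?_, ?_, fun q => ⟨fun e => ?_, fun e => ?_⟩⟩
    · rw [h _ (by simp [vars])]; exact hg'.1
    · rw [h _ (by simp [vars])]; exact hg'.2.1
    · have := h (.inr q) (mem_union_right _ (mem_union_left _
        (mem_image_of_mem _ (mem_filter.2 ⟨mem_univ _, _, e⟩))))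
      exact (hg'.2.2 q).1 (this ▸ e)
    · have := h (.inr q) (mem_union_right _ (mem_union_right _
        (mem_image_of_mem _ (mem_filter.2 ⟨mem_univ _, _, e⟩))))
      exact (hg'.2.2 q).2 (this ▸ e)
  · intro K s hs
    have hs' : Lv G f (429 * L) s := ⟨K.1, K.2, (mem_filter.1 hs).2⟩
    choose b hb using fun q => o3 q s hs'
    refine ⟨Sum.elim (fun v => decide (v = s)) b, not_not.2 ⟨by simp, ?_, fun q => hb q⟩⟩
    have : s - 1 ≠ s := fun e => hL.one_ne (by linear_combination -e)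
    simp [this]
  · rintro (v | q)
    · refine le_trans (card_le_card (t := {v, v + 1}) ?_) (card_le_two.trans (by norm_num))
      intro s hs
      have := (mem_filter.1 hs).2
      simp only [vars, mem_union, mem_insert, mem_singleton, Sum.inl.injEq, mem_image,
        reduceCtorEq, and_false, exists_false, or_false] at this
      rcases this with rfl | rfl <;> simp
    · refine le_trans (card_le_card
        (t := {o q true + 1, o q false + 1, o q true - 1, o q false - 1}) ?_) card_le_four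
      intro s hs
      have := (mem_filter.1 hs).2
      simp only [vars, mem_union, mem_insert, mem_singleton, mem_image, mem_filter, mem_univ,
        true_and, reduceCtorEq, false_or, Sum.inr.injEq, exists_eq_right] at this
      rcases this with ⟨b, e⟩ | ⟨b, e⟩
      · have : s = o q b + 1 := by rw [e]; ring
        cases b <;> simp [this]
      · have : s = o q b - 1 := by rw [e]; ring
        cases b <;> simp [this]
  · intro s
    refine le_trans ?_ (hdeg (f s))
    rw [← card_neighborFinset_eq_degree]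
    have : ∀ K : {K : Comp G f // 429 * L ≤ (attS K).card}, ∃ v, s ∈ attS K.1 →
        Mem v K.1 ∧ G.Adj (f s) v := by
      intro K
      by_cases h : s ∈ attS K.1
      · obtain ⟨v, hv⟩ := (mem_filter.1 h).2; exact ⟨v, fun _ => hv⟩
      · exact ⟨f 0, fun h' => absurd h' h⟩
    choose w hw using this
    refine card_le_card_of_injOn w ?_ ?_
    · intro K hK
      exact mem_coe.2 ((mem_neighborFinset _ _ _).2 (hw K (mem_filter.1 (mem_coe.1 hK)).2).2)
    · intro K hK K' hK' e
      have h1 := (hw K (mem_filter.1 (mem_coe.1 hK)).2).1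
      have h2 := (hw K' (mem_filter.1 (mem_coe.1 hK')).2).1
      exact Subtype.ext (h1.unique (e ▸ h2))

theorem six_conn (hL : Long G n f) (Δ L : ℕ) (hL7 : 7 ≤ L) (hΔ : Δ ≤ 2 ^ L)
    (hdeg : ∀ v, G.degree v ≤ Δ) (hδ : ∀ v, 429 * L + 6 ≤ G.degree v)
    (hconn : ∀ S : Finset V, S.card < 6 → (G.induce ((↑S : Set V)ᶜ)).Connected) : False := by
  set k := 429 * L with hk
  obtain ⟨ψ, hψ, hψ'⟩ := exists_psi hL k (by omega) (fun v => by have := hδ v; omega)
  choose Ad a1 a2 a3 a4 using exists_adm hL 6 k hconn hδ ψ hψ hψ'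
  let R : ZMod n → ZMod n → Prop := fun a b =>
    ∃ K, ((attS K).card < k ∧ a ∈ Ad K) ∧ ((attS K).card < k ∧ b ∈ Ad K)
  let st : Setoid (ZMod n) := Relation.EqvGen.setoid R
  let κ := {q : Quotient st // ∀ x, Quotient.mk st x = q → ¬ Lv G f k x}
  have hrep : ∀ q : κ, ¬ Lv G f k q.1.out := fun q => q.2 _ q.1.out_eq
  have hout : ∀ x : {x // ¬ Lv G f k x}, G.Adj (f x.1) (ψ x) ∧ ψ x ∉ Set.range f :=
    fun x => (mem_filter.1 (hψ' x)).2
  let Kq : κ → Comp G f := fun q => (Out G f).connectedComponentMk (ψ ⟨_, hrep q⟩)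
  have hm : ∀ q, Mem (ψ ⟨_, hrep q⟩) (Kq q) := fun q => mem_mk (hout _).2
  have hK : ∀ q, (attS (Kq q)).card < k := fun q =>
    not_le.1 fun h => hrep q ⟨_, h, _, hm q, (hout ⟨_, hrep q⟩).1⟩
  have hin : ∀ q : κ, q.1.out ∈ Ad (Kq q) := fun q => a3 _ ⟨_, hrep q⟩ (hm q)
  have hcl : ∀ q : κ, ∀ y ∈ Ad (Kq q), Quotient.mk st y = q.1 := by
    intro q y hy
    rw [← q.1.out_eq]
    exact Quotient.sound (Relation.EqvGen.rel _ _ ⟨Kq q, ⟨hK q, hy⟩, hK q, hin q⟩)
  obtain ⟨o, o1, o2, o3⟩ := options n (fun q : κ => Ad (Kq q)) (Lv G f k)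
    (fun q => a4 _ (hK q) ⟨_, hin q⟩)
    (fun q q' hq => disjoint_left.2 fun y h h' =>
      hq (Subtype.ext ((hcl q y h).symm.trans (hcl q' y h'))))
    (fun q y hy => q.2 y (hcl q y hy))
  obtain ⟨A, A1, A2, A3⟩ := sinks hL Δ L hL7 hΔ hdeg o
    (fun q b q' b' e => Subtype.ext ((hcl q _ (o1 q b)).symm.trans (e ▸ hcl q' _ (o1 q' b'))))
    o2 (by
      intro q s hs
      by_contra hno
      push Not at hno
      have hne : o q false ≠ o q true := by
        intro e
        have h3 := o3 q e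
        by_cases h : o q false = s - 1
        · exact h3.1 (by rwa [h, sub_add_cancel])
        · exact h3.2 (by rwa [hno false h, add_sub_cancel_right])
      have hl := a2 _ _ (o1 q false) _ (o1 q true) hne
      by_cases h : o q false = s - 1 <;> by_cases h' : o q true = s - 1
      · exact hne (h.trans h'.symm)
      · rw [h, hno true h'] at hl; exact hL.not_link_two hl
      · rw [h', hno false h] at hl
        obtain ⟨v, w, e, p1, p2, p3, p4⟩ := hl
        exact hL.not_link_two ⟨w, v, e.symm, p2, p1, p4, p3⟩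
      · exact hne ((hno false h).trans (hno true h').symm))
  have hn : 4 ≤ n := by
    by_cases h : Lv G f k 0
    · obtain ⟨K, h, -⟩ := h
      have := card_le_univ (attS K)
      rw [ZMod.card] at this; omega
    · have m0 := mem_mk (G := G) (hout ⟨0, h⟩).2
      have := a4 _ (not_le.1 fun h' => h ⟨_, h', _, m0, (hout ⟨0, h⟩).1⟩) ⟨_, a3 _ ⟨0, h⟩ m0⟩
      have h2 := card_le_univ (Ad ((Out G f).connectedComponentMk (ψ ⟨0, h⟩)))
      rw [ZMod.card] at h2; omega
  refine finish hL hn k Ad a1 a2 A A1 A2 fun x => ?_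
  by_cases h : ∀ y, Quotient.mk st y = Quotient.mk st x → ¬ Lv G f k y
  · obtain ⟨b, hb⟩ := A3 ⟨_, h⟩
    exact ⟨_, Or.inr hb, Quotient.exact (hcl ⟨_, h⟩ _ (o1 _ b)).symm⟩
  · push Not at h
    obtain ⟨y, e, hy⟩ := h
    exact ⟨y, Or.inl hy, Quotient.exact e.symm⟩

end Pool.Agent.MP_ee574f_co
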