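import Mathlib

set_option autoImplicit false

namespace Pool.Agent.MP_ee574f_co

/-- Pairs of candidates and a matching `τ` of conflicts: after merging pairs along conflicts, one
free bit per remaining pair selects a conflict-free transversal. -/
theorem merge {α κ : Type} [DecidableEq κ] (τ : α → α → Prop) (Sg Pl : α → Prop)
    (Far : α → α → Prop) (hsym : ∀ a b, τ a b → τ b a) (hirr : ∀ a, ¬ τ a a)
    (hfun : ∀ a b c, τ a b → τ a c → b = c) (hSg : ∀ a b, Sg a → ¬ τ a b)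
    (hPl : ∀ a b, Pl a → Pl b → a ≠ b → Far a b) (S : Finset κ) (c : κ → Bool → α)
    (hinj : ∀ q ∈ S, ∀ q' ∈ S, ∀ b b', c q b = c q' b' → q = q' ∧ b = b')
    (h2 : ∀ q ∈ S, Sg (c q false) → Sg (c q true) → Far (c q false) (c q true))
    (h1 : ∀ q ∈ S, ∀ b, Sg (c q b) → ¬ Sg (c q (!b)) → Pl (c q b)) :
    ∃ (S' : Finset κ) (o : κ → Bool → α),
      (∀ q ∈ S', ∀ q' ∈ S', ∀ b b', o q b = o q' b' → q = q') ∧
      (∀ q ∈ S', Sg (o q false) → Sg (o q true) → Far (o q false) (o q true)) ∧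
      ∀ ω : κ → Bool, ∃ Sel : α → Prop, (∀ q ∈ S, ∃ b, Sel (c q b)) ∧
        (∀ a, Sel a → ∃ q ∈ S, ∃ b, a = c q b) ∧ (∀ a b, Sel a → Sel b → ¬ τ a b) ∧
        ∀ a, Sel a → Sg a → ∃ q ∈ S', a = o q (ω q) := by
  induction hn : S.card using Nat.strong_induction_on generalizing S c with
  | _ n ih =>
  by_cases hc : ∃ q ∈ S, ∃ q2 ∈ S, q ≠ q2 ∧ ∃ b b2, τ (c q b) (c q2 b2)
  · obtain ⟨q, hq, q2, hq2, hne, b, b2, hτ⟩ := hc
    have hy : ¬ Sg (c q b) := fun h => hSg _ _ h hτ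
    have hy2 : ¬ Sg (c q2 b2) := fun h => hSg _ _ h (hsym _ _ hτ)
    have hPx : Sg (c q (!b)) → Pl (c q (!b)) := fun h =>
      h1 q hq (!b) h (by simpa using hy)
    have hPw : Sg (c q2 (!b2)) → Pl (c q2 (!b2)) := fun h =>
      h1 q2 hq2 (!b2) h (by simpa using hy2)
    have hxw : c q (!b) ≠ c q2 (!b2) := fun h => hne (hinj q hq q2 hq2 _ _ h).1
    obtain ⟨c1, hc1f, hc1t, hc1o⟩ : ∃ c1 : κ → Bool → α, c1 q false = c q (!b) ∧
        c1 q true = c q2 (!b2) ∧ ∀ r, r ≠ q → c1 r = c r := by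
      refine ⟨Function.update c q (fun t => if t then c q2 (!b2) else c q (!b)), ?_, ?_, ?_⟩
      · simp
      · simp
      · intro r hr
        exact Function.update_of_ne hr _ _
    have hmem : ∀ r, r ∈ S.erase q2 ↔ r ≠ q2 ∧ r ∈ S := fun r => Finset.mem_erase
    have hqS : q ∈ S.erase q2 := (hmem q).2 ⟨hne, hq⟩
    -- every candidate of `c1` on the smaller index set is a candidate of `c` other than the two
    -- conflicting ones
    have hcand : ∀ r ∈ S.erase q2, ∀ t, ∃ r' ∈ S, ∃ t', c1 r t = c r' t' ∧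
        ¬ (r' = q ∧ t' = b) ∧ ¬ (r' = q2 ∧ t' = b2) := by
      intro r hr t
      obtain ⟨hr2, hrS⟩ := (hmem r).1 hr
      by_cases hrq : r = q
      · subst hrq
        cases t
        · refine ⟨r, hrS, !b, hc1f, ?_, ?_⟩
          · simp
          · exact fun h => hne h.1
        · refine ⟨q2, hq2, !b2, hc1t, ?_, ?_⟩
          · exact fun h => hne h.1.symm
          · simp
      · refine ⟨r, hrS, t, by rw [hc1o r hrq], ?_, ?_⟩
        · exact fun h => hrq h.1
        · exact fun h => hr2 h.1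
    have hinj1 : ∀ r ∈ S.erase q2, ∀ r' ∈ S.erase q2, ∀ t t', c1 r t = c1 r' t' →
        r = r' ∧ t = t' := by
      intro r hr r' hr' t t' h
      obtain ⟨hr2, hrS⟩ := (hmem r).1 hr
      obtain ⟨hr2', hrS'⟩ := (hmem r').1 hr'
      by_cases hrq : r = q
      · by_cases hrq' : r' = q
        · refine ⟨hrq.trans hrq'.symm, ?_⟩
          rw [hrq, hrq'] at h
          cases t <;> cases t'
          · rfl
          · rw [hc1f, hc1t] at h; exact absurd h hxw
          · rw [hc1f, hc1t] at h; exact absurd h.symm hxw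
          · rfl
        · exfalso
          rw [hrq, hc1o r' hrq'] at h
          cases t
          · rw [hc1f] at h; exact hrq' (hinj q hq r' hrS' _ _ h).1.symm
          · rw [hc1t] at h; exact hr2' (hinj q2 hq2 r' hrS' _ _ h).1.symm
      · by_cases hrq' : r' = q
        · exfalso
          rw [hrq', hc1o r hrq] at h
          cases t'
          · rw [hc1f] at h; exact hrq (hinj r hrS q hq _ _ h).1
          · rw [hc1t] at h; exact hr2 (hinj r hrS q2 hq2 _ _ h).1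
        · rw [hc1o r hrq, hc1o r' hrq'] at h
          exact hinj r hrS r' hrS' _ _ h
    have h21 : ∀ r ∈ S.erase q2, Sg (c1 r false) → Sg (c1 r true) →
        Far (c1 r false) (c1 r true) := by
      intro r hr
      obtain ⟨-, hrS⟩ := (hmem r).1 hr
      by_cases hrq : r = q
      · rw [hrq, hc1f, hc1t]
        exact fun ha hb => hPl _ _ (hPx ha) (hPw hb) hxw
      · rw [hc1o r hrq]
        exact h2 r hrS
    have h11 : ∀ r ∈ S.erase q2, ∀ t, Sg (c1 r t) → ¬ Sg (c1 r (!t)) → Pl (c1 r t) := by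
      intro r hr t
      obtain ⟨-, hrS⟩ := (hmem r).1 hr
      by_cases hrq : r = q
      · rw [hrq]
        cases t
        · rw [hc1f]; exact fun ha _ => hPx ha
        · rw [hc1t]; exact fun ha _ => hPw ha
      · rw [hc1o r hrq]
        exact h1 r hrS t
    have hlt : (S.erase q2).card < n := hn ▸ Finset.card_erase_lt_of_mem hq2
    obtain ⟨S', o, ho1, ho2, ho3⟩ := ih _ hlt (S.erase q2) c1 hinj1 h21 h11 rfl
    refine ⟨S', o, ho1, ho2, fun ω => ?_⟩
    obtain ⟨Sel1, hs1, hs2, hs3, hs4⟩ := ho3 ω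
    have hs2' : ∀ a, Sel1 a → ∃ r ∈ S, ∃ t, a = c r t ∧
        ¬ (r = q ∧ t = b) ∧ ¬ (r = q2 ∧ t = b2) := by
      intro a ha
      obtain ⟨r, hr, t, rfl⟩ := hs2 a ha
      exact hcand r hr t
    have hny : ¬ Sel1 (c q b) := by
      intro ha
      obtain ⟨r, hr, t, he, hn1, -⟩ := hs2' _ ha
      obtain ⟨e1, e2⟩ := hinj q hq r hr _ _ he
      exact hn1 ⟨e1.symm, e2.symm⟩
    have hny2 : ¬ Sel1 (c q2 b2) := by
      intro ha
      obtain ⟨r, hr, t, he, -, hn2⟩ := hs2' _ ha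
      obtain ⟨e1, e2⟩ := hinj q2 hq2 r hr _ _ he
      exact hn2 ⟨e1.symm, e2.symm⟩
    have hrest : ∀ r ∈ S, r ≠ q → r ≠ q2 → ∃ t, Sel1 (c r t) := by
      intro r hr hrq hr2
      obtain ⟨t, ht⟩ := hs1 r ((hmem r).2 ⟨hr2, hr⟩)
      exact ⟨t, by rwa [hc1o r hrq] at ht⟩
    -- adding one of the two conflicting candidates, whose only partner is not selected
    have key : ∀ (z z' : α), τ z z' → ¬ Sel1 z' → (∃ r ∈ S, ∃ t, z = c r t) →
        (∃ t, Sel1 (c q t) ∨ c q t = z) → (∃ t, Sel1 (c q2 t) ∨ c q2 t = z) →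
        ∃ Sel : α → Prop, (∀ q ∈ S, ∃ b, Sel (c q b)) ∧
        (∀ a, Sel a → ∃ q ∈ S, ∃ b, a = c q b) ∧ (∀ a b, Sel a → Sel b → ¬ τ a b) ∧
        ∀ a, Sel a → Sg a → ∃ q ∈ S', a = o q (ω q) := by
      intro z z' hz hz' hzc hA hB
      refine ⟨fun a => Sel1 a ∨ a = z, ?_, ?_, ?_, ?_⟩
      · intro r hr
        by_cases hrq : r = q
        · rw [hrq]; exact hA
        · by_cases hr2 : r = q2
          · rw [hr2]; exact hB
          · obtain ⟨t, ht⟩ := hrest r hr hrq hr2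
            exact ⟨t, Or.inl ht⟩
      · rintro a (ha | rfl)
        · obtain ⟨r, hr, t, he, -, -⟩ := hs2' a ha
          exact ⟨r, hr, t, he⟩
        · exact hzc
      · rintro a a' (ha | rfl) (ha' | rfl) h
        · exact hs3 a a' ha ha' h
        · exact hz' (hfun _ _ _ (hsym _ _ h) hz ▸ ha)
        · exact hz' (hfun _ _ _ h hz ▸ ha')
        · exact hirr _ h
      · rintro a (ha | rfl) hsa
        · exact hs4 a ha hsa
        · exact absurd hz (hSg _ _ hsa)
    obtain ⟨t, ht⟩ := hs1 q hqS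
    cases t
    · rw [hc1f] at ht
      exact key (c q2 b2) (c q b) (hsym _ _ hτ) hny ⟨q2, hq2, b2, rfl⟩ ⟨!b, Or.inl ht⟩
        ⟨b2, Or.inr rfl⟩
    · rw [hc1t] at ht
      exact key (c q b) (c q2 b2) hτ hny2 ⟨q, hq, b, rfl⟩ ⟨b, Or.inr rfl⟩ ⟨!b2, Or.inl ht⟩
  · refine ⟨S, c, fun q hq q' hq' b b' h => (hinj q hq q' hq' b b' h).1, h2, fun ω => ?_⟩
    refine ⟨fun a => ∃ q ∈ S, a = c q (ω q), ?_, ?_, ?_, ?_⟩
    · exact fun q hq => ⟨ω q, q, hq, rfl⟩
    · rintro a ⟨q, hq, rfl⟩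
      exact ⟨q, hq, ω q, rfl⟩
    · rintro a a' ⟨q, hq, rfl⟩ ⟨q', hq', rfl⟩ h
      by_cases hqq : q = q'
      · subst hqq
        exact hirr _ h
      · exact hc ⟨q, hq, q', hq', hqq, _, _, h⟩
    · exact fun a ha _ => ha

end Pool.Agent.MP_ee574f_co
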