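import Mathlib

set_option autoImplicit false

namespace Pool.Agent.MP_ee574f_co

open Classical Finset

variable {V : Type}

/-- A path inside `R` that starts at a neighbour of `v` and ends next to a vertex outside `R`
other than `v`. -/
def Tail (G : SimpleGraph V) (R : V → Prop) (v : V) (l : List V) : Prop :=
  l.Nodup ∧ l.IsChain G.Adj ∧ (∀ u ∈ l, R u) ∧ (∃ a ∈ l.head?, G.Adj v a) ∧
    ∃ b ∈ l.getLast?, ∃ z, G.Adj b z ∧ ¬ R z ∧ z ≠ v

theorem tail_iff {G : SimpleGraph V} {R : V → Prop} {v : V} {l : List V} :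
    Tail G R v l ↔ l ≠ [] ∧ l.Nodup ∧ (∀ u ∈ l, R u) ∧
      ∃ z, ¬ R z ∧ z ≠ v ∧ (v :: (l ++ [z])).IsChain G.Adj := by
  constructor
  · rintro ⟨h1, h2, h3, ⟨a, ha, hva⟩, b, hb, z, hbz, hz, hzv⟩
    have hl : l ≠ [] := by rintro rfl; simp at ha
    refine ⟨hl, h1, h3, z, hz, hzv, ?_⟩
    rw [List.isChain_cons, List.isChain_append]
    refine ⟨fun y hy => ?_, h2, List.isChain_singleton _, fun x hx y hy => ?_⟩
    · rw [List.head?_append_of_ne_nil _ hl] at hy
      rw [Option.mem_def] at hy ha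
      rw [ha] at hy
      exact Option.some.inj hy ▸ hva
    · rw [Option.mem_def] at hx hb
      rw [hb] at hx
      simp only [List.head?_cons, Option.mem_def, Option.some.injEq] at hy
      exact hy ▸ Option.some.inj hx ▸ hbz
  · rintro ⟨hl, h1, h3, z, hz, hzv, hc⟩
    rw [List.isChain_cons, List.isChain_append, List.head?_append_of_ne_nil _ hl] at hc
    obtain ⟨h4, h2, -, h5⟩ := hc
    exact ⟨h1, h2, h3, ⟨l.head hl, List.head?_eq_some_head hl, h4 _ (List.head?_eq_some_head hl)⟩,
      l.getLast hl, List.getLast?_eq_some_getLast hl, z,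
      h5 _ (List.getLast?_eq_some_getLast hl) z rfl, hz, hzv⟩

theorem tail_glue {G : SimpleGraph V} {a b : V} {l l' : List V} :
    (a :: (l ++ b :: l')).IsChain G.Adj ↔
      (a :: (l ++ [b])).IsChain G.Adj ∧ (b :: l').IsChain G.Adj :=
  List.isChain_split (l₁ := a :: l)

theorem tail_rev {G : SimpleGraph V} {a b : V} {l : List V}
    (h : (a :: (l ++ [b])).IsChain G.Adj) : (b :: (l.reverse ++ [a])).IsChain G.Adj := by
  have : b :: (l.reverse ++ [a]) = (a :: (l ++ [b])).reverse := by simp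
  rw [this, List.isChain_reverse]
  exact h.imp fun _ _ h => h.symm

theorem tail_walk {G : SimpleGraph V} (Y : V → Prop) {w u : V} (q : G.Walk w u) (hq : q.IsPath)
    (hw : Y w) (hu : ¬ Y u) : ∃ Q : List V, (w :: Q).Nodup ∧ (∀ x ∈ Q, Y x ∧ x ∈ q.support) ∧
      ∃ z ∈ q.support, ¬ Y z ∧ (w :: (Q ++ [z])).IsChain G.Adj := by
  induction q with
  | nil => exact absurd hw hu
  | @cons w w' u h q ih =>
    rw [SimpleGraph.Walk.cons_isPath_iff] at hq
    by_cases hw' : Y w'
    · obtain ⟨Q, h1, h2, z, hz, hz', h3⟩ := ih hq.1 hw' hu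
      refine ⟨w' :: Q, List.nodup_cons.2 ⟨fun hm => hq.2 ?_, h1⟩, fun x hx => ?_, z, by simp [hz],
        hz', List.IsChain.cons_cons h h3⟩
      · rcases List.mem_cons.1 hm with rfl | hm
        · exact q.start_mem_support
        · exact (h2 _ hm).2
      · rcases List.mem_cons.1 hx with rfl | hx
        · exact ⟨hw', by simp⟩
        · exact ⟨(h2 _ hx).1, by simp [(h2 _ hx).2]⟩
    · exact ⟨[], by simp, by simp, w', by simp, hw', by simpa using h⟩

theorem tail_exists {G : SimpleGraph V}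
    (hconn : ∀ s : V, (G.induce ({s}ᶜ : Set V)).Connected) {R : V → Prop} {v p u : V}
    (hp : R p) (hvp : G.Adj v p) (hu : ¬ R u) (huv : u ≠ v) : ∃ l, Tail G R v l := by
  obtain ⟨q₀⟩ := (hconn v).preconnected ⟨p, hvp.ne'⟩ ⟨u, huv⟩
  let q : G.Walk p u := q₀.map (SimpleGraph.Embedding.induce ({v}ᶜ : Set V)).toHom
  have hq : ∀ x ∈ q.support, x ≠ v := by
    intro x hx
    have hs := SimpleGraph.Walk.support_map
      (SimpleGraph.Embedding.induce (G := G) ({v}ᶜ : Set V)).toHom q₀
    obtain ⟨y, -, rfl⟩ := List.mem_map.1 (hs ▸ hx :)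
    exact y.2
  obtain ⟨Q, h1, h2, z, hz, hz', h3⟩ := tail_walk R q.bypass q.bypass_isPath hp hu
  refine ⟨p :: Q, tail_iff.2 ⟨by simp, h1, fun x hx => ?_, z, hz',
    hq z (q.support_bypass_subset_support hz), List.IsChain.cons_cons hvp h3⟩⟩
  rcases List.mem_cons.1 hx with rfl | hx
  · exact hp
  · exact (h2 x hx).1

theorem tail_ear {G : SimpleGraph V} {R : V → Prop} {v a : V} {l Q : List V}
    (hl : Tail G R v l) (ha : a ∈ l) (hQ : Tail G (fun x => R x ∧ x ∉ l) a Q) :
    ∃ l', Tail G R v l' ∧ Q.length + 1 ≤ l'.length := by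
  obtain ⟨-, hn, hR, y, hy, hyv, hc⟩ := tail_iff.1 hl
  obtain ⟨-, hn', hR', z, hz, hza, hc'⟩ := tail_iff.1 hQ
  have hN : ∀ x, List.count x (l ++ Q) ≤ 1 := List.nodup_iff_count_le_one.1
    (List.nodup_append.2 ⟨hn, hn', fun x hx y hy hxy => (hR' y hy).2 (hxy ▸ hx)⟩)
  have hA : ∀ x ∈ l ++ Q, R x := fun x hx =>
    (List.mem_append.1 hx).elim (hR x) fun h => (hR' x h).1
  obtain ⟨l1, l2, rfl⟩ := List.append_of_mem ha
  rw [List.append_assoc, List.cons_append, tail_glue] at hc
  obtain ⟨c1, c2⟩ := hc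
  have key : ∀ l' : List V, (∀ x, List.count x l' ≤ List.count x (l1 ++ a :: l2 ++ Q)) →
      Q.length + 1 ≤ l'.length → ∀ z, ¬ R z → z ≠ v → (v :: (l' ++ [z])).IsChain G.Adj →
      ∃ l', Tail G R v l' ∧ Q.length + 1 ≤ l'.length := fun l' h1 h2 z h3 h4 h5 =>
    ⟨l', tail_iff.2 ⟨by rintro rfl; simp at h2,
      List.nodup_iff_count_le_one.2 fun x => (h1 x).trans (hN x),
      fun x hx => hA x (List.count_pos_iff.1 ((List.count_pos_iff.2 hx).trans_le (h1 x))),
      z, h3, h4, h5⟩, h2⟩
  by_cases hzl : z ∈ l1 ++ a :: l2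
  · rcases List.mem_append.1 hzl with h | h
    · obtain ⟨l3, l4, rfl⟩ := List.append_of_mem h
      rw [List.append_assoc, List.cons_append, tail_glue] at c1
      refine key (l3 ++ z :: (Q.reverse ++ a :: l2)) (fun x => ?_) (by simp; omega) y hy hyv ?_
      · simp only [List.count_append, List.count_cons, List.count_reverse]; omega
      · simp only [List.append_assoc, List.cons_append]
        exact tail_glue.2 ⟨c1.1, tail_glue.2 ⟨tail_rev hc', c2⟩⟩
    · obtain ⟨l3, l4, rfl⟩ := List.append_of_mem ((List.mem_cons.1 h).resolve_left hza)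
      rw [List.append_assoc, List.cons_append, tail_glue] at c2
      refine key (l1 ++ a :: (Q ++ z :: l4)) (fun x => ?_) (by simp; omega) y hy hyv ?_
      · simp only [List.count_append, List.count_cons]; omega
      · simp only [List.append_assoc, List.cons_append]
        exact tail_glue.2 ⟨c1, tail_glue.2 ⟨hc', c2.2⟩⟩
  · have hz' : ¬ R z := fun h => hz ⟨h, hzl⟩
    by_cases hzv : z = v
    · subst hzv
      refine key (Q.reverse ++ a :: l2) (fun x => ?_) (by simp) y hy hyv ?_
      · simp only [List.count_append, List.count_cons, List.count_reverse]; omega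
      · simp only [List.append_assoc, List.cons_append]
        exact tail_glue.2 ⟨tail_rev hc', c2⟩
    · refine key (l1 ++ a :: Q) (fun x => ?_) (by simp) z hz' hzv ?_
      · simp only [List.count_append, List.count_cons]; omega
      · simp only [List.append_assoc, List.cons_append]
        exact tail_glue.2 ⟨c1, hc'⟩

theorem tail_long [Fintype V] (G : SimpleGraph V)
    (hconn : ∀ s : V, (G.induce ({s}ᶜ : Set V)).Connected) (g : ℕ) : ∀ (R : V → Prop) (v p u : V),
    ¬ R v → R p → G.Adj v p → ¬ R u → u ≠ v →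
    (∀ r, R r → g * g ≤ (univ.filter (fun w => G.Adj r w ∧ R w)).card) →
    ∃ l, Tail G R v l ∧ g ≤ l.length := by
  induction g with
  | zero =>
    intro R v p u _ hp hvp hu huv _
    obtain ⟨l, hl⟩ := tail_exists hconn hp hvp hu huv
    exact ⟨l, hl, Nat.zero_le _⟩
  | succ g ih =>
    intro R v p u hv hp hvp hu huv hdeg
    obtain ⟨l, hl⟩ := tail_exists hconn hp hvp hu huv
    by_cases hlen : g + 1 ≤ l.length
    · exact ⟨l, hl, hlen⟩
    have hd : ∀ r, R r → g * g + 1 ≤
        (univ.filter (fun w => G.Adj r w ∧ (R w ∧ w ∉ l))).card := fun r hr => by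
      have h1 := hdeg r hr
      have h2 : univ.filter (fun w => G.Adj r w ∧ R w) ⊆
          univ.filter (fun w => G.Adj r w ∧ (R w ∧ w ∉ l)) ∪ l.toFinset := by
        intro w hw
        simp only [mem_filter, mem_univ, true_and, mem_union, List.mem_toFinset] at hw ⊢
        tauto
      have h3 := (card_le_card h2).trans (card_union_le _ _)
      have h4 := l.toFinset_card_le
      nlinarith
    obtain ⟨a, ha⟩ := List.exists_mem_of_ne_nil l (tail_iff.1 hl).1
    have hRa : R a := hl.2.2.1 a ha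
    obtain ⟨p', hp'⟩ := card_pos.1 (lt_of_lt_of_le (Nat.succ_pos _) (hd a hRa))
    simp only [mem_filter, mem_univ, true_and] at hp'
    obtain ⟨Q, hQ, hQl⟩ := ih (fun x => R x ∧ x ∉ l) a p' v (fun h => h.2 ha) hp'.2 hp'.1
      (fun h => hv h.1) (fun h => hv (h ▸ hRa))
      (fun r hr => by
        refine ((Nat.le_succ _).trans (hd r hr.1)).trans (card_le_card fun w hw => ?_)
        simpa using hw)
    obtain ⟨l', h1, h2⟩ := tail_ear hl ha hQ
    exact ⟨l', h1, by omega⟩

theorem tail_split (P : V → Prop) (l : List V) : ∀ k : ℕ, k + 1 ≤ l.countP (fun x => P x) →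
    ∃ l1 a l2, l = l1 ++ a :: l2 ∧ k ≤ l1.length ∧ P a ∧
      l.countP (fun x => P x) ≤ k + 1 + l2.countP (fun x => P x) := by
  induction l with
  | nil => intro k h; simp at h
  | cons x t ih =>
    intro k h
    by_cases hx : P x
    · rw [List.countP_cons_of_pos (by simpa using hx)] at h ⊢
      rcases k with _ | k
      · exact ⟨[], x, t, rfl, le_rfl, hx, by omega⟩
      · obtain ⟨l1, a, l2, rfl, h1, h2, h3⟩ := ih k (by omega)
        exact ⟨x :: l1, a, l2, rfl, by simpa using h1, h2, by omega⟩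
    · rw [List.countP_cons_of_neg (by simpa using hx)] at h ⊢
      obtain ⟨l1, a, l2, rfl, h1, h2, h3⟩ := ih k h
      exact ⟨x :: l1, a, l2, rfl, by simp; omega, h2, h3⟩

theorem short_tail [Fintype V] (G : SimpleGraph V)
    (hconn : ∀ s : V, (G.induce ({s}ᶜ : Set V)).Connected) (g : ℕ) (R : V → Prop) (v p u : V)
    (hv : ¬ R v) (hp : R p) (hvp : G.Adj v p) (hu : ¬ R u) (huv : u ≠ v)
    (hdeg : ∀ r, R r → g * g ≤ (univ.filter (fun w => G.Adj r w ∧ R w)).card) :
    ∃ l, Tail G R v l ∧ g ≤ l.length ∧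
      ∀ r, r ∉ l → r ≠ v → (univ.filter (fun w => G.Adj r w ∧ w ∈ l)).card ≤ g + 3 := by
  have hex : ∃ n, ∃ l, Tail G R v l ∧ g ≤ l.length ∧ l.length = n := by
    obtain ⟨l, h1, h2⟩ := tail_long G hconn g R v p u hv hp hvp hu huv hdeg
    exact ⟨_, l, h1, h2, rfl⟩
  obtain ⟨l, hl, hg, hn⟩ := Nat.find_spec hex
  have hmin : ∀ l', Tail G R v l' → g ≤ l'.length → l.length ≤ l'.length := fun l' h1 h2 =>
    hn ▸ Nat.find_min' hex ⟨l', h1, h2, rfl⟩
  refine ⟨l, hl, hg, fun r hr hrv => ?_⟩
  by_contra hcon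
  have h1 : (univ.filter (fun w => G.Adj r w ∧ w ∈ l)).card ≤ l.countP (fun x => G.Adj r x) := by
    rw [List.countP_eq_length_filter]
    refine le_trans (card_le_card fun w hw => ?_) (List.toFinset_card_le _)
    simp only [mem_filter, mem_univ, true_and] at hw
    simp [hw.1, hw.2]
  obtain ⟨l1, a, l2, rfl, h2, ha, h3⟩ := tail_split (G.Adj r) l g (by omega)
  obtain ⟨l3, b, l4, rfl, h4, hb, -⟩ := tail_split (G.Adj r) l2 2 (by omega)
  obtain ⟨-, hN, hR, y, hy, hyv, hc⟩ := tail_iff.1 hl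
  simp only [List.append_assoc, List.cons_append] at hc
  have c1 := (tail_glue.1 hc).1
  have c3 := (tail_glue.1 (tail_glue.1 hc).2).2
  by_cases hRr : R r
  · have := hmin (l1 ++ a :: r :: b :: l4) (tail_iff.2 ⟨by simp, ?_, fun x hx => ?_, y, hy, hyv, ?_⟩)
      (by simp; omega)
    · simp at this; omega
    · have h5 := List.nodup_iff_count_le_one.1 (List.nodup_cons.2 ⟨hr, hN⟩)
      refine List.nodup_iff_count_le_one.2 fun x => le_trans ?_ (h5 x)
      simp only [List.count_append, List.count_cons]; omega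
    · simp only [List.mem_append, List.mem_cons] at hx hR
      rcases hx with h | h | h | h | h
      · exact hR x (by simp [h])
      · exact hR x (by simp [h])
      · exact h ▸ hRr
      · exact hR x (by simp [h])
      · exact hR x (by simp [h])
    · simp only [List.append_assoc, List.cons_append]
      exact tail_glue.2 ⟨c1, List.IsChain.cons_cons ha.symm (List.IsChain.cons_cons hb c3)⟩
  · have := hmin (l1 ++ [a]) (tail_iff.2 ⟨by simp, ?_, fun x hx => ?_, r, hRr, hrv, ?_⟩)
      (by simp; omega)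
    · simp at this
    · have h5 := List.nodup_iff_count_le_one.1 hN
      refine List.nodup_iff_count_le_one.2 fun x => le_trans ?_ (h5 x)
      simp only [List.count_append, List.count_cons, List.count_nil]; omega
    · refine hR x ?_
      simp only [List.mem_append, List.mem_cons] at hx ⊢
      tauto
    · simp only [List.append_assoc, List.cons_append, List.nil_append]
      exact tail_glue.2 ⟨c1, by simpa using ha.symm⟩

end Pool.Agent.MP_ee574f_co
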