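import Pool.Agent.MP_ee574f_co.Piece2
import Pool.Agent.MP_ee574f_co.Adm
import Pool.Agent.MP_ee574f_co.Tail

set_option autoImplicit false

namespace Pool.Agent.MP_ee574f_co

open SimpleGraph Classical Finset

variable {V : Type} {G : SimpleGraph V} {n : ℕ} {f : ZMod n → V}

/-- The edges of `G` inside `T`. -/
def Ins (G : SimpleGraph V) (T : V → Prop) : SimpleGraph V where
  Adj a b := G.Adj a b ∧ T a ∧ T b
  symm := ⟨fun _ _ h => ⟨h.1.symm, h.2.2, h.2.1⟩⟩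
  loopless := ⟨fun a h => G.loopless.1 a h.1⟩

theorem ins_mono {T T' : V → Prop} (h : ∀ v, T v → T' v) {u w : V}
    (hr : (Ins G T).Reachable u w) : (Ins G T').Reachable u w :=
  Reachable.mono (G := Ins G T) (G' := Ins G T') (fun _ _ e => ⟨e.1, h _ e.2.1, h _ e.2.2⟩) hr

theorem ins_path {T : V → Prop} {v w : V} (hv : T v) (hr : (Ins G T).Reachable v w) :
    ∃ l : List V, l.Nodup ∧ l.IsChain G.Adj ∧ (∀ u ∈ l, T u) ∧ l.head? = some v ∧
      l.getLast? = some w := by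
  obtain ⟨p, hp⟩ := hr.exists_isPath
  refine ⟨p.support, hp.support_nodup, p.isChain_adj_support.imp (fun _ _ h => h.1), ?_, ?_, ?_⟩
  · clear hp hr
    induction p with
    | nil => intro u hu; simp at hu; exact hu ▸ hv
    | cons h q ih =>
      intro u hu
      rw [Walk.support_cons, List.mem_cons] at hu
      rcases hu with rfl | hu
      · exact hv
      · exact ih h.2.2 u hu
  · cases p <;> simp
  · rw [List.getLast?_eq_some_getLast p.support_ne_nil, Walk.getLast_support]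

theorem ins_chain {T : V → Prop} {b : V} : ∀ l : List V, l.IsChain G.Adj → (∀ u ∈ l, T u) →
    b ∈ l.getLast? → ∀ a ∈ l, (Ins G T).Reachable a b
  | [], _, _, _, a, ha => by simp at ha
  | [x], _, _, hb, a, ha => by
    simp at hb ha; subst hb; subst ha; exact .refl _
  | x :: y :: l, hc, hT, hb, a, ha => by
    rw [List.isChain_cons_cons] at hc
    have ih := ins_chain (y :: l) hc.2 (fun u hu => hT u (List.mem_cons_of_mem _ hu))
      (by simpa using hb)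
    rcases List.mem_cons.1 ha with rfl | ha
    · exact (Adj.reachable (G := Ins G T) ⟨hc.1, hT _ (by simp), hT _ (by simp)⟩).trans
        (ih y (by simp))
    · exact ih a ha

theorem Link.symm {T : V → Prop} {x y : ZMod n} (h : Link G f T x y) : Link G f T y x := by
  obtain ⟨l, h1, h2, h3, h4, h5, h6⟩ := h
  exact ⟨l.reverse, List.nodup_reverse.2 h1,
    List.isChain_reverse.2 (h2.imp fun _ _ h => h.symm), fun v hv => h3 v (List.mem_reverse.1 hv),
    by simpa using h5, by simpa using h4, by simpa using h6⟩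

theorem Link.mono {T T' : V → Prop} {x y : ZMod n} (h : Link G f T x y) (hT : ∀ v, T v → T' v) :
    Link G f T' x y := by
  obtain ⟨l, h1, h2, h3, h4⟩ := h
  exact ⟨l, h1, h2, fun v hv => hT v (h3 v hv), h4⟩

/-- Invariant of the construction of the pieces. -/
structure Inv [Fintype V] (G : SimpleGraph V) (f : ZMod n → V) (W : ZMod n → Prop)
    (ψ : ZMod n → V) (S : Finset (ZMod n)) (T : ZMod n → V → Prop)
    (Ad : ZMod n → ZMod n → Prop) (tl : ZMod n → List V) : Prop where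
  i1 : ∀ p v, T p v → ∃ x, W x ∧ (v = ψ x ∨ v ∈ tl x)
  i2 : ∀ x, ∀ v ∈ tl x, Mem v ((Out G f).connectedComponentMk (ψ x))
  i3 : ∀ x r, r ∉ tl x → r ∉ Set.range f →
    (univ.filter (fun w => G.Adj r w ∧ w ∈ tl x)).card ≤ 17
  i4 : ∀ x, ∀ v ∈ tl x, ∃ p, T p v
  dis : ∀ p p' v, T p v → T p' v → p = p'
  con : ∀ p u w, T p u → T p w → (Ins G (T p)).Reachable u w
  a0 : ∀ p v, T p v → Ad p p
  a1 : ∀ p x, Ad p x → ∃ v, T p v ∧ G.Adj (f x) v
  a2 : ∀ p x y, Ad p x → Ad p y → x ≠ y → Link G f (T p) x y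
  d : ∀ x, W x → (∃ p y, y ≠ x ∧ Ad p x ∧ Ad p y) ∨
    (x ∉ S ∧ (∀ v, T x v ↔ v = ψ x) ∧ (∀ y, Ad x y → y = x) ∧ tl x = [] ∧ ∀ y, ψ x ∉ tl y)

variable [Fintype V] [NeZero n]

theorem Inv.deg {k : ℕ} {ψ : ZMod n → V} {S : Finset (ZMod n)} {T : ZMod n → V → Prop}
    {Ad : ZMod n → ZMod n → Prop} {tl : ZMod n → List V}
    (h : Inv G f (fun x => ¬ Lv G f k x) ψ S T Ad tl)
    (hψ : ∀ x, ¬ Lv G f k x → G.Adj (f x) (ψ x) ∧ ψ x ∉ Set.range f)
    (K : Comp G f) (x0 : ZMod n) (r : V) (hr : Mem r K) (hr' : ∀ y, r ∉ tl y) :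
    G.degree r ≤ (univ.filter (fun w => G.Adj r w ∧ (Mem w K ∧ ∀ p, T p w → p = x0))).card +
      19 * (attS K).card := by
  have hsub : G.neighborFinset r ⊆
      univ.filter (fun w => G.Adj r w ∧ (Mem w K ∧ ∀ p, T p w → p = x0)) ∪
        (attS K).biUnion (fun x => {f x, ψ x} ∪ univ.filter (fun w => G.Adj r w ∧ w ∈ tl x)) := by
    intro w hw
    rw [mem_neighborFinset] at hw
    by_cases hf : w ∈ Set.range f
    · obtain ⟨y, rfl⟩ := hf
      exact mem_union_right _ (mem_biUnion.2 ⟨y, mem_filter.2 ⟨mem_univ _, r, hr, hw.symm⟩,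
        by simp⟩)
    have hwK := hr.step hw hf
    by_cases hp : ∀ p, T p w → p = x0
    · exact mem_union_left _ (mem_filter.2 ⟨mem_univ _, hw, hwK, hp⟩)
    obtain ⟨p, hp⟩ : ∃ p, T p w := by by_contra hno; exact hp fun p e => absurd ⟨p, e⟩ hno
    obtain ⟨x, hx, e | e⟩ := h.i1 p w hp
    · exact mem_union_right _ (mem_biUnion.2 ⟨x, mem_filter.2 ⟨mem_univ _, w, hwK,
        e ▸ (hψ x hx).1⟩, by simp [e]⟩)
    · have := (h.i2 x w e).unique hwK
      exact mem_union_right _ (mem_biUnion.2 ⟨x, mem_filter.2 ⟨mem_univ _, ψ x,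
        this ▸ mem_mk (hψ x hx).2, (hψ x hx).1⟩,
        mem_union_right _ (mem_filter.2 ⟨mem_univ _, hw, e⟩)⟩)
  have h1 := (card_le_card hsub).trans (card_union_le _ _)
  have h2 := card_biUnion_le_card_mul (attS K)
    (fun x => {f x, ψ x} ∪ univ.filter (fun w => G.Adj r w ∧ w ∈ tl x)) 19 fun x _ => by
      have a := h.i3 x r (hr' x) hr.2
      have b : ({f x, ψ x} : Finset V).card ≤ 2 := card_le_two
      exact (card_union_le _ _).trans (by omega)
  rw [card_neighborFinset_eq_degree] at h1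
  omega

theorem Inv.step (hL : Long G n f) {k : ℕ}
    (hconn : ∀ s : V, (G.induce ({s}ᶜ : Set V)).Connected)
    (hδ : ∀ v, 19 * k + 196 ≤ G.degree v) {ψ : ZMod n → V}
    (hψ : ∀ x, ¬ Lv G f k x → G.Adj (f x) (ψ x) ∧ ψ x ∉ Set.range f)
    {S : Finset (ZMod n)} {T : ZMod n → V → Prop}
    {Ad : ZMod n → ZMod n → Prop} {tl : ZMod n → List V}
    (h : Inv G f (fun x => ¬ Lv G f k x) ψ S T Ad tl) (x0 : ZMod n) :
    ∃ T' Ad' tl', Inv G f (fun x => ¬ Lv G f k x) ψ (insert x0 S) T' Ad' tl' := by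
  by_cases h0 : ¬ Lv G f k x0 → ∃ p y, y ≠ x0 ∧ Ad p x0 ∧ Ad p y
  · refine ⟨T, Ad, tl, { h with d := fun x hx => ?_ }⟩
    by_cases e : x = x0
    · subst e; exact Or.inl (h0 hx)
    · exact (h.d x hx).imp id fun u => ⟨by simp [e, u.1], u.2⟩
  rw [Classical.not_imp] at h0
  obtain ⟨hW, hnh⟩ := h0
  obtain ⟨-, l1, l2, l3, l4⟩ := (h.d x0 hW).resolve_left hnh
  set K := (Out G f).connectedComponentMk (ψ x0) with hK
  have hm0 : Mem (ψ x0) K := mem_mk (hψ x0 hW).2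
  have hKk : (attS K).card < k := not_le.1 fun e => hW ⟨K, e, _, hm0, (hψ x0 hW).1⟩
  obtain ⟨t, ⟨t1, t2, t3, ⟨a, ha, haa⟩, b, hb, z, hbz, hz, hz0⟩, t14, tfew⟩ :=
    short_tail G hconn 14 (fun w => Mem w K ∧ ∀ p, T p w → p = x0) (f x0) (ψ x0) (f (x0 + 1))
      (fun e => e.1.2 ⟨_, rfl⟩) ⟨hm0, fun p e => h.dis _ _ _ e ((l1 _).2 rfl)⟩ (hψ x0 hW).1
      (fun e => e.1.2 ⟨_, rfl⟩)
      (fun e => hL.one_ne (by linear_combination hL.inj e))
      (fun r hr => by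
        have h1 := h.deg hψ K x0 r hr.1 fun y hy => by
          obtain ⟨p, hp⟩ := h.i4 y r hy
          rw [hr.2 p hp, l1] at hp
          exact l4 y (hp ▸ hy)
        have h2 := hδ r
        have h3 : 14 * 14 ≤ (univ.filter
          (fun w => G.Adj r w ∧ (Mem w K ∧ ∀ p, T p w → p = x0))).card := by omega
        convert h3)
  have hbt : b ∈ t := List.mem_of_mem_getLast? hb
  have hat : a ∈ t := List.mem_of_mem_head? ha
  obtain ⟨p0, u, hp0⟩ : ∃ p0 u, (p0 = x0 ∧ z = f u) ∨ (p0 ≠ x0 ∧ T p0 z) := by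
    by_cases hf : z ∈ Set.range f
    · obtain ⟨u, rfl⟩ := hf; exact ⟨x0, u, Or.inl ⟨rfl, rfl⟩⟩
    · by_contra hno
      refine hz ⟨(t3 b hbt).1.step hbz hf, fun p hp => ?_⟩
      by_contra e
      exact hno ⟨p, 0, Or.inr ⟨e, hp⟩⟩
  let T' : ZMod n → V → Prop := fun p v => (p ≠ x0 ∧ T p v) ∨ (p = p0 ∧ v ∈ t)
  let Ad' : ZMod n → ZMod n → Prop := fun p y =>
    (p ≠ x0 ∧ Ad p y) ∨ (p = p0 ∧ (y = x0 ∨ (p0 = x0 ∧ y = u)))
  have htb : ∀ v ∈ t, (Ins G (T' p0)).Reachable v b :=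
    ins_chain t t2 (fun v hv => Or.inr ⟨rfl, hv⟩) hb
  have hold : ∀ p, p ≠ x0 → ∀ v, T p v → T' p v := fun p e v hv => Or.inl ⟨e, hv⟩
  have hzb : ∀ v, p0 ≠ x0 → T p0 v → (Ins G (T' p0)).Reachable v b := by
    intro v e hv
    have hz' := (hp0.resolve_left fun e' => e e'.1).2
    exact (ins_mono (hold p0 e) (h.con _ _ _ hv hz')).trans
      (Adj.reachable (G := Ins G (T' p0)) ⟨hbz.symm, hold p0 e _ hz', Or.inr ⟨rfl, hbt⟩⟩)
  have hlk : ∀ y, y ≠ x0 → Ad' p0 y → Link G f (T' p0) x0 y := by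
    rintro y hy (⟨e, hy'⟩ | ⟨-, e | ⟨e, rfl⟩⟩)
    · have hz' := (hp0.resolve_left fun e' => e e'.1).2
      obtain ⟨v, hv, hyv⟩ := h.a1 _ _ hy'
      obtain ⟨l, n1, n2, n3, n4, n5⟩ := ins_path hz' (h.con _ _ _ hz' hv)
      have hne : l ≠ [] := by rintro rfl; simp at n4
      have hne' : t ≠ [] := List.ne_nil_of_mem hat
      refine ⟨t ++ l, List.nodup_append.2 ⟨t1, n1, ?_⟩, t2.append n2 ?_, ?_, ?_, ?_, ?_⟩
      · rintro c hc _ hc' rfl
        exact e ((t3 c hc).2 _ (n3 c hc'))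
      · intro c hc d hd
        rw [n4] at hd; cases hd
        rw [Option.mem_def.1 hb] at hc; cases hc
        exact hbz
      · intro c hc
        exact (List.mem_append.1 hc).elim (fun e' => Or.inr ⟨rfl, e'⟩) fun e' => hold _ e _ (n3 c e')
      · intro c hc
        rw [List.head?_append_of_ne_nil _ hne', Option.mem_def.1 ha] at hc
        cases hc; exact haa
      · intro c hc
        rw [List.getLast?_append_of_ne_nil _ hne, n5] at hc
        cases hc; exact hyv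
      · rw [List.length_append]; omega
    · exact absurd e hy
    · have hz' := (hp0.resolve_right fun e' => e'.1 e).2
      refine ⟨t, t1, t2, fun v hv => Or.inr ⟨rfl, hv⟩, fun c hc => ?_, fun c hc => ?_, t14⟩
      · rw [Option.mem_def.1 ha] at hc; cases hc; exact haa
      · rw [Option.mem_def.1 hb] at hc; cases hc; exact hz' ▸ hbz.symm
  have htl : ∀ x v, v ∈ tl x → v ∈ Function.update tl x0 t x := by
    intro x v hv
    have : x ≠ x0 := by rintro rfl; simp [l3] at hv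
    rwa [Function.update_of_ne this]
  refine ⟨T', Ad', Function.update tl x0 t, ?_, ?_, ?_, ?_, ?_, ?_, ?_, ?_, ?_, ?_⟩
  · rintro p v (⟨-, hv⟩ | ⟨-, hv⟩)
    · obtain ⟨x, hx, e⟩ := h.i1 p v hv
      exact ⟨x, hx, e.imp id (htl x v)⟩
    · exact ⟨x0, hW, Or.inr (by simpa using hv)⟩
  · intro x v hv
    by_cases e : x = x0
    · subst e; exact (t3 v (by simpa using hv)).1
    · rw [Function.update_of_ne e] at hv; exact h.i2 x v hv
  · intro x r hr hr'
    by_cases e : x = x0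
    · subst e
      rw [Function.update_self] at hr ⊢
      convert tfew r hr fun e => hr' ⟨_, e.symm⟩
    · rw [Function.update_of_ne e] at hr ⊢; exact h.i3 x r hr hr'
  · intro x v hv
    by_cases e : x = x0
    · subst e; exact ⟨p0, Or.inr ⟨rfl, by simpa using hv⟩⟩
    · rw [Function.update_of_ne e] at hv
      obtain ⟨p, hp⟩ := h.i4 x v hv
      refine ⟨p, Or.inl ⟨?_, hp⟩⟩
      rintro rfl
      exact l4 x ((l1 v).1 hp ▸ hv)
  · rintro p p' v (⟨e, hv⟩ | ⟨e, hv⟩) (⟨e', hv'⟩ | ⟨e', hv'⟩)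
    · exact h.dis _ _ _ hv hv'
    · exact absurd ((t3 v hv').2 _ hv) e
    · exact absurd ((t3 v hv).2 _ hv') e'
    · exact e.trans e'.symm
  · rintro p v w (⟨e, hv⟩ | ⟨rfl, hv⟩) (⟨e', hw⟩ | ⟨e', hw⟩)
    · exact ins_mono (hold p e) (h.con _ _ _ hv hw)
    · subst e'; exact (hzb v e hv).trans (htb w hw).symm
    · exact (htb v hv).trans (hzb w e' hw).symm
    · exact (htb v hv).trans (htb w hw).symm
  · rintro p v (⟨e, hv⟩ | ⟨rfl, -⟩)
    · exact Or.inl ⟨e, h.a0 p v hv⟩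
    · rcases hp0 with e | e
      · exact Or.inr ⟨rfl, Or.inl e.1⟩
      · exact Or.inl ⟨e.1, h.a0 _ _ e.2⟩
  · rintro p y (⟨e, hy⟩ | ⟨rfl, rfl | ⟨e, rfl⟩⟩)
    · obtain ⟨v, hv, hyv⟩ := h.a1 p y hy
      exact ⟨v, hold p e v hv, hyv⟩
    · exact ⟨a, Or.inr ⟨rfl, hat⟩, haa⟩
    · exact ⟨b, Or.inr ⟨rfl, hbt⟩, (hp0.resolve_right fun e' => e'.1 e).2 ▸ hbz.symm⟩
  · intro p x y hx hy hxy
    by_cases e : p = p0 ∧ (x = x0 ∨ y = x0)
    · obtain ⟨rfl, rfl | rfl⟩ := e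
      · exact hlk y hxy.symm hy
      · exact (hlk x hxy hx).symm
    · rcases hx with ⟨e1, hx⟩ | ⟨e1, hx | hx⟩
      · rcases hy with ⟨-, hy⟩ | ⟨e2, hy | hy⟩
        · exact (h.a2 p x y hx hy hxy).mono (hold p e1)
        · exact absurd ⟨e2, Or.inr hy⟩ e
        · exact absurd (e2.trans hy.1) e1
      · exact absurd ⟨e1, Or.inl hx⟩ e
      · rcases hy with ⟨e2, -⟩ | ⟨-, hy | hy⟩
        · exact absurd (e1.trans hx.1) e2
        · exact absurd ⟨e1, Or.inr hy⟩ e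
        · exact absurd (hx.2.trans hy.2.symm) hxy
  · intro x hx
    by_cases e : x = x0
    · subst e
      left
      rcases hp0 with e | e
      · exact ⟨p0, u, fun e' => hz0 (by rw [e.2, e']), Or.inr ⟨rfl, Or.inl rfl⟩,
          Or.inr ⟨rfl, Or.inr ⟨e.1, rfl⟩⟩⟩
      · exact ⟨p0, p0, e.1, Or.inr ⟨rfl, Or.inl rfl⟩, Or.inl ⟨e.1, h.a0 _ _ e.2⟩⟩
    rcases h.d x hx with ⟨p, y, hy, h1, h2⟩ | ⟨m0, m1, m2, m3, m4⟩
    · have : p ≠ x0 := by rintro rfl; exact e (l2 _ h1)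
      exact Or.inl ⟨p, y, hy, Or.inl ⟨this, h1⟩, Or.inl ⟨this, h2⟩⟩
    by_cases e' : x = p0
    · exact Or.inl ⟨x, x0, Ne.symm e, Or.inl ⟨e, h.a0 _ _ ((m1 _).2 rfl)⟩,
        Or.inr ⟨e', Or.inl rfl⟩⟩
    refine Or.inr ⟨by simp [e, m0], fun v => ?_, ?_, by rwa [Function.update_of_ne e], fun y => ?_⟩
    · simp [T', e, e', m1]
    · rintro y (⟨-, hy⟩ | ⟨hy, -⟩)
      · exact m2 y hy
      · exact absurd hy e'
    · by_cases e2 : y = x0
      · subst e2
        rw [Function.update_self]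
        exact fun hv => e ((t3 _ hv).2 _ ((m1 _).2 rfl))
      · rw [Function.update_of_ne e2]; exact m4 y

theorem pieces (hL : Long G n f) (k : ℕ) (hk : 0 < k)
    (hconn : ∀ s : V, (G.induce ({s}ᶜ : Set V)).Connected)
    (hδ : ∀ v, 19 * k + 196 ≤ G.degree v) :
    ∃ (T : ZMod n → V → Prop) (Ad : ZMod n → ZMod n → Prop),
      (∀ p v, T p v → v ∉ Set.range f ∧ (attS ((Out G f).connectedComponentMk v)).card < k) ∧
      (∀ p p' v, T p v → T p' v → p = p') ∧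
      (∀ p x y, Ad p x → Ad p y → x ≠ y → Link G f (T p) x y) ∧
      ∀ x, ¬ Lv G f k x → ∃ p y, y ≠ x ∧ Ad p x ∧ Ad p y := by
  obtain ⟨ψ0, hinj, hψ0⟩ := exists_psi hL k hk (fun v => by have := hδ v; omega)
  let ψ : ZMod n → V := fun x => if h : Lv G f k x then f x else ψ0 ⟨x, h⟩
  have hψ : ∀ x, ¬ Lv G f k x → G.Adj (f x) (ψ x) ∧ ψ x ∉ Set.range f := fun x hx => by
    simp only [ψ, dif_neg hx]; exact (mem_filter.1 (hψ0 ⟨x, hx⟩)).2
  have key : ∀ S : Finset (ZMod n), ∃ T Ad tl, Inv G f (fun x => ¬ Lv G f k x) ψ S T Ad tl := by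
    intro S
    induction S using Finset.induction_on with
    | empty =>
      refine ⟨fun p v => ¬ Lv G f k p ∧ v = ψ p, fun p y => ¬ Lv G f k p ∧ y = p, fun _ => [],
        fun p v h => ⟨p, h.1, Or.inl h.2⟩, by simp, by simp, by simp, ?_, ?_,
        fun p v h => ⟨h.1, rfl⟩, ?_, ?_, fun x hx => Or.inr ⟨by simp, by simp [hx], by simp, rfl,
          by simp⟩⟩
      · rintro p p' v ⟨h1, rfl⟩ ⟨h2, e⟩
        simp only [ψ, dif_neg h1, dif_neg h2] at e
        exact congrArg Subtype.val (hinj e)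
      · rintro p u w ⟨-, rfl⟩ ⟨-, rfl⟩; exact .refl _
      · rintro p x ⟨h1, rfl⟩; exact ⟨_, ⟨h1, rfl⟩, (hψ _ h1).1⟩
      · rintro p x y ⟨-, rfl⟩ ⟨-, rfl⟩ e; exact absurd rfl e
    | insert x S _ ih =>
      obtain ⟨T, Ad, tl, h⟩ := ih
      exact h.step hL hconn hδ hψ x
  obtain ⟨T, Ad, tl, h⟩ := key univ
  refine ⟨T, Ad, fun p v hv => ?_, h.dis, h.a2,
    fun x hx => (h.d x hx).resolve_right fun e => e.1 (mem_univ _)⟩
  obtain ⟨x, hx, e⟩ := h.i1 p v hv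
  have hm : Mem v ((Out G f).connectedComponentMk (ψ x)) :=
    e.elim (fun e => by rw [e]; exact mem_mk (hψ x hx).2) (h.i2 x v)
  refine ⟨hm.2, not_le.1 fun e' => hx ⟨_, e', ψ x, ?_, (hψ x hx).1⟩⟩
  rw [hm.1]; exact mem_mk (hψ x hx).2

end Pool.Agent.MP_ee574f_co
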