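import Pool.Agent.MP_ee574f_co.Fin2
import Pool.Agent.MP_ee574f_co.Pieces
import Pool.Agent.MP_ee574f_co.Merge
import Pool.Agent.MP_ee574f_co.LLL

set_option autoImplicit false

namespace Pool.Agent.MP_ee574f_co

open SimpleGraph Classical Finset

theorem cast_ne {n : ℕ} (hn : 10 ≤ n) (a : ℕ) (h0 : 0 < a) (h1 : a < 10) :
    ((a : ℕ) : ZMod n) ≠ 0 := fun e => by
  have := Nat.le_of_dvd h0 ((ZMod.natCast_eq_zero_iff _ _).1 e); omega

theorem max_match {n : ℕ} [NeZero n] (hn : 10 ≤ n) (W : ZMod n → Prop) :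
    ∃ E : Finset (ZMod n), (∀ i ∈ E, W i ∧ W (i + 1) ∧ i + 1 ∉ E) ∧
      ∀ i, W i → W (i + 1) → i ∈ E ∨ i + 1 ∈ E ∨ i - 1 ∈ E := by
  obtain ⟨E, hE, hmax⟩ := exists_max_image
    (univ.filter (fun E : Finset (ZMod n) => ∀ i ∈ E, W i ∧ W (i + 1) ∧ i + 1 ∉ E)) card
    ⟨∅, by simp⟩
  have hE' := (mem_filter.1 hE).2
  refine ⟨E, hE', fun i h1 h2 => ?_⟩
  by_contra hno
  simp only [not_or] at hno
  have h10 : (1 : ZMod n) ≠ 0 := by exact_mod_cast cast_ne hn 1 (by omega) (by omega)
  have := hmax (insert i E) (mem_filter.2 ⟨mem_univ _, fun j hj => ?_⟩)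
  · rw [card_insert_of_notMem hno.1] at this; omega
  · rcases mem_insert.1 hj with rfl | hj
    · exact ⟨h1, h2, by simp [h10, hno.2.1]⟩
    · refine ⟨(hE' j hj).1, (hE' j hj).2.1, fun h => ?_⟩
      rcases mem_insert.1 h with h | h
      · exact hno.2.2 (by rw [← h, add_sub_cancel_right]; exact hj)
      · exact (hE' j hj).2.2 h

theorem cands {n : ℕ} (hn : 10 ≤ n) (Sg : ZMod n → Prop) (Q : Finset (ZMod n))
    (hQ : 3 ≤ Q.card) : ∃ c : Bool → ZMod n, (∀ b, c b ∈ Q) ∧ c false ≠ c true ∧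
      (Sg (c false) → Sg (c true) → c false ≠ c true + 2 ∧ c true ≠ c false + 2) ∧
      (Sg (c true) → Sg (c false)) ∧ (Sg (c false) → ¬ Sg (c true) → c false - 2 ∈ Q) := by
  have h2 : (2 : ZMod n) ≠ 0 := by exact_mod_cast cast_ne hn 2 (by omega) (by omega)
  have h6 : (6 : ZMod n) ≠ 0 := by exact_mod_cast cast_ne hn 6 (by omega) (by omega)
  by_cases h : ∃ x ∈ Q, ∃ y ∈ Q, x ≠ y ∧
      ((¬ Sg x ∧ ¬ Sg y) ∨ (Sg x ∧ Sg y ∧ x ≠ y + 2 ∧ y ≠ x + 2))
  · obtain ⟨x, hx, y, hy, hxy, h⟩ := h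
    refine ⟨fun b => if b then y else x, by rintro (_ | _) <;> simpa, by simpa, ?_, ?_, ?_⟩ <;>
      simp only [Bool.false_eq_true, if_false, if_true] <;> tauto
  have key : ∀ x ∈ Q, ∀ y ∈ Q, x ≠ y → (Sg x ∨ Sg y) ∧ (Sg x → Sg y → x = y + 2 ∨ y = x + 2) := by
    intro x hx y hy hxy
    refine ⟨?_, fun a b => ?_⟩
    · by_contra e; exact h ⟨x, hx, y, hy, hxy, Or.inl (not_or.1 e)⟩
    · by_contra e; exact h ⟨x, hx, y, hy, hxy, Or.inr ⟨a, b, not_or.1 e⟩⟩
  have fin : ∀ x ∈ Q, ∀ z ∈ Q, ∀ y ∈ Q, x ≠ z → x ≠ y → z ≠ y → ¬ Sg y →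
      ∃ c : Bool → ZMod n, (∀ b, c b ∈ Q) ∧ c false ≠ c true ∧
      (Sg (c false) → Sg (c true) → c false ≠ c true + 2 ∧ c true ≠ c false + 2) ∧
      (Sg (c true) → Sg (c false)) ∧ (Sg (c false) → ¬ Sg (c true) → c false - 2 ∈ Q) := by
    intro x hx z hz y hy hxz hxy hzy hs
    have sx := (key x hx y hy hxy).1.resolve_right hs
    have sz := (key z hz y hy hzy).1.resolve_right hs
    rcases (key x hx z hz hxz).2 sx sz with e | e
    · exact ⟨fun b => if b then y else x, by rintro (_ | _) <;> simpa, by simpa,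
        by simp [hs], by simp [hs], by simp [e, hz]⟩
    · exact ⟨fun b => if b then y else z, by rintro (_ | _) <;> simpa, by simpa,
        by simp [hs], by simp [hs], by simp [e, hx]⟩
  obtain ⟨a, b, c, ha, hb, hc, hab, hac, hbc⟩ := two_lt_card_iff.1 hQ
  by_cases sa : Sg a
  swap; · exact fin b hb c hc a ha hbc hab.symm hac.symm sa
  by_cases sb : Sg b
  swap; · exact fin a ha c hc b hb hac hab hbc.symm sb
  by_cases sc : Sg c
  swap; · exact fin a ha b hb c hc hab hac hbc sc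
  exfalso
  rcases (key a ha b hb hab).2 sa sb with e1 | e1 <;>
    rcases (key a ha c hc hac).2 sa sc with e2 | e2 <;>
    rcases (key b hb c hc hbc).2 sb sc with e3 | e3
  · exact h2 (by linear_combination -e3 + e2 - e1)
  · exact h2 (by linear_combination -e3 - e2 + e1)
  · exact h6 (by linear_combination -e1 - e2 - e3)
  · exact h2 (by linear_combination e3 - e1 - e2)
  · exact h2 (by linear_combination e3 - e1 - e2)
  · exact h6 (by linear_combination -e1 - e2 - e3)
  · exact h2 (by linear_combination -e3 + e1 - e2)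
  · exact h2 (by linear_combination -e3 - e1 + e2)

variable {V : Type} [Fintype V] {G : SimpleGraph V} {n : ℕ} [NeZero n] {f : ZMod n → V}

/-- Random choice of the roots. -/
theorem sinks2 (hL : Long G n f) (Δ L : ℕ) (hL7 : 7 ≤ L) (hΔ : Δ ≤ 2 ^ L)
    (hdeg : ∀ v, G.degree v ≤ Δ) {κ : Type} [Fintype κ] (o : κ → Bool → ZMod n)
    (Sg : ZMod n → Prop) (o1 : ∀ q b q' b', o q b = o q' b' → q = q')
    (o3 : ∀ q s, Lv G f (429 * L) s → ∃ b, Sg (o q b) → o q b ≠ s - 1 ∧ o q b ≠ s + 1) :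
    ∃ (B : ZMod n → Prop) (ω : κ → Bool), (∀ i, B i → ¬ B (i + 1)) ∧
      (∀ K : Comp G f, 429 * L ≤ (attS K).card → ∃ s, Att s K ∧ B s) ∧
      ∀ s q, B s → Sg (o q (ω q)) → o q (ω q) ≠ s - 1 ∧ o q (ω q) ≠ s + 1 := by
  let good : ZMod n → (ZMod n ⊕ κ → Bool) → Prop := fun s ω =>
    ω (.inl s) = true ∧ ω (.inl (s - 1)) = false ∧
      ∀ q, Sg (o q (ω (.inr q))) → o q (ω (.inr q)) ≠ s - 1 ∧ o q (ω (.inr q)) ≠ s + 1
  let vars : ZMod n → Finset (ZMod n ⊕ κ) := fun s =>
    {.inl s, .inl (s - 1)} ∪ ((univ.filter (fun q => ∃ b, o q b = s - 1)).image .inr ∪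
      (univ.filter (fun q => ∃ b, o q b = s + 1)).image .inr)
  have hone : ∀ v, ((univ.filter (fun q => ∃ b, o q b = v)).image
      (Sum.inr : κ → ZMod n ⊕ κ)).card ≤ 1 := by
    intro v
    refine card_image_le.trans (card_le_one.2 ?_)
    intro q hq q' hq'
    obtain ⟨b, e⟩ := (mem_filter.1 hq).2
    obtain ⟨b', e'⟩ := (mem_filter.1 hq').2
    exact o1 q b q' b' (e.trans e'.symm)
  have key := lll_atoms (η := {K : Comp G f // 429 * L ≤ (attS K).card}) vars
    (fun s ω => ¬ good s ω) (fun K => attS K.1) Δ L hL7 hΔ ?_ ?_ ?_ ?_ ?_ (fun K => K.2)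
  · obtain ⟨ω, hω⟩ := key
    refine ⟨fun s => good s ω, fun q => ω (.inr q), ?_, ?_, fun s q h => h.2.2 q⟩
    · rintro i h h'
      have := h'.2.1; rw [add_sub_cancel_right, h.1] at this; cases this
    · intro K hK
      obtain ⟨s, hs, hg⟩ := hω ⟨K, hK⟩
      exact ⟨s, (mem_filter.1 hs).2, not_not.1 hg⟩
  · intro s
    have h1 := hone (s - 1)
    have h2 := hone (s + 1)
    have h3 : ({.inl s, .inl (s - 1)} : Finset (ZMod n ⊕ κ)).card ≤ 2 := card_le_two
    refine (card_union_le _ _).trans ?_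
    have h4 := card_union_le ((univ.filter (fun q => ∃ b, o q b = s - 1)).image
      (Sum.inr : κ → ZMod n ⊕ κ)) ((univ.filter (fun q => ∃ b, o q b = s + 1)).image .inr)
    omega
  · intro s ω ω' h hg hg'
    refine hg ⟨?_, ?_, fun q hq => ⟨fun e => ?_, fun e => ?_⟩⟩
    · rw [h _ (by simp [vars])]; exact hg'.1
    · rw [h _ (by simp [vars])]; exact hg'.2.1
    · have := h (.inr q) (mem_union_right _ (mem_union_left _
        (mem_image_of_mem _ (mem_filter.2 ⟨mem_univ _, _, e⟩))))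
      exact (hg'.2.2 q (this ▸ hq)).1 (this ▸ e)
    · have := h (.inr q) (mem_union_right _ (mem_union_right _
        (mem_image_of_mem _ (mem_filter.2 ⟨mem_univ _, _, e⟩))))
      exact (hg'.2.2 q (this ▸ hq)).2 (this ▸ e)
  · intro K s hs
    have hs' : Lv G f (429 * L) s := ⟨K.1, K.2, (mem_filter.1 hs).2⟩
    choose b hb using fun q => o3 q s hs'
    refine ⟨Sum.elim (fun v => decide (v = s)) b, not_not.2 ⟨by simp, ?_, fun q => hb q⟩⟩
    have : s - 1 ≠ s := fun e => hL.one_ne (by linear_combination -e)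
    simp [this]
  · rintro (v | q)
    · refine le_trans (card_le_card (t := {v, v + 1}) ?_) (card_le_two.trans (by norm_num))
      intro s hs
      have := (mem_filter.1 hs).2
      simp only [vars, mem_union, mem_insert, mem_singleton, Sum.inl.injEq, mem_image,
        reduceCtorEq, and_false, exists_false, or_false] at this
      rcases this with rfl | rfl <;> simp
    · refine le_trans (card_le_card
        (t := {o q true + 1, o q false + 1, o q true - 1, o q false - 1}) ?_) card_le_four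
      intro s hs
      have := (mem_filter.1 hs).2
      simp only [vars, mem_union, mem_insert, mem_singleton, mem_image, mem_filter, mem_univ,
        true_and, reduceCtorEq, false_or, Sum.inr.injEq, exists_eq_right] at this
      rcases this with ⟨b, e⟩ | ⟨b, e⟩
      · have : s = o q b + 1 := by rw [e]; ring
        cases b <;> simp [this]
      · have : s = o q b - 1 := by rw [e]; ring
        cases b <;> simp [this]
  · intro s
    refine le_trans ?_ (hdeg (f s))
    rw [← card_neighborFinset_eq_degree]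
    have : ∀ K : {K : Comp G f // 429 * L ≤ (attS K).card}, ∃ v, s ∈ attS K.1 →
        Mem v K.1 ∧ G.Adj (f s) v := by
      intro K
      by_cases h : s ∈ attS K.1
      · obtain ⟨v, hv⟩ := (mem_filter.1 h).2; exact ⟨v, fun _ => hv⟩
      · exact ⟨f 0, fun h' => absurd h' h⟩
    choose w hw using this
    refine card_le_card_of_injOn w ?_ ?_
    · intro K hK
      exact mem_coe.2 ((mem_neighborFinset _ _ _).2 (hw K (mem_filter.1 (mem_coe.1 hK)).2).2)
    · intro K hK K' hK' e
      have h1 := (hw K (mem_filter.1 (mem_coe.1 hK)).2).1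
      have h2 := (hw K' (mem_filter.1 (mem_coe.1 hK')).2).1
      exact Subtype.ext (h1.unique (e ▸ h2))

omit [NeZero n] in
theorem ten_le (hL : Long G n f) (hconn : ∀ s : V, (G.induce ({s}ᶜ : Set V)).Connected)
    (hδ : ∀ v, 66 ≤ G.degree v) : 10 ≤ n := by
  have h1 := hL.one_ne
  have h2 := hL.two_ne
  obtain ⟨t, ⟨t1, t2, t3, ⟨a, ha, haa⟩, b, hb, z, hbz, hz, hz0⟩, t8, -⟩ :=
    short_tail G hconn 8 (fun w => w ≠ f 0 ∧ w ≠ f 1) (f 0) (f (-1)) (f 1) (fun e => e.1 rfl)
      ⟨fun e => h1 (by linear_combination -hL.inj e), fun e => h2 (by linear_combination -hL.inj e)⟩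
      (by simpa using (hL.adj (-1)).symm) (fun e => e.2 rfl) (fun e => h1 (hL.inj e))
      (fun r _ => by
        have hs : G.neighborFinset r ⊆
            univ.filter (fun w => G.Adj r w ∧ (w ≠ f 0 ∧ w ≠ f 1)) ∪ {f 0, f 1} := by
          intro w hw
          by_cases e : w ≠ f 0 ∧ w ≠ f 1
          · exact mem_union_left _ (mem_filter.2 ⟨mem_univ _, (mem_neighborFinset _ _ _).1 hw, e⟩)
          · exact mem_union_right _ (by simp; tauto)
        have a1 := (card_le_card hs).trans (card_union_le _ _)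
        have a2 : ({f 0, f 1} : Finset V).card ≤ 2 := card_le_two
        have a3 := hδ r
        rw [card_neighborFinset_eq_degree] at a1
        have a4 : 8 * 8 ≤ (univ.filter (fun w => G.Adj r w ∧ (w ≠ f 0 ∧ w ≠ f 1))).card := by omega
        convert a4)
  have hz1 : z = f 1 := by by_contra e; exact hz ⟨hz0, e⟩
  subst hz1
  have := hL.long (f 0 :: (t ++ [f 1])) ?_ (by simp; omega) ?_ ?_
  · simp at this; omega
  · refine List.nodup_cons.2 ⟨fun h => ?_, List.nodup_append.2 ⟨t1, by simp, ?_⟩⟩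
    · rcases List.mem_append.1 h with h | h
      · exact (t3 _ h).1 rfl
      · exact hz0 (List.mem_singleton.1 h).symm
    · intro c hc d hd
      rw [List.mem_singleton.1 hd]; exact (t3 c hc).2
  · rw [List.isChain_cons]
    refine ⟨fun y hy => ?_, t2.append (by simp) fun c hc d hd => ?_⟩
    · rw [List.head?_append_of_ne_nil _ (by rintro rfl; simp at t8), Option.mem_def.1 ha] at hy
      cases hy; exact haa
    · rw [Option.mem_def.1 hb] at hc; cases hc
      simp at hd; subst hd; exact hbz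
  · intro c hc d hd
    simp at hc; subst hc
    rw [← List.cons_append, List.getLast?_append_of_ne_nil _ (by simp)] at hd
    simp at hd; subst hd
    simpa using (hL.adj 0).symm

theorem two_conn (hL : Long G n f) (Δ L : ℕ) (hL7 : 7 ≤ L) (hΔ : Δ ≤ 2 ^ L)
    (hdeg : ∀ v, G.degree v ≤ Δ) (hδ : ∀ v, 8151 * L + 196 ≤ G.degree v)
    (hconn : ∀ s : V, (G.induce ({s}ᶜ : Set V)).Connected) : False := by
  set k := 429 * L with hk
  have hn := ten_le hL hconn fun v => by have := hδ v; omega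
  obtain ⟨T, Ad, t1, t2, a2, a3⟩ := pieces hL k (by omega) hconn fun v => by have := hδ v; omega
  let W : ZMod n → Prop := fun x => ¬ Lv G f k x
  let Sg : ZMod n → Prop := fun x => ¬ W (x + 1) ∧ ¬ W (x - 1)
  obtain ⟨E, hE, hEm⟩ := max_match hn W
  let R : ZMod n → ZMod n → Prop := fun a b => ∃ p, Ad p a ∧ Ad p b
  let st : Setoid (ZMod n) := Relation.EqvGen.setoid R
  let cl : Quotient st → Finset (ZMod n) := fun q => univ.filter (fun x => Quotient.mk st x = q)
  let κ := {q : Quotient st // (∀ x ∈ cl q, W x) ∧ 3 ≤ (cl q).card}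
  choose c c1 c2 c3 c4 c5 using fun q : κ => cands hn Sg (cl q.1) q.2.2
  have hcl : ∀ (q q' : κ) x, x ∈ cl q.1 → x ∈ cl q'.1 → q = q' := fun q q' x h h' =>
    Subtype.ext ((mem_filter.1 h).2.symm.trans (mem_filter.1 h').2)
  obtain ⟨S', o, o1, o2, o3⟩ := merge
    (fun a b => (a ∈ E ∧ b = a + 1) ∨ (b ∈ E ∧ a = b + 1)) Sg
    (fun a => ∃ q : κ, a = c q false ∧ a - 2 ∈ cl q.1) 
    (fun a b => a ≠ b ∧ a ≠ b + 2 ∧ b ≠ a + 2)
    (fun a b h => h.symm) (fun a h => hL.one_ne (by
      linear_combination -(h.elim And.right And.right : a = a + 1)))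
    (by
      rintro a b d (⟨h, rfl⟩ | ⟨h, rfl⟩) (⟨h', e⟩ | ⟨h', e⟩)
      · exact e.symm
      · exact absurd (e ▸ h) (hE d h').2.2
      · exact absurd h' (hE b h).2.2
      · exact add_right_cancel e)
    (by
      rintro a b hs (⟨h, rfl⟩ | ⟨h, rfl⟩)
      · exact hs.1 (hE a h).2.1
      · exact hs.2 (by rw [add_sub_cancel_right]; exact (hE b h).1))
    (by
      rintro a b ⟨q, e, h⟩ ⟨q', e', h'⟩ hab
      have hne : q ≠ q' := fun z => hab (by rw [e, e', z])
      exact ⟨hab, fun z => hne (hcl q q' b (by simpa [z] using h) (e' ▸ c1 q' false)),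
        fun z => hne (hcl q q' a (e ▸ c1 q false) (by simpa [z] using h'))⟩)
    (univ : Finset κ) c
    (by
      intro q _ q' _ b b' e
      have := hcl q q' _ (c1 q b) (e ▸ c1 q' b')
      subst this
      refine ⟨rfl, ?_⟩
      cases b <;> cases b'
      exacts [rfl, absurd e (c2 q), absurd e.symm (c2 q), rfl])
    (fun q _ h h' => ⟨c2 q, c3 q h h'⟩)
    (by
      rintro q _ (_ | _) h h'
      · exact ⟨q, rfl, c5 q h h'⟩
      · exact absurd (c4 q h) h')
  obtain ⟨B, ω, B1, B2, B3⟩ := sinks2 hL Δ L hL7 hΔ hdeg (fun q : S' => o q.1) Sg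
    (fun q b q' b' e => Subtype.ext (o1 _ q.2 _ q'.2 b b' e))
    (by
      intro q s hs
      by_contra hno
      push Not at hno
      obtain ⟨f1, f2, f3⟩ := o2 _ q.2 (hno false).1 (hno true).1
      by_cases h : o q false = s - 1 <;> by_cases h' : o q true = s - 1
      · exact f1 (h.trans h'.symm)
      · exact f3 (by rw [h, (hno true).2 h']; ring)
      · exact f2 (by rw [h', (hno false).2 h]; ring)
      · exact f1 (((hno false).2 h).trans ((hno true).2 h').symm))
  obtain ⟨Sel, e1, e2, e3, e4⟩ := o3 fun q => if h : q ∈ S' then ω ⟨q, h⟩ else false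
  have hW : ∀ a, Sel a → W a := fun a h => by
    obtain ⟨q, -, b, rfl⟩ := e2 a h
    exact q.2.1 _ (c1 q b)
  have hB : ∀ s a, B s → Sel a → Sg a → a ≠ s - 1 ∧ a ≠ s + 1 := by
    intro s a hs ha hg
    obtain ⟨q, hq, e⟩ := e4 a ha hg
    rw [dif_pos hq] at e
    subst e
    exact B3 s ⟨q, hq⟩ hs hg
  let A : ZMod n → Prop := fun s => (¬ W s ∧ B s) ∨ Sel s
  have hA : ∀ s, A s → W s → Sel s := fun s h h' => h.resolve_left fun e => e.1 h'
  have hA' : ∀ s, A s → ¬ W s → B s := fun s h h' => (h.resolve_right fun e => h' (hW s e)).2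
  have hrun := run_of_local W A
    (fun i h h' => by
      by_contra e
      exact B1 i (hA' _ h (not_or.1 e).1) (hA' _ h' (not_or.1 e).2))
    (fun i h h' w => by
      by_contra e
      exact (hB _ _ (hA' _ h' (not_or.1 e).1) (hA _ h w) (not_or.1 e)).1 (by ring))
    (fun i h h' w => by
      by_contra e
      refine (hB _ _ (hA' _ h (not_or.1 e).1) (hA _ h' w) ⟨?_, ?_⟩).2 rfl
      · rw [add_assoc, one_add_one_eq_two]; exact (not_or.1 e).2
      · rw [add_sub_cancel_right]; exact (not_or.1 e).1)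
    (fun i h h' w w' => by
      rcases hEm i w w' with e | e | e
      · exact absurd (Or.inl ⟨e, rfl⟩) (e3 _ _ (hA _ h w) (hA _ h' w'))
      · have w2 := (hE _ e).2.1
        rw [add_assoc, one_add_one_eq_two] at w2
        exact Or.inl ⟨w2, fun z => e3 _ _ (hA _ h' w') (hA _ z w2) (Or.inl ⟨e, by ring⟩)⟩
      · exact Or.inr ⟨(hE _ e).1, fun z => e3 _ _ (hA _ z (hE _ e).1) (hA _ h w)
          (Or.inl ⟨e, by ring⟩)⟩)
  have hc : ∀ a : ℕ, 2 ≤ a → a < 10 → ((a : ℕ) : ZMod n) ≠ 0 ∧ ((a : ℕ) : ZMod n) ≠ 1 := by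
    intro a h1 h2
    refine ⟨cast_ne hn a (by omega) h2, fun e => cast_ne hn (a - 1) (by omega) (by omega) ?_⟩
    rw [Nat.cast_sub (by omega), e]; simp
  refine finish2 hL k T Ad t1 t2 a2 A ?_ hrun (fun K hK => ?_) fun x => ?_
  · by_cases h5 : A 5
    swap; · exact ⟨5, h5, by exact_mod_cast hc 5 (by omega) (by omega)⟩
    by_cases h6 : A (5 + 1)
    swap
    · exact ⟨_, h6, by have := hc 6 (by omega) (by omega); norm_num at this ⊢; exact this⟩
    obtain ⟨x, -, hx, -, hm⟩ := hrun A (fun _ => id) 5 h5 (Or.inl h6)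
    refine ⟨x, hx, ?_⟩
    simp only [mem_insert, mem_singleton] at hm
    rcases hm with e | e | e | e | e | e
    · rw [show x = ((4 : ℕ) : ZMod n) by push_cast; linear_combination -e]
      exact hc 4 (by omega) (by omega)
    · rw [show x = ((3 : ℕ) : ZMod n) by push_cast; linear_combination -e]
      exact hc 3 (by omega) (by omega)
    · rw [show x = ((2 : ℕ) : ZMod n) by push_cast; linear_combination -e]
      exact hc 2 (by omega) (by omega)
    · rw [show x = ((6 : ℕ) : ZMod n) by push_cast; linear_combination -e]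
      exact hc 6 (by omega) (by omega)
    · rw [show x = ((7 : ℕ) : ZMod n) by push_cast; linear_combination -e]
      exact hc 7 (by omega) (by omega)
    · rw [show x = ((8 : ℕ) : ZMod n) by push_cast; linear_combination -e]
      exact hc 8 (by omega) (by omega)
  · obtain ⟨s, h1, h2⟩ := B2 K hK
    exact ⟨s, h1, Or.inl ⟨fun e => e ⟨K, hK, h1⟩, h2⟩⟩
  · have hmem : ∀ z, z ∈ cl (Quotient.mk st x) ↔ Relation.EqvGen R x z := fun z => by
      simp only [cl, mem_filter, mem_univ, true_and]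
      exact ⟨fun e => Quotient.exact e.symm, fun e => (Quotient.sound (s := st) e).symm⟩
    by_cases h : ∀ z ∈ cl (Quotient.mk st x), W z
    swap
    · push Not at h
      obtain ⟨y, e, hy⟩ := h
      exact Or.inl ⟨y, Or.inl (not_not.1 hy), (hmem y).1 e⟩
    by_cases h3 : 3 ≤ (cl (Quotient.mk st x)).card
    · obtain ⟨b, hb⟩ := e1 ⟨_, h, h3⟩ (mem_univ _)
      exact Or.inl ⟨_, Or.inr (Or.inr hb), (hmem _).1 (c1 ⟨_, h, h3⟩ b)⟩
    · right
      have hx := (hmem x).2 (.refl _)
      obtain ⟨p, y, hy, p1, p2⟩ := a3 x (h x hx)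
      have h2 : 1 < (cl (Quotient.mk st x)).card :=
        one_lt_card.2 ⟨y, (hmem y).2 (.rel _ _ ⟨p, p1, p2⟩), x, hx, hy⟩
      have h4 : (cl (Quotient.mk st x)).card = 2 := by omega
      have h5 : univ.filter (fun z => Relation.EqvGen R x z) = cl (Quotient.mk st x) := by
        ext z; rw [hmem]; simp
      have h6 : Even (univ.filter (fun z => Relation.EqvGen R x z)).card := by
        rw [h5, h4]; exact even_two
      convert h6

end Pool.Agent.MP_ee574f_co
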