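import Pool.Agent.MP_ee574f_co.Exch

set_option autoImplicit false

namespace Pool.Agent.MP_ee574f_co

open SimpleGraph Classical

variable {V : Type} {G : SimpleGraph V} {n : ℕ} {f : ZMod n → V}

/-- Data of the auxiliary graph: sinks `A`, green edges `x - ρ (hs x)`, join edges `J`. -/
structure Dat (G : SimpleGraph V) {n : ℕ} (f : ZMod n → V) where
  A : ZMod n → Prop
  gr : ZMod n → Prop
  hs : ZMod n → Comp G f
  ρ : Comp G f → ZMod n
  J : ZMod n → Comp G f → Prop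
  ind : ∀ i, A i → ¬ A (i + 1)
  grA : ∀ x, gr x → ¬ A x
  grAtt : ∀ x, gr x → Att x (hs x)
  rootA : ∀ x, gr x → A (ρ (hs x))
  rootAtt : ∀ x, gr x → Att (ρ (hs x)) (hs x)
  JAtt : ∀ x K, J x K → Att x K
  JLink : ∀ x y K, J x K → J y K → x ≠ y → Link2 K x y
  Jsep : ∀ x y K, J x K → gr y → hs y ≠ K

namespace Dat

variable (D : Dat G f)

def φ (x : ZMod n) : ZMod n := D.ρ (D.hs x)

def SAdj : ZMod n ⊕ Comp G f → ZMod n ⊕ Comp G f → Prop
  | .inl x, .inl y => y = x + 1 ∨ x = y + 1 ∨ (D.gr x ∧ y = D.φ x) ∨ (D.gr y ∧ x = D.φ y)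
  | .inl x, .inr K => D.J x K
  | .inr K, .inl x => D.J x K
  | .inr _, .inr _ => False

theorem SAdj_symm {z p : ZMod n ⊕ Comp G f} (h : D.SAdj z p) : D.SAdj p z := by
  rcases z with x | K <;> rcases p with y | K' <;> simp only [SAdj] at h ⊢ <;> tauto

def Own (z p : ZMod n ⊕ Comp G f) : Prop :=
  ∃ x, p = .inl x ∧ ((∃ K, z = .inr K) ∨ (D.gr x ∧ z = .inl (D.φ x)))

def End (z p : ZMod n ⊕ Comp G f) (e : V) : Prop :=
  (∃ x, p = .inl x ∧ D.Own z p ∧ G.Adj (f x) e) ∨ (¬ D.Own z p ∧ ∃ a, z = .inl a ∧ e = f a)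

def Terr : ZMod n ⊕ Comp G f → V → Prop
  | .inl a, v => v = f a ∨ ∃ x, D.gr x ∧ D.φ x = a ∧ Mem v (D.hs x)
  | .inr K, v => Mem v K ∧ ∃ x, D.J x K

def Dbl (z p q : ZMod n ⊕ Comp G f) : Prop :=
  ∃ x y, p = .inl x ∧ q = .inl y ∧ D.gr x ∧ D.gr y ∧ z = .inl (D.φ x) ∧ D.hs x = D.hs y

theorem own_inl {a : ZMod n} {p : ZMod n ⊕ Comp G f} :
    D.Own (.inl a) p ↔ ∃ x, p = .inl x ∧ D.gr x ∧ D.φ x = a := by
  constructor
  · rintro ⟨x, rfl, ⟨K, hK⟩ | ⟨h1, h2⟩⟩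
    · cases hK
    · exact ⟨x, rfl, h1, (Sum.inl.inj h2).symm⟩
  · rintro ⟨x, rfl, h1, rfl⟩
    exact ⟨x, rfl, Or.inr ⟨h1, rfl⟩⟩

theorem own_asymm {z p : ZMod n ⊕ Comp G f} (h : D.Own z p) : ¬ D.Own p z := by
  obtain ⟨x, rfl, h⟩ := h
  rw [own_inl]
  rintro ⟨y, rfl, hy, e⟩
  rcases h with ⟨K, hK⟩ | ⟨h1, h2⟩
  · cases hK
  · exact D.grA x h1 (e ▸ D.rootA y hy)

theorem red_of_not_own {z p : ZMod n ⊕ Comp G f} (h : D.SAdj z p) (h1 : ¬ D.Own z p)
    (h2 : ¬ D.Own p z) : ∃ a b, z = .inl a ∧ p = .inl b ∧ (b = a + 1 ∨ a = b + 1) := by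
  rcases z with x | K <;> rcases p with y | K' <;> simp only [SAdj] at h
  · rcases h with h | h | h | h
    · exact ⟨x, y, rfl, rfl, Or.inl h⟩
    · exact ⟨x, y, rfl, rfl, Or.inr h⟩
    · exact absurd (D.own_inl.2 ⟨x, rfl, h.1, h.2.symm⟩) h2
    · exact absurd (D.own_inl.2 ⟨y, rfl, h.1, h.2.symm⟩) h1
  · exact absurd ⟨x, rfl, Or.inl ⟨_, rfl⟩⟩ h2
  · exact absurd ⟨y, rfl, Or.inl ⟨_, rfl⟩⟩ h1

theorem end_link (hL : Long G n f) {z p : ZMod n ⊕ Comp G f} {e e' : V} (h : D.SAdj z p)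
    (h1 : D.End z p e) (h2 : D.End p z e') : G.Adj e e' := by
  rcases h1 with ⟨x, hx, o1, a1⟩ | ⟨o1, a, ha, rfl⟩
  · rcases h2 with ⟨y, -, o2, -⟩ | ⟨-, b, hb, rfl⟩
    · exact absurd o2 (D.own_asymm o1)
    · rw [hx] at hb; cases hb; exact a1.symm
  · rcases h2 with ⟨y, hy, o2, a2⟩ | ⟨o2, b, hb, rfl⟩
    · rw [ha] at hy; cases hy; exact a2
    · obtain ⟨a', b', e1, e2, hr⟩ := D.red_of_not_own h o1 o2
      rw [ha] at e1; rw [hb] at e2; cases e1; cases e2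
      rcases hr with rfl | rfl
      · exact hL.adj _
      · exact (hL.adj _).symm

theorem terr_disj (hL : Long G n f) {z z' : ZMod n ⊕ Comp G f} {v : V} (h : D.Terr z v)
    (h' : D.Terr z' v) : z = z' := by
  rcases z with a | K <;> rcases z' with b | K' <;> simp only [Terr] at h h'
  · rcases h with h | ⟨x, -, hx, m⟩ <;> rcases h' with h' | ⟨y, -, hy, m'⟩
    · rw [hL.inj (h.symm.trans h')]
    · exact absurd ⟨a, h.symm⟩ m'.2
    · exact absurd ⟨b, h'.symm⟩ m.2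
    · rw [← hx, ← hy, φ, φ, m.unique m']
  · obtain ⟨m', y, hy⟩ := h'
    rcases h with h | ⟨x, gx, -, m⟩
    · exact absurd ⟨a, h.symm⟩ m'.2
    · exact absurd (m.unique m') (D.Jsep y x K' hy gx)
  · obtain ⟨m', y, hy⟩ := h
    rcases h' with h | ⟨x, gx, -, m⟩
    · exact absurd ⟨b, h.symm⟩ m'.2
    · exact absurd (m.unique m') (D.Jsep y x K hy gx)
  · rw [h.1.unique h'.1]

theorem half (a : ZMod n) (p : ZMod n ⊕ Comp G f) :
    ∃ l : List V, l.Nodup ∧ (l ++ [f a]).IsChain G.Adj ∧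
      (∀ v ∈ l, ∃ x, p = .inl x ∧ D.gr x ∧ D.φ x = a ∧ Mem v (D.hs x)) ∧
      (∀ e ∈ (l ++ [f a]).head?, D.End (.inl a) p e) ∧
      (if D.Own (.inl a) p then 1 else 0) ≤ l.length := by
  by_cases o : D.Own (.inl a) p
  · obtain ⟨x, rfl, gx, hx⟩ := D.own_inl.1 o
    obtain ⟨v, hv, av⟩ := D.grAtt x gx
    obtain ⟨w, hw, aw⟩ := D.rootAtt x gx
    obtain ⟨l, hl⟩ := seg_exists hv hw
    have hne := hl.ne_nil
    obtain ⟨nd, hc, hm, hh, ht⟩ := hl
    refine ⟨l, nd, hc.append (by simp) ?_, fun u hu => ⟨x, rfl, gx, hx, hm u hu⟩, ?_, ?_⟩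
    · intro b hb c hc'
      rw [ht] at hb; cases hb
      simp at hc'; subst hc'
      exact hx ▸ aw.symm
    · intro e he
      rw [List.head?_append_of_ne_nil _ hne, hh] at he
      cases he
      exact Or.inl ⟨x, rfl, o, av⟩
    · rw [if_pos o]; exact List.length_pos_of_ne_nil hne
  · refine ⟨[], by simp, by simp, by simp, ?_, by simp [o]⟩
    intro e he
    simp at he; subst he
    exact Or.inr ⟨o, a, rfl, rfl⟩

/-- number of edges owned -/
noncomputable def own2 (z p q : ZMod n ⊕ Comp G f) : ℕ :=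
  (if D.Own z p then 1 else 0) + (if D.Own z q then 1 else 0)

theorem piece {z p q : ZMod n ⊕ Comp G f} (hp : D.SAdj z p) (hq : D.SAdj z q) (hpq : p ≠ q) :
    ∃ l : List V, l ≠ [] ∧ l.Nodup ∧ l.IsChain G.Adj ∧ (∀ v ∈ l, D.Terr z v) ∧
      (∀ e ∈ l.head?, D.End z p e) ∧ (∀ e ∈ l.getLast?, D.End z q e) ∧
      (if z.isLeft then 1 else 0) + (if D.Dbl z p q then 0 else D.own2 z p q) ≤ l.length := by
  rcases z with a | K
  · by_cases hd : D.Dbl (.inl a) p q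
    · have hd' := hd
      obtain ⟨x, y, rfl, rfl, gx, gy, e, hxy⟩ := hd'
      have e' : D.φ x = a := (Sum.inl.inj e).symm
      have e'' : D.φ y = a := by rw [← e', φ, φ, hxy]
      obtain ⟨v, hv, av⟩ := D.grAtt x gx
      obtain ⟨w, hw, aw⟩ := D.grAtt y gy
      obtain ⟨l, hl⟩ := seg_exists hv (hxy ▸ hw)
      have hne := hl.ne_nil
      obtain ⟨nd, hc, hm, hh, ht⟩ := hl
      refine ⟨l, hne, nd, hc, fun u hu => Or.inr ⟨x, gx, e', hm u hu⟩, ?_, ?_, ?_⟩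
      · intro b hb; rw [hh] at hb; cases hb
        exact Or.inl ⟨x, rfl, D.own_inl.2 ⟨x, rfl, gx, e'⟩, av⟩
      · intro b hb; rw [ht] at hb; cases hb
        exact Or.inl ⟨y, rfl, D.own_inl.2 ⟨y, rfl, gy, e''⟩, aw⟩
      · rw [if_pos hd]; have := List.length_pos_of_ne_nil hne; simp; omega
    · obtain ⟨l1, n1, c1, m1, e1, k1⟩ := D.half a p
      obtain ⟨l2, n2, c2, m2, e2, k2⟩ := D.half a q
      have hrev : f a :: l2.reverse = (l2 ++ [f a]).reverse := by simp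
      refine ⟨l1 ++ f a :: l2.reverse, by simp, ?_, ?_, ?_, ?_, ?_, ?_⟩
      · rw [List.nodup_append]
        refine ⟨n1, List.nodup_cons.2 ⟨fun h => ?_, List.nodup_reverse.2 n2⟩, ?_⟩
        · obtain ⟨x, -, -, -, m⟩ := m2 _ (List.mem_reverse.1 h)
          exact m.2 ⟨a, rfl⟩
        · intro u hu w hw huw
          subst huw
          obtain ⟨x, hx, gx, ex, m⟩ := m1 _ hu
          rcases List.mem_cons.1 hw with h | h
          · exact m.2 ⟨a, h.symm⟩
          · obtain ⟨y, hy, gy, -, m'⟩ := m2 _ (List.mem_reverse.1 h)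
            exact hd ⟨x, y, hx, hy, gx, gy, by rw [ex], m.unique m'⟩
      · rw [List.isChain_split]
        refine ⟨c1, ?_⟩
        rw [hrev, List.isChain_reverse]
        exact c2.imp fun _ _ h => h.symm
      · intro u hu
        rcases List.mem_append.1 hu with h | h
        · obtain ⟨x, -, gx, ex, m⟩ := m1 _ h
          exact Or.inr ⟨x, gx, ex, m⟩
        · rcases List.mem_cons.1 h with h | h
          · exact Or.inl h
          · obtain ⟨x, -, gx, ex, m⟩ := m2 _ (List.mem_reverse.1 h)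
            exact Or.inr ⟨x, gx, ex, m⟩
      · intro e he
        refine e1 e ?_
        cases l1 <;> simpa using he
      · intro e he
        refine e2 e ?_
        rw [List.getLast?_append_of_ne_nil _ (by simp), hrev, List.getLast?_reverse] at he
        exact he
      · rw [if_neg hd, own2]
        simp only [Sum.isLeft_inl, if_true, List.length_append, List.length_cons,
          List.length_reverse]
        omega
  · rcases p with x | K1
    swap; · exact hp.elim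
    rcases q with y | K2
    swap; · exact hq.elim
    have hxy : x ≠ y := fun e => hpq (by rw [e])
    obtain ⟨v, w, hvw, hv, hw, av, aw⟩ := D.JLink x y K hp hq hxy
    obtain ⟨l, hl⟩ := seg_exists hv hw
    have h2 := hl.two_le hvw
    have hne := hl.ne_nil
    obtain ⟨nd, hc, hm, hh, ht⟩ := hl
    refine ⟨l, hne, nd, hc, fun u hu => ⟨hm u hu, x, hp⟩, ?_, ?_, ?_⟩
    · intro b hb; rw [hh] at hb; cases hb
      exact Or.inl ⟨x, rfl, ⟨x, rfl, Or.inl ⟨K, rfl⟩⟩, av⟩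
    · intro b hb; rw [ht] at hb; cases hb
      exact Or.inl ⟨y, rfl, ⟨y, rfl, Or.inl ⟨K, rfl⟩⟩, aw⟩
    · rw [own2]; simp only [Sum.isLeft_inr]
      split_ifs <;> first | omega | contradiction

end Dat

end Pool.Agent.MP_ee574f_co
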